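import Pool.Agent.Lib.MP_6b2d39_agHz.Cols

set_option autoImplicit false

namespace Pool.Agent.Lib.MP_6b2d39_agHz

open Pool.Agent.Lib.MP_6b2d39_agHl

/-- HZ4. the rows `i` with `s i ≤ c < s i + min (r i) (s b)` are counted by `kk`, and they satisfy
`c / s - b < i ≤ c / s`, so there are at most `min (kk c) b` of them (`cc_stp`, `cc_phi`,
`sum_cols`) -/
theorem cc_lo {s N : ℕ} (hs : 1 ≤ s) (r : ℕ → ℕ) (b : ℕ) :
    CC r N ≤ CC (stp s N r) b + Phi N r (s * b) := by
  rw [← cc_phi N r (s * b), cc_stp, ← sum_cols]
  refine Nat.add_le_add_right (Finset.sum_le_sum fun c _ => le_min ?_ ?_) _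
  · unfold kk
    refine Finset.card_le_card fun i hi => ?_
    rw [Finset.mem_filter] at hi ⊢
    exact ⟨hi.1, hi.2.1, lt_of_lt_of_le hi.2.2 (Nat.add_le_add_left (min_le_left _ _) _)⟩
  · have h : ((Finset.range N).filter fun i =>
        s * i ≤ c ∧ c < s * i + min (r i) (s * b)).card ≤ (Finset.range b).card := by
      have key : ∀ i ∈ (Finset.range N).filter fun i =>
          s * i ≤ c ∧ c < s * i + min (r i) (s * b), i ≤ c / s ∧ c / s < i + b := by
        intro i hi
        have hi' := (Finset.mem_filter.1 hi).2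
        have h1 : c < s * (i + b) := by
          rw [mul_add]
          exact lt_of_lt_of_le hi'.2 (Nat.add_le_add_left (min_le_right _ _) _)
        refine ⟨(Nat.le_div_iff_mul_le (by omega)).2 ?_, (Nat.div_lt_iff_lt_mul (by omega)).2 ?_⟩
        · rw [mul_comm]
          exact hi'.1
        · rw [mul_comm]
          exact h1
      refine Finset.card_le_card_of_injOn (fun i => c / s - i) ?_ ?_
      · intro i hi
        obtain ⟨h1, h2⟩ := key i (Finset.mem_coe.1 hi)
        have h3 : c / s - i < b := by omega
        exact Finset.mem_coe.2 (Finset.mem_range.2 h3)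
      · intro i hi j hj hij
        obtain ⟨h1, h2⟩ := key i (Finset.mem_coe.1 hi)
        obtain ⟨h3, h4⟩ := key j (Finset.mem_coe.1 hj)
        have h5 : c / s - i = c / s - j := hij
        omega
    rwa [Finset.card_range] at h

end Pool.Agent.Lib.MP_6b2d39_agHz
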