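import Pool.Agent.Lib.MP_6b2d39_agHz.Cols

set_option autoImplicit false

namespace Pool.Agent.Lib.MP_6b2d39_agHz

open Pool.Agent.Lib.MP_6b2d39_agHl

/-- HZ5. one column: if no row `j` contains `c` with `s b ≤ c - s j`, the first set contains all
the rows counted by `kk`. Otherwise `s b ≤ c`, so `b ≤ c / s`, and each of the `b` indices
`c / s - b < i ≤ c / s` satisfies `s i ≤ c < s i + s b`; it is in the first set (`c < s i + r i`,
then `i < N` as `r i > 0`), or `r i ≤ c - s i`, and then `(i, c - s i)` is missing (`k = i - j`). -/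
theorem col_up {s N : ℕ} (hs : 1 ≤ s) {r : ℕ → ℕ} (h0 : ∀ i, N ≤ i → r i = 0) (b c : ℕ)
    (E : Finset (ℕ × ℕ)) (hE : ∀ i a, Miss s b r i a → (i, a) ∈ E) :
    min (kk s N r c) b ≤
      ((Finset.range N).filter fun i => s * i ≤ c ∧ c < s * i + min (r i) (s * b)).card +
      (E.filter fun p => s * p.1 + p.2 = c).card := by
  by_cases hj : ∃ j, j < N ∧ s * j ≤ c ∧ c < s * j + r j ∧ s * b + s * j ≤ c
  · obtain ⟨j, hjN, hj1, hj2, hj3⟩ := hj
    have hcs : s * (c / s) ≤ c := Nat.mul_div_le c s
    have hcs2 : c < s * (c / s) + s := by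
      have h := Nat.lt_mul_div_succ c (show 0 < s by omega)
      rw [Nat.mul_add, Nat.mul_one] at h
      exact h
    have hbc : b ≤ c / s := by
      rw [Nat.le_div_iff_mul_le (by omega), Nat.mul_comm]
      omega
    have hsub : Finset.Ioc (c / s - b) (c / s) ⊆
        ((Finset.range N).filter fun i => s * i ≤ c ∧ c < s * i + min (r i) (s * b)) ∪
        (E.filter fun p => s * p.1 + p.2 = c).image Prod.fst := by
      intro i hi
      rw [Finset.mem_Ioc] at hi
      have h1 : s * i ≤ c := le_trans (Nat.mul_le_mul_left s hi.2) hcs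
      have h2 : c < s * i + s * b := by
        have h3 : s * (c / s + 1) ≤ s * (i + b) := Nat.mul_le_mul_left s (by omega)
        rw [Nat.mul_add, Nat.mul_add, Nat.mul_one] at h3
        omega
      rw [Finset.mem_union]
      by_cases h4 : c < s * i + r i
      · left
        rw [Finset.mem_filter, Finset.mem_range]
        refine ⟨?_, h1, ?_⟩
        · by_contra h5
          have := h0 i (by omega)
          omega
        · rcases Nat.le_total (r i) (s * b) with h6 | h6
          · rw [Nat.min_eq_left h6]; exact h4
          · rw [Nat.min_eq_right h6]; exact h2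
      · right
        rw [Finset.mem_image]
        refine ⟨(i, c - s * i), ?_, rfl⟩
        rw [Finset.mem_filter]
        refine ⟨hE _ _ ⟨by omega, by omega, i - j, ?_, by omega, ?_, ?_⟩, by
          show s * i + (c - s * i) = c
          omega⟩
        · have h7 : j < i := by
            by_contra h8
            have := Nat.mul_le_mul_left s (Nat.le_of_not_lt h8)
            omega
          omega
        · have h7 : j < i := by
            by_contra h8
            have := Nat.mul_le_mul_left s (Nat.le_of_not_lt h8)
            omega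
          have h9 : s * (i - j) + s * j = s * i := by
            rw [← Nat.mul_add, Nat.sub_add_cancel h7.le]
          omega
        · have h7 : j < i := by
            by_contra h8
            have := Nat.mul_le_mul_left s (Nat.le_of_not_lt h8)
            omega
          have h9 : s * (i - j) + s * j = s * i := by
            rw [← Nat.mul_add, Nat.sub_add_cancel h7.le]
          have h10 : i - (i - j) = j := by omega
          rw [h10]
          omega
    have h5 := Finset.card_le_card hsub
    rw [Nat.card_Ioc] at h5
    have h6 := Finset.card_union_le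
      ((Finset.range N).filter fun i => s * i ≤ c ∧ c < s * i + min (r i) (s * b))
      ((E.filter fun p => s * p.1 + p.2 = c).image Prod.fst)
    have h7 := Finset.card_image_le (s := E.filter fun p => s * p.1 + p.2 = c) (f := Prod.fst)
    have h8 := Nat.min_le_right (kk s N r c) b
    omega
  · refine le_trans (Nat.min_le_left _ _) (le_trans ?_ (Nat.le_add_right _ _))
    unfold kk
    apply Finset.card_le_card
    intro i hi
    rw [Finset.mem_filter, Finset.mem_range] at hi ⊢
    refine ⟨hi.1, hi.2.1, ?_⟩
    have h4 : ¬ (s * b + s * i ≤ c) := fun h => hj ⟨i, hi.1, hi.2.1, hi.2.2, h⟩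
    rcases Nat.le_total (r i) (s * b) with h6 | h6
    · rw [Nat.min_eq_left h6]; exact hi.2.2
    · rw [Nat.min_eq_right h6]; omega

/-- HZ6. sum of `col_up` over the columns (`cc_stp`, `cc_phi`, `sum_cols`; the sets
`E.filter fun p => s * p.1 + p.2 = c` are disjoint) -/
theorem cc_up {s N : ℕ} (hs : 1 ≤ s) {r : ℕ → ℕ} (h0 : ∀ i, N ≤ i → r i = 0) (b : ℕ)
    (E : Finset (ℕ × ℕ)) (hE : ∀ i a, Miss s b r i a → (i, a) ∈ E) :
    CC (stp s N r) b + Phi N r (s * b) ≤ CC r N + E.card := by
  have h1 := cc_stp s N r b
  have h2 := cc_phi N r (s * b)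
  have h3 := sum_cols s N (s * b) r
  have h4 : ∑ c ∈ Finset.range (s * N + ∑ i ∈ Finset.range N, r i), min (kk s N r c) b ≤
      ∑ c ∈ Finset.range (s * N + ∑ i ∈ Finset.range N, r i),
        (((Finset.range N).filter fun i => s * i ≤ c ∧ c < s * i + min (r i) (s * b)).card +
        (E.filter fun p => s * p.1 + p.2 = c).card) :=
    Finset.sum_le_sum fun c _ => col_up hs h0 b c E hE
  rw [Finset.sum_add_distrib, h3] at h4
  have h5 : ∑ c ∈ Finset.range (s * N + ∑ i ∈ Finset.range N, r i),
      (E.filter fun p => s * p.1 + p.2 = c).card ≤ E.card := by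
    rw [← Finset.card_biUnion]
    · apply Finset.card_le_card
      intro p hp
      rw [Finset.mem_biUnion] at hp
      obtain ⟨c, _, hc⟩ := hp
      exact (Finset.mem_filter.1 hc).1
    · intro c _ c' _ hcc
      rw [Function.onFun, Finset.disjoint_left]
      intro p hp hp'
      rw [Finset.mem_filter] at hp hp'
      exact hcc (hp.2.symm.trans hp'.2)
  omega

end Pool.Agent.Lib.MP_6b2d39_agHz
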