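import Pool.Agent.Lib.MP_6b2d39_agHl.Defs

/-!
Almost homogeneous systems, window `(m + 1) polylog` (THEOREM HZ): definitions.

`r` is a diagram given by its rows (`r b = 0` for `b ≥ n`), `s` the length of a step, `x` the
square root of the slope of the rows, `N` (real) the side of the triangle.
-/

set_option autoImplicit false

namespace Pool.Agent.Lib.MP_6b2d39_agHz

open Pool.Agent.Lib.MP_6b2d39_agHl

/-- number of the cells `(a, i)` of the diagram with `a ≥ c` -/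
def Phi (n : ℕ) (r : ℕ → ℕ) (c : ℕ) : ℕ := ∑ i ∈ Finset.range n, (r i - c)

/-- sum of the rows `i < b` -/
def CC (r : ℕ → ℕ) (b : ℕ) : ℕ := ∑ i ∈ Finset.range b, r i

/-- the ideal value of `Phi` -/
noncomputable def gg (x N c : ℝ) : ℝ := (max (x * (N + 1 / 2) - c) 0) ^ 2 / (2 * x ^ 2)

/-- `Phi` is within `B` of its ideal value -/
def PB (x B N : ℝ) (n : ℕ) (r : ℕ → ℕ) : Prop := ∀ c : ℕ, |(Phi n r c : ℝ) - gg x N c| ≤ B

/-- rows bounded above and below by the line of slope `x ^ 2` (`low_chain`) -/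
structure Rws (x A : ℝ) (n : ℕ) (r : ℕ → ℕ) : Prop where
  z : ∀ b, n ≤ b → r b = 0
  up : ∀ b, (r b : ℝ) ≤ max (x * A - x ^ 2 * b) 0
  lo : ∀ b, x * (A + 1) - x ^ 2 - x ^ 2 * b ≤ (r b : ℝ)

/-- the position `a` of the row `i` is missing (`r i ≤ a`) in the first `s * b` positions, and the
same column contains a cell of a smaller row beyond the position `s * b` -/
def Miss (s b : ℕ) (r : ℕ → ℕ) (i a : ℕ) : Prop :=
  a < s * b ∧ r i ≤ a ∧ ∃ k, 1 ≤ k ∧ k ≤ i ∧ s * b ≤ a + s * k ∧ a + s * k < r (i - k)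

/-- the sizes: `R = √n`, `xf` the square root of the slope of the last rows, `B` their error -/
structure Fz (R m xf B : ℝ) : Prop where
  r0 : 1000000 ≤ R
  m0 : 0 ≤ m
  xf0 : 0 < xf
  xf1 : xf ≤ R
  xf2 : (R - xf) * (m + 2) ≤ 1 / (2 * R)
  b0 : 0 ≤ B
  b1 : 2 * B ≤ R / 500

end Pool.Agent.Lib.MP_6b2d39_agHz
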