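import Pool.Agent.Lib.MP_6b2d39_agHz.Defs

set_option autoImplicit false

namespace Pool.Agent.Lib.MP_6b2d39_agHz

variable {R m xf B S D : ℝ}

/-- HZ28. as `top_real`, `Hy/NumA.lean`, with `TT` replaced by `D - 1 / 2` -/
theorem top_z (h : Fz R m xf B) (h0 : 0 ≤ S) (hS : S ≤ R ^ 2 * (m + 1))
    (hD : |D - (S / R + R / 2)| ≤ R / 8) {T : ℝ} (h1 : xf * T < D - 1 / 2)
    (h2 : D - 1 / 2 ≤ xf * (T + 1)) : T < S / R ^ 2 + 2 / 3 ∧ S / R ^ 2 - 2 / 3 ≤ T := by
  obtain ⟨r0, m0, xf0, xf1, xf2, b0, b1⟩ := h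
  have hR : (0 : ℝ) < R := by linarith
  have hT1 : D - 1 / 2 ≤ D + 1 / 4 := by linarith
  have hT2 : D - R / 24 ≤ D - 1 / 2 := by linarith
  obtain ⟨hD1, hD2⟩ := abs_le.1 hD
  have hSR : S / R ≤ R * (m + 1) := by
    rw [div_le_iff₀ hR]
    linarith
  have hSR0 : 0 ≤ S / R := by positivity
  have hSR2 : S / R ^ 2 * R = S / R := by
    field_simp
  have hSR3 : 0 ≤ S / R ^ 2 := by positivity
  have hRi : 1 / R * R = 1 := by
    field_simp
  have hRi0 : 0 < 1 / R := by positivity
  have hRi1 : 1 / R ≤ 1 := by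
    rw [div_le_one hR]
    linarith
  have hRR : 1 / (2 * R) = 1 / 2 * (1 / R) := by
    field_simp
  rw [hRR] at xf2
  constructor
  · rcases lt_or_ge T 0 with hT | hT
    · linarith
    · have hxf : R / 2 ≤ xf := by
        have h3 : (R - xf) * 2 ≤ (R - xf) * (m + 2) :=
          mul_le_mul_of_nonneg_left (by linarith) (by linarith)
        linarith
      have h3 : T ≤ 2 * (m + 2) := by
        by_contra h4
        push Not at h4
        have h5 : R / 2 * (2 * (m + 2)) ≤ xf * T :=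
          mul_le_mul hxf h4.le (by linarith) xf0.le
        nlinarith
      have h4 : (R - xf) * T ≤ 1 / R := by
        have h5 : (R - xf) * T ≤ (R - xf) * (2 * (m + 2)) :=
          mul_le_mul_of_nonneg_left h3 (by linarith)
        linarith
      have h5 : T * R < (S / R ^ 2 + 2 / 3) * R := by
        nlinarith
      exact lt_of_mul_lt_mul_right h5 hR.le
  · have h3 : 0 ≤ T + 1 := by
      by_contra h4
      push Not at h4
      have h5 : xf * (T + 1) < 0 := mul_neg_of_pos_of_neg xf0 h4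
      linarith
    have h4 : xf * (T + 1) ≤ R * (T + 1) := mul_le_mul_of_nonneg_right xf1 h3
    have h5 : (S / R ^ 2 - 2 / 3) * R ≤ T * R := by
      nlinarith
    exact le_of_mul_le_mul_right h5 hR

end Pool.Agent.Lib.MP_6b2d39_agHz
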