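import Pool.Agent.Lib.MP_6b2d39_agHz.Defs

set_option autoImplicit false

namespace Pool.Agent.Lib.MP_6b2d39_agHz

variable {R m xf B S D : ℝ}

private theorem nzb_low (h : Fz R m xf B) (D : ℝ) :
    xf * (D - xf / 2) - R / 500 ≤ xf * D - xf ^ 2 / 2 - 2 * B := by
  have h1 := h.b1
  have h2 : xf * (D - xf / 2) = xf * D - xf ^ 2 / 2 := by ring
  rw [h2]
  linarith

private theorem nzb_xf (h : Fz R m xf B) {t : ℝ} (ht : t ≤ R * (m + 2)) :
    (R - xf) * t ≤ 1 / 2 := by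
  have hR : 0 < R := by linarith [h.r0]
  calc (R - xf) * t ≤ (R - xf) * (R * (m + 2)) :=
        mul_le_mul_of_nonneg_left ht (by linarith [h.xf1])
    _ = R * ((R - xf) * (m + 2)) := by ring
    _ ≤ R * (1 / (2 * R)) := mul_le_mul_of_nonneg_left h.xf2 hR.le
    _ = 1 / 2 := by field_simp

/-- HZ29. as `w_lower`, `Hy/NumB.lean` (`2 B ≤ R / 500`) -/
theorem w_lower_z (h : Fz R m xf B) (h0 : 0 ≤ S) (hS : S ≤ R ^ 2 * (m + 1))
    (hD : |D - (S / R + R / 2)| ≤ R / 8) :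
    S - (xf * D - xf ^ 2 / 2 - 2 * B) ≤ R ^ 2 / 4 := by
  have hl := nzb_low h D
  have r0 := h.r0
  have m0 := h.m0
  have hR : 0 < R := by linarith
  have hSR : S / R ≤ R * (m + 1) := by
    rw [div_le_iff₀ hR]
    linarith
  rw [abs_le] at hD
  obtain ⟨h1, h2⟩ := hD
  have h3 : (R - xf) * (D - (R + xf) / 2) ≤ 1 / 2 := by
    refine nzb_xf h ?_
    have := h.xf0
    linarith
  have h4 : R * (S / R - R / 8) ≤ R * (D - R / 2) :=
    mul_le_mul_of_nonneg_left (by linarith) hR.le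
  have h5 : R * (S / R - R / 8) = S - R ^ 2 / 8 := by
    field_simp
  have h6 : xf * (D - xf / 2) = R * (D - R / 2) - (R - xf) * (D - (R + xf) / 2) := by ring
  have h7 : 1000000 * R ≤ R ^ 2 := by nlinarith
  rw [h5] at h4
  rw [h6] at hl
  linarith

/-- HZ30. as `d_upper`, `Hy/NumB.lean` -/
theorem d_upper_z (h : Fz R m xf B) (h0 : 0 ≤ S) (hS : S ≤ R ^ 2 * (m + 1))
    (hW : xf * D - xf ^ 2 / 2 - 2 * B < S) : D ≤ S / R + R / 2 + R / 8 := by
  by_contra hlt
  rw [not_le] at hlt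
  have hl := nzb_low h D
  have r0 := h.r0
  have m0 := h.m0
  have x0 := h.xf0
  have x1 := h.xf1
  have hR : 0 < R := by linarith
  have hSR : S / R ≤ R * (m + 1) := by
    rw [div_le_iff₀ hR]
    linarith
  have h1 : (R - xf) * (S / R) ≤ 1 / 2 := nzb_xf h (by nlinarith)
  have h2 : (R - xf) * (2 * R) ≤ 1 / 2 * 1 := by
    have h3 := nzb_xf h (t := 2 * R) (by nlinarith)
    linarith
  have h3 : R / 2 ≤ xf := by nlinarith
  have h4 : R / 2 * (R / 8) ≤ xf * (R / 8) := mul_le_mul_of_nonneg_right h3 (by linarith)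
  have h5 : xf * (S / R + R / 8) ≤ xf * (D - xf / 2) :=
    mul_le_mul_of_nonneg_left (by linarith) x0.le
  have h6 : xf * (S / R + R / 8) = S - (R - xf) * (S / R) + xf * (R / 8) := by
    field_simp
    ring
  have h7 : 1000000 * R ≤ R ^ 2 := by nlinarith
  have h8 : R / 2 * (R / 8) = R ^ 2 / 16 := by ring
  rw [h6] at h5
  rw [h8] at h4
  linarith

end Pool.Agent.Lib.MP_6b2d39_agHz
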