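import Pool.Agent.Lib.MP_6b2d39_agHz.Defs

set_option autoImplicit false

namespace Pool.Agent.Lib.MP_6b2d39_agHz

variable {R m xf B : ℝ}

/-- HZ31. as `mneg_loss` in `Hy/MainNeg.lean` -/
theorem loss_z (h : Fz R m xf B) : (R ^ 2 - xf ^ 2) * m ≤ 1 := by
  have hR : 0 < R := by linarith [h.r0]
  have h1 := h.xf2
  have h2 : 0 ≤ R - xf := by linarith [h.xf1]
  have h3 : 0 ≤ (R - xf) * m := mul_nonneg h2 h.m0
  have h4 : (R - xf) * m ≤ 1 / (2 * R) := by nlinarith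
  have h5 : (R ^ 2 - xf ^ 2) * m = (R + xf) * ((R - xf) * m) := by ring
  have h6 : (R + xf) * ((R - xf) * m) ≤ (2 * R) * ((R - xf) * m) :=
    mul_le_mul_of_nonneg_right (by linarith [h.xf1]) h3
  have h7 : (2 * R) * ((R - xf) * m) ≤ 2 * R * (1 / (2 * R)) :=
    mul_le_mul_of_nonneg_left h4 (by linarith)
  have h8 : 2 * R * (1 / (2 * R)) = 1 := by field_simp
  linarith

/-- HZ32. `(d + 2) (d + 3) / 2 > M - w ≥ R ^ 2 m (m + 1) / 2 - w`, `w ≤ R m / 10`; if `d + 1 < w`,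
then `d + 3 ≤ R m / 5`, contradiction -/
theorem w_le_z {M w d : ℝ} (hR : 1000000 ≤ R) (hm : 100 ≤ m) (hM : R ^ 2 * (m * (m + 1)) / 2 ≤ M)
    (hd : 0 ≤ d) (hw : w ≤ R * m / 10) (hv : -w < (d + 2) * (d + 3) / 2 - M) : w ≤ d + 1 := by
  by_contra hcon
  push Not at hcon
  have hRm : 100000000 ≤ R * m := by nlinarith
  have h1 : d + 3 ≤ R * m / 5 := by linarith
  have h2 : (d + 2) * (d + 3) ≤ (R * m / 5) * (R * m / 5) :=
    mul_le_mul (by linarith) h1 (by linarith) (by linarith)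
  have h3 : R ^ 2 * (m * (m + 1)) = (R * m) * (R * m) + R * (R * m) := by ring
  have h4 : 1000000 * (R * m) ≤ R * (R * m) := mul_le_mul_of_nonneg_right hR (by linarith)
  have h5 : 0 ≤ (R * m) * (R * m) := mul_self_nonneg _
  nlinarith

end Pool.Agent.Lib.MP_6b2d39_agHz
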