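import Pool.Agent.Lib.MP_6b2d39_agHz.Defs
import Pool.Agent.Lib.MP_6b2d39_agHl.Count

set_option autoImplicit false

namespace Pool.Agent.Lib.MP_6b2d39_agHz

open Pool.Agent.Lib.MP_6b2d39_agHl

/-- HZ10. `r i ≤ c + (r i - c)` -/
theorem cc_le_phi {N : ℕ} {r : ℕ → ℕ} (h0 : ∀ i, N ≤ i → r i = 0) (b c : ℕ) :
    CC r b ≤ b * c + Phi N r c := by
  have h1 : CC r b ≤ b * c + ∑ i ∈ Finset.range b, (r i - c) := by
    unfold CC
    calc ∑ i ∈ Finset.range b, r i ≤ ∑ i ∈ Finset.range b, (c + (r i - c)) :=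
          Finset.sum_le_sum fun i _ => by omega
      _ = b * c + ∑ i ∈ Finset.range b, (r i - c) := by
          rw [Finset.sum_add_distrib, Finset.sum_const, Finset.card_range, smul_eq_mul]
  have h2 : ∑ i ∈ Finset.range b, (r i - c) ≤ ∑ i ∈ Finset.range (max b N), (r i - c) :=
    Finset.sum_le_sum_of_subset (Finset.range_mono (le_max_left b N))
  have h3 : ∑ i ∈ Finset.range (max b N), (r i - c) = ∑ i ∈ Finset.range N, (r i - c) := by
    symm
    refine Finset.sum_subset (Finset.range_mono (le_max_right b N)) fun i _ hi => ?_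
    rw [h0 i (not_lt.1 fun h => hi (Finset.mem_range.2 h)), Nat.zero_sub]
  unfold Phi
  omega

/-- HZ11. `b` = number of the `i < N` with `r i > c`: an initial segment -/
theorem phi_attain {N : ℕ} {r : ℕ → ℕ} (hr : Antitone r) (c : ℕ) :
    ∃ b, b ≤ N ∧ b * c + Phi N r c ≤ CC r b := by
  induction N with
  | zero => exact ⟨0, le_refl _, by simp [Phi, CC]⟩
  | succ N ih =>
    by_cases h : c < r N
    · refine ⟨N + 1, le_refl _, ?_⟩
      have h1 : ∀ i ∈ Finset.range (N + 1), c + (r i - c) = r i := by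
        intro i hi
        have := hr (Nat.lt_succ_iff.1 (Finset.mem_range.1 hi))
        omega
      have h2 : (N + 1) * c + Phi (N + 1) r c = CC r (N + 1) := by
        unfold Phi CC
        rw [← Finset.sum_congr rfl h1, Finset.sum_add_distrib, Finset.sum_const,
          Finset.card_range, smul_eq_mul]
      exact h2.le
    · obtain ⟨b, hb, h1⟩ := ih
      refine ⟨b, hb.trans (Nat.le_succ N), ?_⟩
      have h2 : Phi (N + 1) r c = Phi N r c := by
        unfold Phi
        rw [Finset.sum_range_succ, Nat.sub_eq_zero_of_le (not_lt.1 h), add_zero]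
      rw [h2]
      exact h1

/-- HZ12. -/
theorem stp_antitone (s N : ℕ) (r : ℕ → ℕ) : Antitone (stp s N r) := by
  intro b b' h
  unfold stp
  refine Finset.card_le_card fun c hc => ?_
  rw [Finset.mem_filter] at hc ⊢
  exact ⟨hc.1, lt_of_le_of_lt h hc.2⟩

end Pool.Agent.Lib.MP_6b2d39_agHz
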