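import Pool.Agent.Lib.MP_6b2d39_agCr.Lower

set_option autoImplicit false

open MvPolynomial

namespace Pool.Agent.Lib.MP_6b2d39_agHz

open Pool.Agent.Lib.MP_6b2d39_ag Pool.Agent.Lib.MP_6b2d39_agCr

/-- the jets of order `< m i` among the jets of order `< ν i` -/
private def relE {h : ℕ} {m ν : Fin h → ℕ} (hmν : ∀ i, m i ≤ ν i) (i : Fin h)
    (z : JetIdx (m i)) : JetIdx (ν i) :=
  ⟨Fin.castLE (hmν i) z.1, z.2⟩

private theorem relE_inj {h : ℕ} {m ν : Fin h → ℕ} (hmν : ∀ i, m i ≤ ν i) (i : Fin h) :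
    Function.Injective (relE hmν i) := by
  intro z z' hz
  have h1 : jetMon (relE hmν i z) = jetMon (relE hmν i z') := congrArg jetMon hz
  exact jetMon_injective (m i) h1

/-- HZ43. as `lower_bound` (`ag/LowerBound.lean`): the linear map from `fatSystem d m p` given by
the coefficients of degree `k`, `m i ≤ k < ν i`, at the points; its kernel is `fatSystem d ν p` -/
theorem rel_bound {d h : ℕ} (m ν : Fin h → ℕ) (hmν : ∀ i, m i ≤ ν i) (p : Fin h → Fin 2 → ℂ) :
    Module.finrank ℂ (fatSystem d m p) + ∑ i, (m i + 1).choose 2 ≤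
      Module.finrank ℂ (fatSystem d ν p) + ∑ i, (ν i + 1).choose 2 := by
  classical
  have hle : fatSystem d ν p ≤ fatSystem d m p := by
    intro f hf
    rw [mem_fatSystem_iff] at hf ⊢
    refine ⟨hf.1, fun i => ?_⟩
    funext z
    exact congrFun (hf.2 i) (relE hmν i z)
  haveI : FiniteDimensional ℂ (fatSystem d m p) :=
    Submodule.finiteDimensional_of_le (fatSystem_le m p)
  let R : (∀ i, JetIdx (ν i) → ℂ) →ₗ[ℂ] (∀ i, JetIdx (m i) → ℂ) :=
    LinearMap.pi fun i => (LinearMap.funLeft ℂ ℂ (relE hmν i)).comp (LinearMap.proj i)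
  have hR : Function.Surjective R := by
    intro g
    have h1 : ∀ i, ∃ y : JetIdx (ν i) → ℂ, LinearMap.funLeft ℂ ℂ (relE hmν i) y = g i := fun i =>
      LinearMap.funLeft_surjective_of_injective ℂ ℂ _ (relE_inj hmν i) (g i)
    choose y hy using h1
    refine ⟨y, ?_⟩
    funext i
    exact hy i
  let S : fatSystem d m p →ₗ[ℂ] (∀ i, JetIdx (ν i) → ℂ) :=
    LinearMap.pi fun i =>
      ((jet (ν i)).comp (trans (p i)).toLinearMap).comp (fatSystem d m p).subtype
  have hRS : LinearMap.range S ≤ LinearMap.ker R := by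
    rintro _ ⟨f, rfl⟩
    rw [LinearMap.mem_ker]
    funext i
    funext z
    exact congrFun (((mem_fatSystem_iff m p f.1).1 f.2).2 i) z
  have hS : LinearMap.ker S = (fatSystem d ν p).comap (fatSystem d m p).subtype := by
    ext f
    rw [LinearMap.mem_ker, Submodule.mem_comap, mem_fatSystem_iff]
    constructor
    · intro h
      exact ⟨fatSystem_le m p f.2, fun i => congrFun h i⟩
    · intro h
      funext i
      exact h.2 i
  have h1 := LinearMap.finrank_range_add_finrank_ker S
  have h2 : Module.finrank ℂ (LinearMap.ker S) = Module.finrank ℂ (fatSystem d ν p) := by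
    rw [hS]
    exact (Submodule.comapSubtypeEquivOfLe hle).finrank_eq
  have h3 := Submodule.finrank_mono hRS
  have h4 := LinearMap.finrank_range_add_finrank_ker R
  have h5 : Module.finrank ℂ (LinearMap.range R) = ∑ i, (m i + 1).choose 2 := by
    rw [LinearMap.range_eq_top.2 hR, finrank_top, Module.finrank_pi_fintype]
    refine Finset.sum_congr rfl fun i _ => ?_
    rw [Module.finrank_fintype_fun_eq_card, card_jetIdx]
  have h6 : Module.finrank ℂ (∀ i, JetIdx (ν i) → ℂ) = ∑ i, (ν i + 1).choose 2 := by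
    rw [Module.finrank_pi_fintype]
    refine Finset.sum_congr rfl fun i _ => ?_
    rw [Module.finrank_fintype_fun_eq_card, card_jetIdx]
  rw [h5, h6] at h4
  rw [h2] at h1
  omega

/-- HZ44. as `vd_le_finrank` (`Cr/Lower.lean`) -/
theorem dim_rel {h : ℕ} (d : ℕ) (m ν : Fin h → ℕ) (hmν : ∀ i, m i ≤ ν i)
    {P : Fin h → Fin 3 → ℂ} (hP : ∀ l, P l 2 ≠ 0) :
    (Module.finrank ℂ (curves d m P) : ℤ) ≤
      (Module.finrank ℂ (curves d ν P) : ℤ) + (vd d m - vd d ν) := by
  set p : Fin h → Fin 2 → ℂ := fun l => ![P l 0 / P l 2, P l 1 / P l 2] with hp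
  have h1 : P = fun l => P l 2 • ![p l 0, p l 1, 1] := by
    funext l i
    have h2 := hP l
    fin_cases i
    · simp [hp]; field_simp
    · simp [hp]; field_simp
    · simp
  have h2 : ∀ μ : Fin h → ℕ, curves d μ P = curves d μ (fun i => ![p i 0, p i 1, 1]) := by
    intro μ
    rw [h1]
    exact curves_smul hP
  rw [h2 m, h2 ν, finrank_curves_affine, finrank_curves_affine]
  have h3 := rel_bound (d := d) m ν hmν p
  unfold vd
  have h4 : (Module.finrank ℂ (fatSystem d m p) : ℤ) + ∑ i, (((m i + 1).choose 2 : ℕ) : ℤ) ≤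
      (Module.finrank ℂ (fatSystem d ν p) : ℤ) + ∑ i, (((ν i + 1).choose 2 : ℕ) : ℤ) := by
    exact_mod_cast h3
  linarith

end Pool.Agent.Lib.MP_6b2d39_agHz
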