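import Pool.Agent.Lib.MP_6b2d39_agHz.Defs
import Pool.Agent.Lib.MP_6b2d39_agHl.ChainR

set_option autoImplicit false

namespace Pool.Agent.Lib.MP_6b2d39_agHz

open Pool.Agent.Lib.MP_6b2d39_agHl Pool.Agent.Lib.MP_ed661f_ag.H

/-- HZ38. `s = ⌈√(n z)⌉₊`, `t = s ^ 2 / n`, `z ≤ t ≤ (√z + 1 / √n) ^ 2`, `chainR` at `t`:
`x ≤ √t (1 + e)`, `e = exp (-(16 t) ^ (1 / 20)) ≤ exp (-z ^ (1 / 20))`, `x ^ 6 ≤ 11 / 10 z ^ 3`;
`f = s / x = √n √t / x`, `√n (1 - e) ≤ f ≤ √n`, `(R - f) (m + 2) 2 R ≤ 2 n e (m + 2) ≤ 1`;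
`2 x ^ 2 ≤ 3 z ≤ √n ≤ s`; `204 x ^ 6 ≤ 225 n ^ (3 / 10) ≤ √n / 500` -/
theorem par_z : ∃ N0 : ℕ, ∀ (n : ℕ) (z : ℝ), N0 ≤ n → (N0 : ℝ) ≤ z → z ≤ (n : ℝ) ^ (1 / 10 : ℝ) →
    ∃ (σ s : ℕ) (x f : ℝ), RchD 1 σ x ∧ 2 * x ^ 2 ≤ s ∧ f = s / x ∧ f ^ 2 ≤ n ∧
      408 * x ^ 6 + 1 ≤ 500 * z ^ 3 ∧
      ∀ m : ℕ, (n : ℝ) ^ 2 * (m + 1) ≤ Real.exp (z ^ (1 / 20 : ℝ)) →
        Fz (√n) m f (102 * x ^ 6) := by
  obtain ⟨T0, hT0⟩ := chainR
  refine ⟨max ⌈T0⌉₊ (5 ^ 20), fun n z _ hz hzn => ?_⟩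
  have hz1 : (5 : ℝ) ^ 20 ≤ z := by
    refine le_trans ?_ hz
    have h : (5 : ℕ) ^ 20 ≤ max ⌈T0⌉₊ (5 ^ 20) := le_max_right _ _
    exact_mod_cast h
  have hzT : T0 ≤ z := by
    refine (Nat.le_ceil T0).trans (le_trans ?_ hz)
    have h : ⌈T0⌉₊ ≤ max ⌈T0⌉₊ (5 ^ 20) := le_max_left _ _
    exact_mod_cast h
  have hz1' : (1000000 : ℝ) ≤ z := le_trans (by norm_num) hz1
  have hz0 : 0 < z := by linarith
  -- the size of `n`
  have hz10 : z ^ 10 ≤ n := by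
    have h1 := pow_le_pow_left₀ hz0.le hzn 10
    have h2 : ((n : ℝ) ^ (1 / 10 : ℝ)) ^ 10 = n := by
      rw [← Real.rpow_natCast, ← Real.rpow_mul (Nat.cast_nonneg _)]
      norm_num
    rwa [h2] at h1
  obtain ⟨R, hR⟩ : ∃ R : ℝ, R = √(n : ℝ) := ⟨_, rfl⟩
  have hRn : R ^ 2 = n := by
    rw [hR]
    exact Real.sq_sqrt (Nat.cast_nonneg _)
  have hR5 : z ^ 5 ≤ R := by
    rw [hR]
    refine Real.le_sqrt_of_sq_le ?_
    calc (z ^ 5) ^ 2 = z ^ 10 := by ring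
      _ ≤ (n : ℝ) := hz10
  have hz2 : (1000000 : ℝ) ≤ z ^ 2 := by nlinarith
  have hz3 : (1000000 : ℝ) ≤ z ^ 3 := by
    have h : z ^ 3 = z * z ^ 2 := by ring
    rw [h]
    nlinarith
  have hz5 : 1000000 * z ^ 3 ≤ R := by
    refine le_trans ?_ hR5
    have h : z ^ 5 = z ^ 2 * z ^ 3 := by ring
    rw [h]
    exact mul_le_mul_of_nonneg_right hz2 (by positivity)
  have hz31 : z ≤ z ^ 3 := by
    have h : z ^ 3 = z ^ 2 * z := by ring
    rw [h]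
    nlinarith
  have hR6 : 1000000 ≤ R := by linarith
  have hR0 : 0 < R := by linarith
  -- the square root of `z`
  obtain ⟨q, hq⟩ : ∃ q : ℝ, q = √z := ⟨_, rfl⟩
  have hq2 : q ^ 2 = z := by
    rw [hq]
    exact Real.sq_sqrt hz0.le
  have hq0 : 0 ≤ q := by
    rw [hq]
    exact Real.sqrt_nonneg _
  have hq1 : 1 ≤ q := by
    by_contra hc
    push Not at hc
    nlinarith
  -- the last step
  obtain ⟨s, hs⟩ : ∃ s : ℕ, s = ⌈R * q⌉₊ := ⟨_, rfl⟩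
  have hs1 : R * q ≤ s := by
    rw [hs]
    exact Nat.le_ceil _
  have hs2 : (s : ℝ) ≤ R * q + 1 := by
    rw [hs]
    exact (Nat.ceil_lt_add_one (by positivity)).le
  have hs0 : (0 : ℝ) < s := lt_of_lt_of_le (by positivity) hs1
  have hsR : R ≤ s := by nlinarith
  obtain ⟨y, hy⟩ : ∃ y : ℝ, y = s / R := ⟨_, rfl⟩
  have hyR : y * R = s := by
    rw [hy]
    exact div_mul_cancel₀ _ hR0.ne'
  have hy0 : 0 < y := by
    rw [hy]
    positivity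
  have hy1 : q ≤ y := by
    rw [hy, le_div_iff₀ hR0]
    linarith
  have hy2 : y ≤ q + 1 / 1000 := by
    rw [hy, div_le_iff₀ hR0]
    nlinarith
  have hzy : z ≤ y ^ 2 := by
    rw [← hq2]
    exact pow_le_pow_left₀ hq0 hy1 2
  obtain ⟨σ, x, hx, hx1, hx2⟩ := hT0 (y ^ 2) (hzT.trans hzy)
  rw [Real.sqrt_sq hy0.le] at hx1 hx2
  have hx0 : 0 < x := lt_of_lt_of_le hy0 hx1
  -- the exponential
  obtain ⟨e, he⟩ : ∃ e : ℝ, e = Real.exp (-((16 * y ^ 2) ^ (1 / 20 : ℝ))) := ⟨_, rfl⟩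
  rw [← he] at hx2
  have he0 : 0 < e := by
    rw [he]
    exact Real.exp_pos _
  obtain ⟨w, hw⟩ : ∃ w : ℝ, w = z ^ (1 / 20 : ℝ) := ⟨_, rfl⟩
  have hw20 : w ^ 20 = z := by
    rw [hw, ← Real.rpow_natCast, ← Real.rpow_mul hz0.le]
    norm_num
  have hw0 : 0 ≤ w := by
    rw [hw]
    positivity
  have hw5 : 5 ≤ w := by
    by_contra hc
    push Not at hc
    have h := pow_lt_pow_left₀ hc hw0 (show (20 : ℕ) ≠ 0 by norm_num)
    rw [hw20] at h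
    linarith
  have he1 : e ≤ Real.exp (-w) := by
    rw [he, hw]
    refine Real.exp_le_exp.2 (neg_le_neg ?_)
    exact Real.rpow_le_rpow hz0.le (by linarith) (by norm_num)
  have he2 : e ≤ 1 / 100 := by
    refine he1.trans ?_
    have h1 : Real.exp (-w) ≤ Real.exp (-5) := Real.exp_le_exp.2 (by linarith)
    have h2 : (100 : ℝ) ≤ Real.exp 5 := by
      have h3 : Real.exp 5 = Real.exp 1 ^ 5 := by
        rw [← Real.exp_nat_mul]
        norm_num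
      have h4 := pow_le_pow_left₀ (by norm_num) (show (2.7 : ℝ) ≤ Real.exp 1 by
        have := Real.exp_one_gt_d9
        linarith) 5
      rw [h3]
      refine le_trans ?_ h4
      norm_num
    have h5 : Real.exp (-5) ≤ 1 / 100 := by
      rw [Real.exp_neg, inv_eq_one_div]
      exact one_div_le_one_div_of_le (by norm_num) h2
    exact h1.trans h5
  -- the size of `x`
  have hx3 : x ≤ 1012 / 1000 * q := by
    have h1 : y * (1 + e) ≤ (q + 1 / 1000) * (1 + 1 / 100) :=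
      mul_le_mul hy2 (by linarith) (by linarith) (by linarith)
    nlinarith
  have hx4 : x ^ 2 ≤ 103 / 100 * z := by
    have h1 := pow_le_pow_left₀ hx0.le hx3 2
    rw [mul_pow, hq2] at h1
    nlinarith
  have hx5 : x ^ 6 ≤ 11 / 10 * z ^ 3 := by
    have h1 := pow_le_pow_left₀ (sq_nonneg x) hx4 3
    have h2 : (x ^ 2) ^ 3 = x ^ 6 := by ring
    rw [h2, mul_pow] at h1
    have h3 : 0 < z ^ 3 := by positivity
    nlinarith
  -- the slope of the last rows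
  have hf1 : (s : ℝ) / x ≤ R := by
    rw [div_le_iff₀ hx0, ← hyR]
    nlinarith
  have hf0 : 0 < (s : ℝ) / x := by positivity
  have hf2 : R - s / x ≤ R * e := by
    have h1 : R * (1 - e) ≤ s / x := by
      rw [le_div_iff₀ hx0, ← hyR]
      have h2 : (1 - e) * x ≤ (1 - e) * (y * (1 + e)) :=
        mul_le_mul_of_nonneg_left hx2 (by linarith)
      have h3 : (1 - e) * (y * (1 + e)) ≤ y := by nlinarith [mul_pos hy0 (mul_pos he0 he0)]
      nlinarith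
    linarith
  refine ⟨σ, s, x, s / x, hx, ?_, rfl, ?_, ?_, fun m hm => ?_⟩
  · linarith
  · rw [← hRn]
    exact pow_le_pow_left₀ hf0.le hf1 2
  · linarith
  · rw [← hR]
    refine ⟨hR6, Nat.cast_nonneg m, hf0, hf1, ?_, by positivity, by linarith⟩
    rw [← hw] at hm
    have hm0 : (0 : ℝ) ≤ m := Nat.cast_nonneg m
    have h1 : e * ((n : ℝ) ^ 2 * (m + 1)) ≤ 1 := by
      calc e * ((n : ℝ) ^ 2 * (m + 1)) ≤ Real.exp (-w) * Real.exp w :=
            mul_le_mul he1 hm (by positivity) (Real.exp_pos _).le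
        _ = 1 := by rw [← Real.exp_add]; simp
    rw [← hRn] at h1
    rw [le_div_iff₀ (by positivity)]
    have h2 : (R - s / x) * (m + 2) * (2 * R) ≤ R * e * (m + 2) * (2 * R) :=
      mul_le_mul_of_nonneg_right (mul_le_mul_of_nonneg_right hf2 (by linarith)) (by linarith)
    refine h2.trans (le_trans ?_ h1)
    have h3 : R * e * (m + 2) * (2 * R) = e * (2 * R ^ 2 * (m + 2)) := by ring
    rw [h3]
    refine mul_le_mul_of_nonneg_left ?_ he0.le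
    have h4 : (4 : ℝ) ≤ R ^ 2 := by nlinarith
    have h5 : 0 ≤ R ^ 2 * (m + 1) := by positivity
    nlinarith [mul_le_mul_of_nonneg_right h4 h5, sq_nonneg R, mul_nonneg (sq_nonneg R) hm0]

end Pool.Agent.Lib.MP_6b2d39_agHz
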