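import Pool.Agent.Lib.MP_6b2d39_agHz.FinB
import Pool.Agent.Lib.MP_6b2d39_agHz.NumZA
import Pool.Agent.Lib.MP_6b2d39_agHz.NumZB
import Pool.Agent.Lib.MP_6b2d39_agHz.NumZC
import Pool.Agent.Lib.MP_6b2d39_agHy.NumA
import Pool.Agent.Lib.MP_6b2d39_agHy.NumC
import Pool.Agent.Lib.MP_6b2d39_agHy.Dem
import Pool.Agent.Lib.MP_6b2d39_agHy.EndPos
import Pool.Agent.Lib.MP_6b2d39_agHl.RowsCmp
import Pool.Agent.Lib.MP_6b2d39_agHl.Last

set_option autoImplicit false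

namespace Pool.Agent.Lib.MP_6b2d39_agHz

open Pool.Agent.Lib.MP_6b2d39_agHl Pool.Agent.Lib.MP_6b2d39_agHy Pool.Agent.Lib.MP_6b2d39_ag
  Pool.Agent.Lib.MP_6b2d39_agCr Pool.Agent.Lib.MP_6b2d39_agNw Pool.Agent.Lib.MP_ed661f_ag.H

private theorem pz_tri (d : ℕ) :
    ∑ b ∈ Finset.range (d + 1), tri (d + 1) b = (d + 2).choose 2 := by
  unfold tri
  induction d with
  | zero => rfl
  | succ d ih =>
    rw [Finset.sum_range_succ']
    have h1 : ∑ b ∈ Finset.range (d + 1), (d + 1 + 1 - (b + 1)) =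
        ∑ b ∈ Finset.range (d + 1), (d + 1 - b) :=
      Finset.sum_congr rfl fun b _ => by omega
    have h2 : (d + 1 + 2).choose 2 = (d + 2) + (d + 2).choose 2 := by
      have h3 := Nat.choose_succ_succ' (d + 2) 1
      rw [Nat.choose_one_right] at h3
      exact h3
    rw [h1, ih, h2, Nat.sub_zero, Nat.add_comm]

/-- HZ36. as `main_pos`, `Hy/MainPos.lean`: `d_lower`, `fin_b`; if `S ≤ W`: `rows_pos`, `emp_last`;
otherwise `d_upper_z`, `size`, `top_z`, `card_top`, `dem_bounds` (`loss_z`), `vd_rows`,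
`w_lower_z`, `end_pos` with `σ = 408 x ^ 6 + 1` -/
theorem pos_z {n σ s d m : ℕ} {x f w : ℝ} {μ : Fin n → ℕ}
    (hμ : ∀ i, μ i = m ∨ μ i = m + 1) (hm : 100 ≤ m) (hR : RchD 1 σ x) (hs : 2 * x ^ 2 ≤ s)
    (hf : f = s / x) (hF : Fz (√n) m f (102 * x ^ 6)) (hfn : f ^ 2 ≤ n)
    (hw : ((m : ℝ) + 2) * (408 * x ^ 6 + 1) ≤ w) (hv : w ≤ ((vd d μ : ℤ) : ℝ)) :
    EmpQ (dgm (tri (d + 1)) (d + 1))
      (Sum.elim μ (fun _ => 1) : Fin n ⊕ Fin (vd d μ).toNat → ℕ) Finset.univ := by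
  obtain ⟨R, hR'⟩ : ∃ R : ℝ, R = √(n : ℝ) := ⟨_, rfl⟩
  rw [← hR'] at hF
  have hR0 := hF.r0
  have hRn : R ^ 2 = (n : ℝ) := by
    rw [hR']
    exact Real.sq_sqrt (Nat.cast_nonneg n)
  have hn : 1 ≤ n := by
    rcases Nat.eq_zero_or_pos n with h | h
    · rw [h] at hR'
      simp only [Nat.cast_zero, Real.sqrt_zero] at hR'
      linarith
    · exact h
  obtain ⟨S, hS⟩ : ∃ S : ℝ, S = ((∑ i, μ i : ℕ) : ℝ) := ⟨_, rfl⟩
  have hM := ms_of hn hμ
  rw [← hR', ← hS] at hM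
  have hd0 : (0 : ℝ) ≤ d := Nat.cast_nonneg d
  have hm' : (100 : ℝ) ≤ m := by exact_mod_cast hm
  have hRp : 0 < R := by linarith
  have hx6 : 0 ≤ x ^ 6 := by positivity
  obtain ⟨B, hB⟩ : ∃ B : ℝ, B = 102 * x ^ 6 := ⟨_, rfl⟩
  have hB4 : 408 * x ^ 6 = 4 * B := by
    rw [hB]
    ring
  rw [← hB] at hF
  rw [hB4] at hw
  have hB0 := hF.b0
  have hw0 : 0 ≤ w := by
    have h1 : 0 ≤ ((m : ℝ) + 2) * (4 * B + 1) := mul_nonneg (by linarith) (by linarith)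
    linarith
  -- the degree
  have e1 := vd_real (d := d) μ
  have hv0 : 0 ≤ ((d : ℝ) + 1) * (d + 2) / 2 - ((∑ i, (μ i + 1).choose 2 : ℕ) : ℝ) := by
    rw [← e1]
    linarith
  have hDl := d_lower hR0 hm' hM hd0 hv0
  have hS0 : 0 ≤ S := by
    rw [hS]
    exact Nat.cast_nonneg _
  have hSR : R * m ≤ S / R := by
    rw [le_div_iff₀ hRp]
    have h1 := hM.s0
    have h2 : R * m * R = R ^ 2 * m := by ring
    linarith
  have hRd : R * m ≤ d := by linarith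
  have hmd : m + 1 ≤ d := by
    have h1 : ((m : ℝ) + 1) ≤ d := by nlinarith
    exact_mod_cast h1
  obtain ⟨r, T, hred, r0, rU, rW, -, t1, t2⟩ := fin_b (d := d) hR hs hf
  rw [← hB] at rU rW
  refine hred.emp ?_
  rcases le_or_gt S (f * (d + 3 / 2) - f ^ 2 / 2 - 2 * B) with hSW | hSW
  · -- the points are contained in the rows
    have hle' := rows_pos hμ hfn (by rw [← hS]; exact hSW) rW
    have hsum := hred.sum
    rw [pz_tri] at hsum
    have hdem := demand_sum (N := d + 1) hμ (by omega)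
    have h5 : ∑ b ∈ Finset.range (d + 1), (r b - ∑ i, (μ i - b)) +
        ∑ b ∈ Finset.range (d + 1), ∑ i, (μ i - b) = ∑ b ∈ Finset.range (d + 1), r b := by
      rw [← Finset.sum_add_distrib]
      exact Finset.sum_congr rfl fun b _ => Nat.sub_add_cancel (hle' b)
    rw [hdem, hsum] at h5
    have h6 : vd d μ = ((d + 2).choose 2 : ℤ) - ((∑ i, (μ i + 1).choose 2 : ℕ) : ℤ) := by
      unfold vd
      push_cast
      rfl
    refine emp_last r (d + 1) μ ?_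
    omega
  · have hDu := d_upper_z hF hS0 hM.s1 hSW
    have hD : |(d : ℝ) + 3 / 2 - (S / R + R / 2)| ≤ R / 8 := by
      rw [abs_le]
      constructor <;> linarith
    obtain ⟨T1, T2⟩ := top_z (T := (T : ℝ)) hF hS0 hM.s1 hD (by linarith) (by linarith)
    rw [hRn, hS] at T1 T2
    obtain ⟨hTm, hcard⟩ := card_top hn hμ T1 T2
    have hloss : ((n : ℝ) - f ^ 2) * m ≤ 1 := by
      rw [← hRn]
      exact loss_z hF
    obtain ⟨b1, b2, b3⟩ := dem_bounds hμ hfn hloss hTm rU rW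
    have hTm' : (T : ℝ) ≤ m + 1 := by
      rcases hTm with h | h
      · rw [h]
        linarith
      · rw [h]
        push_cast
        exact le_rfl
    have hvr := vd_rows hμ hTm hmd hred r0
    have w3 := w_lower_z hF hS0 hM.s1 hD
    obtain ⟨G, hG⟩ : ∃ G : ℝ, G = S - (f * (d + 3 / 2) - f ^ 2 / 2 + 2 * B) - 1 := ⟨_, rfl⟩
    obtain ⟨σ', hσ⟩ : ∃ σ' : ℝ, σ' = 4 * B + 1 := ⟨_, rfl⟩
    have hGσ : G + σ' = S - (f * (d + 3 / 2) - f ^ 2 / 2 - 2 * B) := by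
      rw [hG, hσ]
      ring
    rw [← hS] at b1 b2
    rw [← hG] at b1
    rw [← hGσ] at b2 w3
    refine end_pos (v := ((vd d μ : ℤ) : ℝ)) (G := G) (σ := σ') r0 hvr hcard b1 b2 ?_ ?_ ?_ ?_
    · linarith
    · have h1 : (T : ℝ) * σ' ≤ ((m : ℝ) + 2) * σ' :=
        mul_le_mul_of_nonneg_right (by linarith) (by rw [hσ]; linarith)
      rw [← hσ] at hw
      linarith
    · rw [← hRn]
      linarith
    · have h1 : (vd d μ) ≤ ((vd d μ).toNat : ℤ) := Int.self_le_toNat _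
      exact_mod_cast h1

end Pool.Agent.Lib.MP_6b2d39_agHz
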