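import Pool.Agent.Lib.MP_6b2d39_agHz.MaxZ
import Pool.Agent.Lib.MP_6b2d39_agHl.SmallA
import Pool.Agent.Lib.MP_6b2d39_agHl.ToGen

set_option autoImplicit false

namespace Pool.Agent.Lib.MP_6b2d39_agHz

open Pool.Agent.Lib.MP_6b2d39_agHl Pool.Agent.Lib.MP_6b2d39_ag Pool.Agent.Lib.MP_6b2d39_agCr
  Pool.Agent.Lib.MP_6b2d39_agNw

private theorem smz_sum {n m : ℕ} {μ : Fin n → ℕ} (hm : 1 ≤ m)
    (hμ : ∀ i, μ i = m ∨ μ i = m + 1) : (n : ℝ) ≤ ((∑ i, (μ i + 1).choose 2 : ℕ) : ℝ) := by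
  have h : n ≤ ∑ i, (μ i + 1).choose 2 := by
    have h1 : ∑ _i : Fin n, 1 ≤ ∑ i, (μ i + 1).choose 2 := by
      refine Finset.sum_le_sum fun i _ => ?_
      have h2 : 1 + 1 ≤ μ i + 1 := by rcases hμ i with h | h <;> omega
      exact Nat.choose_le_choose 2 h2
    rw [Finset.sum_const, Finset.card_univ, Fintype.card_fin, smul_eq_mul, mul_one] at h1
    exact h1
  exact_mod_cast h

private theorem smz_cast {n k k' : ℕ} (h : k = k') {P : Finset (ℕ × ℕ)} {μ : Fin n → ℕ}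
    (hE : EmpQ P (Sum.elim μ (fun _ => 1) : Fin n ⊕ Fin k → ℕ) Finset.univ) :
    EmpQ P (Sum.elim μ (fun _ => 1) : Fin n ⊕ Fin k' → ℕ) Finset.univ := by
  subst h
  exact hE

private theorem smz_deg {n d : ℕ} (hn : (1000000 : ℝ) ≤ n)
    (h : 9 / 10 * (n : ℝ) ≤ ((d : ℝ) + 2) * (d + 3) / 2) : 100 ≤ d := by
  by_contra hcon
  have hd : (d : ℝ) ≤ 99 := by
    have : d ≤ 99 := by omega
    exact_mod_cast this
  have h0 : (0 : ℝ) ≤ d := Nat.cast_nonneg d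
  nlinarith

/-- HZ37. `m < 100`, as `small_y`, `Hy/SmallY.lean`: `m = 0`: `emp_one`; `m ≥ 1`: `emp_window` with
`κ = m + 1` in degree `d` if `vd d μ ≥ w` (then `(d + 1) (d + 2) ≥ 2 n`, `d ≥ √n ≥ 100`), in the
degree `d'` of `max_z` if `vd d μ ≤ -w` (`(d' + 2) (d' + 3) / 2 + n / 10 ≥ n`, `d' ≥ 100`) and
`emp_tri_mono` -/
theorem small_z {n : ℕ} (hn : 1000000 ≤ n) {d m : ℕ} {μ : Fin n → ℕ}
    (hμ : ∀ i, μ i = m ∨ μ i = m + 1) (hm : m < 100) {w : ℝ} (hw : 6 * ((m : ℝ) + 1) ^ 2 ≤ w)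
    (hw' : w ≤ n / 10) (hv : w ≤ |((vd d μ : ℤ) : ℝ)|) :
    EmpQ (dgm (tri (d + 1)) (d + 1))
      (Sum.elim μ (fun _ => 1) : Fin n ⊕ Fin (vd d μ).toNat → ℕ) Finset.univ := by
  rcases Nat.eq_zero_or_pos m with hm0 | hm1
  · subst hm0
    exact emp_one fun i => by rcases hμ i with h | h <;> omega
  have hn' : (1000000 : ℝ) ≤ n := by exact_mod_cast hn
  have hμκ : ∀ i, μ i ≤ m + 1 := fun i => by rcases hμ i with h | h <;> omega
  have hS := smz_sum hm1 hμ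
  rcases le_or_gt 0 (vd d μ) with hpos | hneg
  · have hp : (0 : ℝ) ≤ ((vd d μ : ℤ) : ℝ) := by exact_mod_cast hpos
    rw [abs_of_nonneg hp] at hv
    have hd : 100 ≤ d := by
      refine smz_deg hn' ?_
      rw [vd_real] at hp
      have h0 : (0 : ℝ) ≤ d := Nat.cast_nonneg d
      nlinarith
    have h2 : 6 * ((m : ℤ) + 1) ^ 2 ≤ vd d μ := by
      have h3 : ((6 * ((m : ℤ) + 1) ^ 2 : ℤ) : ℝ) ≤ ((vd d μ : ℤ) : ℝ) := by
        push_cast
        linarith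
      exact_mod_cast h3
    refine emp_window (κ := m + 1) (by omega) (by omega) hμκ (Or.inr ?_)
    push_cast
    exact h2
  · have hp : ((vd d μ : ℤ) : ℝ) < 0 := by exact_mod_cast hneg
    rw [abs_of_neg hp] at hv
    obtain ⟨d', hdd, h1, h2⟩ := max_z μ (by linarith : ((vd d μ : ℤ) : ℝ) ≤ -w)
    have hd : 100 ≤ d' := by
      refine smz_deg hn' ?_
      rw [vd_real] at h2
      push_cast at h2 hS
      nlinarith
    have h4 : vd d' μ ≤ -(6 * ((m : ℤ) + 1) ^ 2) := by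
      have h5 : ((vd d' μ : ℤ) : ℝ) ≤ ((-(6 * ((m : ℤ) + 1) ^ 2) : ℤ) : ℝ) := by
        push_cast
        linarith
      exact_mod_cast h5
    have h6 : (0 : ℤ) ≤ ((m : ℤ) + 1) ^ 2 := by positivity
    have hE := emp_window (κ := m + 1) (d := d') (by omega) (by omega) hμκ (Or.inl (by
      push_cast
      linarith))
    refine smz_cast ?_ (emp_tri_mono (by omega : d + 1 ≤ d' + 1) hE)
    have h7 : vd d' μ ≤ 0 := by linarith
    omega

end Pool.Agent.Lib.MP_6b2d39_agHz
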