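import Pool.Agent.Lib.MP_6b2d39_agHz.NegZ
import Pool.Agent.Lib.MP_6b2d39_agHz.PosZ
import Pool.Agent.Lib.MP_6b2d39_agHz.SmallZ
import Pool.Agent.Lib.MP_6b2d39_agHz.ParZ

set_option autoImplicit false

namespace Pool.Agent.Lib.MP_6b2d39_agHz

open Pool.Agent.Lib.MP_6b2d39_agHl Pool.Agent.Lib.MP_6b2d39_ag Pool.Agent.Lib.MP_6b2d39_agCr
  Pool.Agent.Lib.MP_6b2d39_agNw

/-- HZ39. (`par_z`; `w = 1000 z ^ 3 (m + 1)`; `m < 100`: `small_z`; `m ≥ 100`: `pos_z`, or `max_z`,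
`neg_z`, `emp_tri_mono`; `w ≤ 2000 n ^ (3 / 10) m ≤ √n m / 10`) -/
theorem emp_z : ∃ N0 : ℕ, ∀ (n : ℕ) (z : ℝ), N0 ≤ n → (N0 : ℝ) ≤ z → z ≤ (n : ℝ) ^ (1 / 10 : ℝ) →
    ∀ (d m : ℕ) (μ : Fin n → ℕ), (∀ i, μ i = m ∨ μ i = m + 1) →
    (n : ℝ) ^ 2 * (m + 1) ≤ Real.exp (z ^ (1 / 20 : ℝ)) →
    1000 * z ^ 3 * (m + 1) ≤ |((vd d μ : ℤ) : ℝ)| →
    EmpQ (dgm (tri (d + 1)) (d + 1))
      (Sum.elim μ (fun _ => 1) : Fin n ⊕ Fin (vd d μ).toNat → ℕ) Finset.univ := by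
  obtain ⟨N1, h1⟩ := par_z
  refine ⟨max N1 1000000, fun n z hn hz hzn d m μ hμ hnm hv => ?_⟩
  have hn1 : N1 ≤ n := (le_max_left _ _).trans hn
  have hn2 : 1000000 ≤ n := (le_max_right _ _).trans hn
  have hz1 : (N1 : ℝ) ≤ z := by
    refine le_trans ?_ hz
    exact_mod_cast le_max_left N1 1000000
  have hz2 : (1000000 : ℝ) ≤ z := by
    refine le_trans ?_ hz
    exact_mod_cast le_max_right N1 1000000
  obtain ⟨σ, s, x, f, hR, hs, hf, hfn, hx, hF⟩ := h1 n z hn1 hz1 hzn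
  have hz0 : (0 : ℝ) ≤ z := by linarith
  have hm0 : (0 : ℝ) ≤ (m : ℝ) := Nat.cast_nonneg m
  have hn0 : (0 : ℝ) ≤ (n : ℝ) := Nat.cast_nonneg n
  obtain ⟨y, hy⟩ : ∃ y : ℝ, y = (n : ℝ) ^ (1 / 10 : ℝ) := ⟨_, rfl⟩
  have hy10 : y ^ 10 = (n : ℝ) := by
    rw [hy, ← Real.rpow_natCast, ← Real.rpow_mul hn0]
    norm_num
  have hy0 : 0 ≤ y := by
    rw [hy]
    exact Real.rpow_nonneg hn0 _
  have hzy : z ≤ y := by
    rw [hy]
    exact hzn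
  have hy1 : (1000000 : ℝ) ≤ y := hz2.trans hzy
  have hsq : √(n : ℝ) = y ^ 5 := by
    rw [← hy10]
    have : y ^ 10 = (y ^ 5) ^ 2 := by ring
    rw [this]
    exact Real.sqrt_sq (pow_nonneg hy0 5)
  have hz3 : z ^ 3 ≤ y ^ 3 := pow_le_pow_left₀ hz0 hzy 3
  have hz31 : (1 : ℝ) ≤ z ^ 3 := one_le_pow₀ (by linarith)
  have hy3 : 0 ≤ y ^ 3 := pow_nonneg hy0 3
  have hy2 : (1000000 : ℝ) ≤ y ^ 2 := by nlinarith
  rcases lt_or_ge m 100 with hm1 | hm1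
  · have hm2 : ((m : ℝ) + 1) ≤ 100 := by
      have : m + 1 ≤ 100 := hm1
      exact_mod_cast this
    refine small_z hn2 hμ hm1 (w := 1000 * z ^ 3 * (m + 1)) ?_ ?_ hv
    · have e1 : 6 * ((m : ℝ) + 1) ^ 2 = (6 * ((m : ℝ) + 1)) * ((m : ℝ) + 1) := by ring
      rw [e1]
      refine mul_le_mul_of_nonneg_right ?_ (by linarith)
      nlinarith
    · have e2 : 1000 * z ^ 3 * ((m : ℝ) + 1) ≤ 1000 * y ^ 3 * 100 :=
        mul_le_mul (by linarith) hm2 (by linarith) (by positivity)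
      have e3 : y ^ 10 = y ^ 3 * (y ^ 2 * (y ^ 2 * (y ^ 2 * y))) := by ring
      have e4 : (1 : ℝ) ≤ y ^ 2 := by linarith
      have e5 : (1000000 : ℝ) ≤ y ^ 2 * y := by nlinarith
      have e6 : (1000000 : ℝ) ≤ y ^ 2 * (y ^ 2 * y) := by nlinarith
      have e7 : (1000000 : ℝ) ≤ y ^ 2 * (y ^ 2 * (y ^ 2 * y)) := by nlinarith
      have e8 : y ^ 3 * 1000000 ≤ y ^ 10 := by
        rw [e3]
        exact mul_le_mul_of_nonneg_left e7 hy3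
      rw [← hy10]
      linarith
  · have hm2 : (100 : ℝ) ≤ (m : ℝ) := by exact_mod_cast hm1
    have hFm := hF m hnm
    have hw : ((m : ℝ) + 2) * (408 * x ^ 6 + 1) ≤ 1000 * z ^ 3 * ((m : ℝ) + 1) := by
      calc ((m : ℝ) + 2) * (408 * x ^ 6 + 1) ≤ ((m : ℝ) + 2) * (500 * z ^ 3) :=
            mul_le_mul_of_nonneg_left hx (by linarith)
        _ ≤ (2 * ((m : ℝ) + 1)) * (500 * z ^ 3) :=
            mul_le_mul_of_nonneg_right (by linarith) (by linarith)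
        _ = 1000 * z ^ 3 * ((m : ℝ) + 1) := by ring
    rcases le_total ((vd d μ : ℤ) : ℝ) 0 with h0 | h0
    · rw [abs_of_nonpos h0] at hv
      have hv0 : ((vd d μ : ℤ) : ℝ) ≤ -(1000 * z ^ 3 * ((m : ℝ) + 1)) := by
        rw [le_neg]
        exact hv
      obtain ⟨d', hd, hv1, hv2⟩ := max_z μ hv0
      have hw' : 1000 * z ^ 3 * ((m : ℝ) + 1) ≤ √(n : ℝ) * m / 10 := by
        rw [hsq]
        have g1 : 1000 * z ^ 3 * ((m : ℝ) + 1) ≤ 1000 * y ^ 3 * (2 * (m : ℝ)) :=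
          mul_le_mul (by linarith) (by linarith) (by linarith) (by linarith)
        have g2 : y ^ 5 * (m : ℝ) / 10 = y ^ 3 * (m : ℝ) * (y ^ 2 / 10) := by ring
        have g3 : y ^ 3 * (m : ℝ) * 2000 ≤ y ^ 3 * (m : ℝ) * (y ^ 2 / 10) :=
          mul_le_mul_of_nonneg_left (by linarith) (mul_nonneg hy3 hm0)
        rw [g2]
        linarith
      exact emp_tri_mono (Nat.succ_le_succ hd) (neg_z hμ hm1 hR hs hf hFm hfn hw hw' hv1 hv2)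
    · rw [abs_of_nonneg h0] at hv
      exact pos_z hμ hm1 hR hs hf hFm hfn hw hv

/-- THEOREM HZ. (`general_of_emp`) -/
theorem window_z : ∃ N0 : ℕ, ∀ (n : ℕ) (z : ℝ), N0 ≤ n → (N0 : ℝ) ≤ z →
    z ≤ (n : ℝ) ^ (1 / 10 : ℝ) →
    ∀ (d m : ℕ) (μ : Fin n → ℕ), (∀ i, μ i = m ∨ μ i = m + 1) →
    (n : ℝ) ^ 2 * (m + 1) ≤ Real.exp (z ^ (1 / 20 : ℝ)) →
    1000 * z ^ 3 * (m + 1) ≤ |((vd d μ : ℤ) : ℝ)| →
    General (fun P => (Module.finrank ℂ (curves d μ P) : ℤ) = max (vd d μ) 0) := by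
  obtain ⟨N0, h⟩ := emp_z
  exact ⟨N0, fun n z h1 h2 h3 d m μ h4 h5 h6 => general_of_emp (h n z h1 h2 h3 d m μ h4 h5 h6)⟩

end Pool.Agent.Lib.MP_6b2d39_agHz
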