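import Mathlib

set_option autoImplicit false

namespace Pool.Agent.Lib.MP_6b2d39_agHz

/-- HZ51. `a = ⌈√(9 (m + 1))⌉₊`, `D = 2 (m + 2) a`: `D (D + 1) ≤ n m (m + 1)` for `n ≥ 40 m`, `n`
large -/
theorem ah_num : ∃ N0 : ℕ, ∀ n m : ℕ, N0 ≤ n → 40 * m ≤ n → 1 ≤ m → ∃ a : ℕ,
    9 * (m + 1) ≤ a ^ 2 + 1 ∧ 1 ≤ a ∧
      2 * (m + 2) * a * (2 * (m + 2) * a + 1) ≤ n * (m * (m + 1)) := by
  refine ⟨10 ^ 9, fun n m hn h40 hm => ?_⟩
  obtain ⟨k, hk⟩ : ∃ k, k = Nat.sqrt (9 * m + 7) := ⟨_, rfl⟩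
  have hk1 : k * k ≤ 9 * m + 7 := by
    rw [hk]
    exact Nat.sqrt_le _
  have hk2 : 9 * m + 7 < (k + 1) * (k + 1) := by
    rw [hk]
    exact Nat.lt_succ_sqrt _
  refine ⟨k + 1, ?_, by omega, ?_⟩
  · have h1 : (k + 1) ^ 2 = (k + 1) * (k + 1) := sq _
    rw [h1]
    omega
  · have hmm : 1 ≤ m * (m + 1) := Nat.mul_pos hm (by omega)
    by_cases hm2 : m < 200
    · have hk3 : k ≤ 42 := by
        by_contra h
        push Not at h
        have h1 : 43 * 43 ≤ k * k := Nat.mul_le_mul h h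
        omega
      have hD : 2 * (m + 2) * (k + 1) ≤ 2 * 201 * 43 :=
        Nat.mul_le_mul (Nat.mul_le_mul_left 2 (by omega)) (by omega)
      calc 2 * (m + 2) * (k + 1) * (2 * (m + 2) * (k + 1) + 1)
          ≤ 2 * 201 * 43 * (2 * 201 * 43 + 1) := Nat.mul_le_mul hD (by omega)
        _ ≤ 10 ^ 9 := by norm_num
        _ ≤ n := hn
        _ ≤ n * (m * (m + 1)) := Nat.le_mul_of_pos_right n hmm
    · push Not at hm2
      have hk3 : 8 * k ≤ m + 145 := by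
        have h1 : 72 * k ≤ k * k + 1296 := by
          zify
          nlinarith [sq_nonneg ((k : ℤ) - 36)]
        omega
      have h4 : 4 * ((k + 1) * (k + 1)) ≤ 37 * m + 177 := by
        have h1 : 4 * ((k + 1) * (k + 1)) = 4 * (k * k) + 8 * k + 4 := by ring
        rw [h1]
        omega
      have h5 : 2 * (k + 1) ≤ m + 153 := by omega
      have h6 : (m + 2) * (m + 2) * (37 * m + 177) + (m + 2) * (m + 153) ≤
          40 * m * (m * (m + 1)) := by
        obtain ⟨j, rfl⟩ := Nat.exists_eq_add_of_le hm2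
        zify
        have hj : (0 : ℤ) ≤ j := Int.natCast_nonneg j
        have hj2 : (0 : ℤ) ≤ (j : ℤ) * j := mul_nonneg hj hj
        have hj3 : (0 : ℤ) ≤ (j : ℤ) * j * j := mul_nonneg hj2 hj
        nlinarith
      calc 2 * (m + 2) * (k + 1) * (2 * (m + 2) * (k + 1) + 1)
          = (m + 2) * (m + 2) * (4 * ((k + 1) * (k + 1))) + (m + 2) * (2 * (k + 1)) := by ring
        _ ≤ (m + 2) * (m + 2) * (37 * m + 177) + (m + 2) * (m + 153) :=
            Nat.add_le_add (Nat.mul_le_mul_left _ h4) (Nat.mul_le_mul_left _ h5)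
        _ ≤ 40 * m * (m * (m + 1)) := h6
        _ ≤ n * (m * (m + 1)) := Nat.mul_le_mul_right _ h40

end Pool.Agent.Lib.MP_6b2d39_agHz
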