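import Pool.Agent.Lib.MP_6b2d39_agHz.AHNum
import Pool.Agent.Lib.MP_6b2d39_ag.Effective
import Pool.Agent.Lib.MP_6b2d39_agCr.Lower
import Pool.Agent.Lib.MP_6b2d39_agHl.SmallA
import Pool.Agent.Lib.MP_6b2d39_agHl.ToGen
import Pool.Agent.Lib.MP_6b2d39_agHw.SmallM

set_option autoImplicit false

namespace Pool.Agent.Lib.MP_6b2d39_agHz

open Pool.Agent.Lib.MP_6b2d39_ag Pool.Agent.Lib.MP_6b2d39_agCr Pool.Agent.Lib.MP_6b2d39_agHl

/-- HZ52. `effective_AH` with `M = m + 1` in the degrees `d ≥ D - 1`, `D = 2 (m + 2) a`; in the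
degree `D - 1` the virtual dimension is `≤ 0`, so the system is empty, and
`fatSystem d μ p ≤ fatSystem (D - 1) μ p` for `d ≤ D - 1`; `general_nonspecial_of_affine`.
`m = 0`: `emp_one`,
`general_of_emp`. (`complete_small` of `Hw/SmallM.lean`) -/
theorem ah_z : ∃ N0 : ℕ, ∀ n m : ℕ, N0 ≤ n → 40 * m ≤ n → ∀ μ : Fin n → ℕ,
    (∀ i, μ i = m ∨ μ i = m + 1) → ∀ d : ℕ,
      General (fun P => (Module.finrank ℂ (curves d μ P) : ℤ) = max (vd d μ) 0) := by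
  obtain ⟨N0, h⟩ := Pool.Agent.Lib.MP_6b2d39_agHw.complete_small
  exact ⟨N0, fun n m hn hm μ hμ d => h n m hn hm d μ hμ⟩

end Pool.Agent.Lib.MP_6b2d39_agHz
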