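import Pool.Agent.Lib.MP_6b2d39_agHz.SepQ

set_option autoImplicit false

namespace Pool.Agent.Lib.MP_6b2d39_agHz

/-- HZ49. `θ = α q - p`. Classes `m = r + q t`, `r < q`, `t < L = M / q + 1`. A hit `(r, t)` gives
an integer `k` with `|φ + θ t| ≤ 3 δ`, `φ = α r + β - (k - p t)`. The numbers `φ` of different pairs
`(r, k - p t)` differ by at least `1 / (2 q)` (`sep_q`), and they lie in an interval of length
`|θ| L + 6 δ`: at most `2 q (|θ| L + 6 δ) + 1` pairs; each pair has at most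
`6 δ / |θ| + 1 ≤ 12 δ / |θ|` values `t`. Total `24 δ q L + (144 δ q + 12) δ / |θ|`, where
`q L ≤ M + q`, `12 δ q ≤ 1`, `1 / |θ| ≤ c q`. -/
theorem near_b (α β δ c : ℝ) (M q : ℕ) (p : ℤ) (hδ : 0 < δ) (hc : 1 ≤ c) (hq : 1 ≤ q)
    (hqδ : 12 * δ * q ≤ 1) (hp : |α * q - p| ≤ 6 * δ) (hc1 : 1 ≤ c * q * |α * q - p|)
    (h : ∀ t : ℕ, 1 ≤ t → t < q → ∀ p : ℤ, 6 * δ < |α * t - p|) :
    (({m : ℕ | m < M ∧ ∃ k : ℤ, |α * m + β - k| ≤ 3 * δ}.ncard : ℕ) : ℝ) ≤
      24 * δ * M + 4 * c + 4 := by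
  classical
  have hq0 : (1 : ℝ) ≤ q := by exact_mod_cast hq
  have hqp : (0 : ℝ) < q := by linarith
  obtain ⟨θ, hθ⟩ : ∃ θ : ℝ, θ = α * q - p := ⟨_, rfl⟩
  have hp' := hp
  rw [← hθ] at hp hc1
  have hθ0 : θ ≠ 0 := by
    intro h0
    rw [h0, abs_zero, mul_zero] at hc1
    linarith
  have hθp : 0 < |θ| := abs_pos.2 hθ0
  have hset : {m : ℕ | m < M ∧ ∃ k : ℤ, |α * m + β - k| ≤ 3 * δ} =
      (((Finset.range M).filter fun m : ℕ => ∃ k : ℤ, |α * m + β - k| ≤ 3 * δ : Finset ℕ) :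
        Set ℕ) := by
    ext t
    rw [Finset.mem_coe, Finset.mem_filter, Finset.mem_range]
    exact Iff.rfl
  rw [hset, Set.ncard_coe_finset]
  obtain ⟨S, hS⟩ : ∃ S : Finset ℕ, S = (Finset.range M).filter fun m : ℕ =>
    ∃ k : ℤ, |α * m + β - k| ≤ 3 * δ := ⟨_, rfl⟩
  rw [← hS]
  obtain ⟨f, hf⟩ : ∃ f : ℕ → ℤ, ∀ m ∈ S, |α * m + β - f m| ≤ 3 * δ := by
    refine ⟨fun m => if h : ∃ k : ℤ, |α * m + β - k| ≤ 3 * δ then h.choose else 0,
      fun m hm => ?_⟩
    rw [hS, Finset.mem_filter] at hm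
    beta_reduce
    rw [dif_pos hm.2]
    exact hm.2.choose_spec
  obtain ⟨φ, hφ⟩ : ∃ φ : ℕ → ℝ, φ = fun m : ℕ =>
    α * (m % q : ℕ) + β - ((f m - p * (m / q : ℕ) : ℤ) : ℝ) := ⟨_, rfl⟩
  have hφm : ∀ m ∈ S, |φ m + θ * (m / q : ℕ)| ≤ 3 * δ := by
    intro m hm
    have e1 : (m : ℝ) = (m % q : ℕ) + q * (m / q : ℕ) := by
      exact_mod_cast (Nat.mod_add_div m q).symm
    have e2 : φ m + θ * (m / q : ℕ) = α * m + β - f m := by
      rw [hφ, hθ]
      beta_reduce
      rw [Int.cast_sub, Int.cast_mul, Int.cast_natCast]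
      linear_combination -α * e1
    rw [e2]
    exact hf m hm
  have hsep : ∀ m m' : ℕ, |φ m - φ m'| < 1 / (2 * (q : ℝ)) →
      m % q = m' % q ∧ φ m = φ m' := by
    intro m m' hlt
    have hr : m % q < q := Nat.mod_lt _ (by omega)
    have hr' : m' % q < q := Nat.mod_lt _ (by omega)
    have hdiff : ∃ K : ℤ, φ m - φ m' = α * (m % q : ℕ) - α * (m' % q : ℕ) - K := by
      refine ⟨(f m - p * (m / q : ℕ)) - (f m' - p * (m' / q : ℕ)), ?_⟩
      rw [hφ]
      push_cast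
      ring
    obtain ⟨K, hK⟩ := hdiff
    have hrr : m % q = m' % q := by
      by_contra hne
      rcases lt_or_gt_of_ne hne with h1 | h1
      · have h2 := sep_q hδ hq hqδ hp' h (t := m' % q - m % q) (by omega) (by omega) (-K)
        have e : α * ((m' % q - m % q : ℕ) : ℝ) - ((-K : ℤ) : ℝ) = -(φ m - φ m') := by
          rw [hK, Nat.cast_sub h1.le]
          push_cast
          ring
        rw [e, abs_neg] at h2
        linarith
      · have h2 := sep_q hδ hq hqδ hp' h (t := m % q - m' % q) (by omega) (by omega) K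
        have e : α * ((m % q - m' % q : ℕ) : ℝ) - (K : ℝ) = φ m - φ m' := by
          rw [hK, Nat.cast_sub (le_of_lt h1)]
          push_cast
          ring
        rw [e] at h2
        linarith
    refine ⟨hrr, ?_⟩
    rw [hrr, sub_self, zero_sub] at hK
    have h3 : |(K : ℝ)| < 1 := by
      rw [hK, abs_neg] at hlt
      refine hlt.trans_le ?_
      rw [div_le_one (by positivity)]
      linarith
    have h4 : K = 0 := by
      have : |K| < 1 := by exact_mod_cast h3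
      exact Int.abs_lt_one_iff.1 this
    rw [h4, Int.cast_zero, neg_zero] at hK
    linarith
  obtain ⟨a, ha⟩ : ∃ a : ℝ, a = min (-θ * (M / q : ℕ)) 0 - 3 * δ := ⟨_, rfl⟩
  have hran : ∀ m ∈ S, a ≤ φ m ∧ φ m ≤ a + (|θ| * (M / q : ℕ) + 6 * δ) := by
    intro m hm
    have hmM : m < M := by
      rw [hS, Finset.mem_filter, Finset.mem_range] at hm
      exact hm.1
    have ht : ((m / q : ℕ) : ℝ) ≤ (M / q : ℕ) := by
      exact_mod_cast Nat.div_le_div_right hmM.le
    have ht0 : (0 : ℝ) ≤ (m / q : ℕ) := Nat.cast_nonneg _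
    have e1 := abs_le.mp (hφm m hm)
    rw [ha]
    rcases lt_or_gt_of_ne hθ0 with hneg | hpos
    · have e2 : 0 ≤ -θ * (M / q : ℕ) := mul_nonneg (by linarith) (Nat.cast_nonneg _)
      have e3 : 0 ≤ -θ * (m / q : ℕ) := mul_nonneg (by linarith) ht0
      have e4 : -θ * (m / q : ℕ) ≤ -θ * (M / q : ℕ) :=
        mul_le_mul_of_nonneg_left ht (by linarith)
      rw [min_eq_right e2, abs_of_neg hneg]
      exact ⟨by linarith [e1.1], by linarith [e1.2]⟩
    · have e2 : 0 ≤ θ * (M / q : ℕ) := mul_nonneg hpos.le (Nat.cast_nonneg _)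
      have e3 : 0 ≤ θ * (m / q : ℕ) := mul_nonneg hpos.le ht0
      have e4 : θ * (m / q : ℕ) ≤ θ * (M / q : ℕ) :=
        mul_le_mul_of_nonneg_left ht hpos.le
      rw [min_eq_left (by linarith), abs_of_pos hpos]
      exact ⟨by linarith [e1.1], by linarith [e1.2]⟩
  obtain ⟨g, hg⟩ : ∃ g : ℕ → ℤ, g = fun m : ℕ => ⌊2 * q * (φ m - a)⌋ := ⟨_, rfl⟩
  have hfib : ∀ b ∈ S.image g, (S.filter fun m => g m = b).card ≤ ⌊6 * δ / |θ|⌋₊ + 1 := by
    intro b _
    obtain ⟨F, hF⟩ : ∃ F : Finset ℕ, F = S.filter fun m => g m = b := ⟨_, rfl⟩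
    rw [← hF]
    by_cases hne : F.Nonempty
    · obtain ⟨t0, ht0, hmin⟩ : ∃ t0 ∈ F, ∀ t ∈ F, t0 ≤ t :=
        ⟨F.min' hne, F.min'_mem hne, fun t ht => F.min'_le t ht⟩
      have hkey : ∀ m ∈ F, m % q = t0 % q ∧ φ m = φ t0 := by
        intro m hm
        rw [hF, Finset.mem_filter] at hm ht0
        have e0 : ⌊2 * q * (φ m - a)⌋ = ⌊2 * q * (φ t0 - a)⌋ := by
          have h1 := hm.2.trans ht0.2.symm
          rw [hg] at h1
          exact h1
        have e1 := Int.abs_sub_lt_one_of_floor_eq_floor e0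
        refine hsep m t0 ?_
        have e2 : 2 * q * (φ m - a) - 2 * q * (φ t0 - a) = 2 * q * (φ m - φ t0) := by ring
        rw [e2, abs_mul, abs_of_pos (by positivity : (0 : ℝ) < 2 * q)] at e1
        rw [lt_div_iff₀ (by positivity)]
        linarith
      have hinj : Set.InjOn (fun m => m / q) (F : Set ℕ) := by
        intro m hm m' hm' h1
        have h2 := (hkey m hm).1
        have h3 := (hkey m' hm').1
        have h4 := Nat.mod_add_div m q
        have h5 := Nat.mod_add_div m' q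
        simp only at h1
        rw [← h4, ← h5, h2, h3, h1]
      have hsub : F.image (fun m => m / q) ⊆
          Finset.Icc (t0 / q) (t0 / q + ⌊6 * δ / |θ|⌋₊) := by
        intro t ht
        rw [Finset.mem_image] at ht
        obtain ⟨m, hm, rfl⟩ := ht
        rw [Finset.mem_Icc]
        have hle : t0 / q ≤ m / q := Nat.div_le_div_right (hmin m hm)
        refine ⟨hle, ?_⟩
        have h1 := (hkey m hm).2
        have hmS : m ∈ S := by
          rw [hF, Finset.mem_filter] at hm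
          exact hm.1
        have htS : t0 ∈ S := by
          rw [hF, Finset.mem_filter] at ht0
          exact ht0.1
        have e1 := hφm m hmS
        have e2 := hφm t0 htS
        rw [h1] at e1
        have e3 : |θ| * ((m / q - t0 / q : ℕ) : ℝ) ≤ 6 * δ := by
          have e4 : |θ| * ((m / q - t0 / q : ℕ) : ℝ) =
              |(φ t0 + θ * (m / q : ℕ)) - (φ t0 + θ * (t0 / q : ℕ))| := by
            have e5 : (φ t0 + θ * (m / q : ℕ)) - (φ t0 + θ * (t0 / q : ℕ)) =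
                θ * ((m / q - t0 / q : ℕ) : ℝ) := by
              rw [Nat.cast_sub hle]
              ring
            rw [e5, abs_mul, abs_of_nonneg (Nat.cast_nonneg (α := ℝ) (m / q - t0 / q))]
          rw [e4]
          exact (abs_sub _ _).trans (by linarith)
        have e6 : ((m / q - t0 / q : ℕ) : ℝ) ≤ 6 * δ / |θ| := by
          rw [le_div_iff₀ hθp]
          linarith
        have e7 := Nat.le_floor e6
        omega
      have hc2 := Finset.card_le_card hsub
      rw [Finset.card_image_of_injOn hinj, Nat.card_Icc] at hc2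
      omega
    · rw [Finset.not_nonempty_iff_eq_empty.mp hne, Finset.card_empty]
      exact Nat.zero_le _
  have hcard := Finset.card_le_mul_card_image S (⌊6 * δ / |θ|⌋₊ + 1) hfib
  have hlen : 0 ≤ |θ| * (M / q : ℕ) + 6 * δ := by positivity
  have himg : ((S.image g).card : ℝ) ≤ 2 * q * (|θ| * (M / q : ℕ) + 6 * δ) + 1 := by
    have hsub : S.image g ⊆ Finset.Icc 0 ⌊2 * q * (|θ| * (M / q : ℕ) + 6 * δ)⌋ := by
      intro b hb
      rw [Finset.mem_image] at hb
      obtain ⟨m, hm, rfl⟩ := hb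
      obtain ⟨h1, h2⟩ := hran m hm
      rw [Finset.mem_Icc, hg]
      refine ⟨Int.floor_nonneg.2 (mul_nonneg (by positivity) (by linarith)), ?_⟩
      exact Int.floor_le_floor (mul_le_mul_of_nonneg_left (by linarith) (by positivity))
    have hc2 := Finset.card_le_card hsub
    rw [Int.card_Icc] at hc2
    have hc' : ((S.image g).card : ℝ) ≤
        ((⌊2 * q * (|θ| * (M / q : ℕ) + 6 * δ)⌋ + 1 - 0).toNat : ℝ) := by exact_mod_cast hc2
    refine hc'.trans ?_
    have hn : 0 ≤ ⌊2 * q * (|θ| * (M / q : ℕ) + 6 * δ)⌋ := Int.floor_nonneg.2 (by positivity)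
    have e1 : (((⌊2 * q * (|θ| * (M / q : ℕ) + 6 * δ)⌋ + 1 - 0).toNat : ℤ) : ℝ) =
        ((⌊2 * q * (|θ| * (M / q : ℕ) + 6 * δ)⌋ + 1 - 0 : ℤ) : ℝ) := by
      rw [Int.toNat_of_nonneg (by omega)]
    rw [Int.cast_natCast] at e1
    rw [e1]
    push_cast
    have e2 := Int.floor_le (2 * q * (|θ| * (M / q : ℕ) + 6 * δ))
    linarith
  have h6 : 0 ≤ 6 * δ / |θ| := by positivity
  have hn : ((⌊6 * δ / |θ|⌋₊ + 1 : ℕ) : ℝ) ≤ 12 * δ / |θ| := by
    push_cast
    have e1 := Nat.floor_le h6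
    have e2 : 1 ≤ 6 * δ / |θ| := by
      rw [le_div_iff₀ hθp]
      linarith
    have e3 : 12 * δ / |θ| = 6 * δ / |θ| + 6 * δ / |θ| := by ring
    linarith
  have hqL : (q : ℝ) * (M / q : ℕ) ≤ M := by exact_mod_cast Nat.mul_div_le M q
  have h9 : 1 / |θ| ≤ c * q := by
    rw [div_le_iff₀ hθp]
    exact hc1
  have h7 : (S.card : ℝ) ≤
      (12 * δ / |θ|) * (2 * q * (|θ| * (M / q : ℕ) + 6 * δ) + 1) := by
    refine le_trans ?_ (mul_le_mul hn himg (Nat.cast_nonneg _) (by positivity))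
    exact_mod_cast hcard
  have h8 : (12 * δ / |θ|) * (2 * q * (|θ| * (M / q : ℕ) + 6 * δ) + 1) =
      24 * δ * (q * (M / q : ℕ)) + ((12 * δ * q) * (12 * δ) + 12 * δ) * (1 / |θ|) := by
    field_simp
    ring
  rw [h8] at h7
  have h10 : 24 * δ * (q * (M / q : ℕ)) ≤ 24 * δ * M :=
    mul_le_mul_of_nonneg_left hqL (by positivity)
  have h11 : ((12 * δ * q) * (12 * δ) + 12 * δ) * (1 / |θ|) ≤
      (1 * (12 * δ) + 12 * δ) * (c * q) := by
    refine mul_le_mul ?_ h9 (by positivity) (by positivity)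
    exact add_le_add (mul_le_mul_of_nonneg_right hqδ (by positivity)) le_rfl
  have h12 : (1 * (12 * δ) + 12 * δ) * (c * q) = 2 * c * (12 * δ * q) := by ring
  have h13 : 2 * c * (12 * δ * q) ≤ 2 * c * 1 :=
    mul_le_mul_of_nonneg_left hqδ (by linarith)
  linarith

end Pool.Agent.Lib.MP_6b2d39_agHz
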