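import Pool.Agent.Lib.MP_6b2d39_agHz.SpreadQ
import Pool.Agent.Lib.MP_6b2d39_agHz.NearB
import Pool.Agent.Lib.MP_6b2d39_agHyD.Spread

set_option autoImplicit false

namespace Pool.Agent.Lib.MP_6b2d39_agHz

open Pool.Agent.Lib.MP_6b2d39_agHyD

/-- HZ50. let `q` be the smallest number with `|α q - p| ≤ 6 δ` for some `p` (if there is none with
`q δ ≤ 1`: `card_spread`); `12 δ q ≤ 1`: `near_b`; otherwise `spread_q` -/
theorem card_b (α β δ c : ℝ) (M : ℕ) (hδ : 0 < δ) (hc : 1 ≤ c)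
    (hα : ∀ q : ℕ, 1 ≤ q → ∀ p : ℤ, 1 ≤ c * q * |α * q - p|) :
    (({m : ℕ | m < M ∧ ∃ k : ℤ, |α * m + β - k| ≤ 3 * δ}.ncard : ℕ) : ℝ) ≤
      24 * δ * M + 4 * c + 4 := by
  classical
  have hM : (0 : ℝ) ≤ δ * M := by positivity
  by_cases hA : ∀ q : ℕ, 1 ≤ q → q * δ ≤ 1 → ∀ p : ℤ, 6 * δ < |α * q - p|
  · have h1 := card_spread α β δ M hδ hA
    nlinarith
  · push Not at hA
    obtain ⟨q₀, hq₀, hq₀δ, p₀, hp₀⟩ := hA
    have hex : ∃ q : ℕ, 1 ≤ q ∧ ∃ p : ℤ, |α * q - p| ≤ 6 * δ := ⟨q₀, hq₀, p₀, hp₀⟩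
    obtain ⟨hq1, p, hp⟩ := Nat.find_spec hex
    have hmin : ∀ t : ℕ, 1 ≤ t → t < Nat.find hex → ∀ p : ℤ, 6 * δ < |α * t - p| := by
      intro t ht1 ht p'
      by_contra hcon
      exact Nat.find_min hex ht ⟨ht1, p', not_lt.1 hcon⟩
    by_cases h12 : 12 * δ * (Nat.find hex : ℕ) ≤ 1
    · exact near_b α β δ c M (Nat.find hex) p hδ hc hq1 h12 hp (hα _ hq1 p) hmin
    · have h1 := spread_q α β δ M (Nat.find hex) hq1 hmin
      have hqpos : (0 : ℝ) < (Nat.find hex : ℕ) := by exact_mod_cast hq1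
      have h2 : (M : ℝ) / (Nat.find hex : ℕ) ≤ 12 * δ * M := by
        rw [div_le_iff₀ hqpos]
        have h3 : (0 : ℝ) ≤ M := by positivity
        nlinarith [not_le.1 h12]
      nlinarith

end Pool.Agent.Lib.MP_6b2d39_agHz
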