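import Pool.Agent.Lib.MP_6b2d39_agHz.MaxZ

set_option autoImplicit false

namespace Pool.Agent.Lib.MP_6b2d39_agHz

open Pool.Agent.Lib.MP_6b2d39_agHl Pool.Agent.Lib.MP_6b2d39_agCr

/-- HZ53. `(d + 2) ^ 2 / 2 ≥ n m (m + 1) / 2 - (m + 1) L`, `L ≤ √n / 1000`, so
`d ≥ 9 / 10 √n m` -/
theorem deg_dens {n m d : ℕ} {L : ℝ} (hn : 1000000 ≤ n) (hm : 100 ≤ m) (hL : 1000 * L ≤ √(n : ℝ))
    (hL0 : 0 ≤ L)
    (h : |((vd d (fun _ : Fin n => m) : ℤ) : ℝ)| < (m + 1) * L) :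
    ((m : ℝ) + 1) * L ≤ 2 * L / √(n : ℝ) * d := by
  have hn0 : (0 : ℝ) ≤ n := Nat.cast_nonneg n
  have hs0 : (1000 : ℝ) ≤ √(n : ℝ) := by
    rw [show (1000 : ℝ) = √(1000 ^ 2) from (Real.sqrt_sq (by norm_num)).symm]
    refine Real.sqrt_le_sqrt ?_
    have h1 : (1000000 : ℝ) ≤ n := by exact_mod_cast hn
    linarith
  have hs : 0 < √(n : ℝ) := by linarith
  have hsq : √(n : ℝ) * √(n : ℝ) = n := Real.mul_self_sqrt hn0
  have hm' : (100 : ℝ) ≤ m := by exact_mod_cast hm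
  have hd0 : (0 : ℝ) ≤ d := Nat.cast_nonneg d
  rw [vd_real] at h
  have h1 := (abs_lt.1 h).1
  have h2 : (((∑ i : Fin n, ((fun _ : Fin n => m) i + 1).choose 2 : ℕ)) : ℝ) =
      n * (m * (m + 1)) / 2 := by
    rw [Finset.sum_const, Finset.card_univ, Fintype.card_fin, smul_eq_mul, Nat.cast_mul,
      Nat.cast_choose_two]
    push_cast
    ring
  rw [h2] at h1
  have hA : (200 : ℝ) ≤ (m + 1) * √(n : ℝ) := by nlinarith
  have key : ((m : ℝ) + 1) * √(n : ℝ) ≤ 2 * d := by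
    by_contra hc
    push Not at hc
    obtain ⟨A, hAdef⟩ : ∃ A, A = ((m : ℝ) + 1) * √(n : ℝ) := ⟨_, rfl⟩
    rw [← hAdef] at hA hc
    have h3 : ((d : ℝ) + 1) * (d + 2) ≤ (51 / 100 * A) * (51 / 100 * A) := by
      refine mul_le_mul ?_ ?_ (by linarith) (by linarith) <;> linarith
    have h4 : 2 * ((m + 1 : ℝ) * L) ≤ A / 500 := by
      have h5 : ((m : ℝ) + 1) * (1000 * L) ≤ (m + 1) * √(n : ℝ) :=
        mul_le_mul_of_nonneg_left hL (by linarith)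
      rw [← hAdef] at h5
      linarith
    have h6 : A * A = n * ((m + 1) * (m + 1)) := by
      calc A * A = ((m : ℝ) + 1) * (m + 1) * (√(n : ℝ) * √(n : ℝ)) := by
            rw [hAdef]
            ring
        _ = n * ((m + 1) * (m + 1)) := by
            rw [hsq]
            ring
    have h7 : 99 / 100 * (A * A) ≤ n * (m * (m + 1)) := by
      rw [h6]
      have h8 : 99 / 100 * (((m : ℝ) + 1) * (m + 1)) ≤ m * (m + 1) := by nlinarith
      calc 99 / 100 * ((n : ℝ) * ((m + 1) * (m + 1))) =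
          n * (99 / 100 * (((m : ℝ) + 1) * (m + 1))) := by ring
        _ ≤ n * (m * (m + 1)) := mul_le_mul_of_nonneg_left h8 hn0
    nlinarith
  have h9 : 2 * L / √(n : ℝ) * d = L * (2 * d) / √(n : ℝ) := by ring
  rw [h9, le_div_iff₀ hs]
  calc ((m : ℝ) + 1) * L * √(n : ℝ) = L * ((m + 1) * √(n : ℝ)) := by ring
    _ ≤ L * (2 * d) := mul_le_mul_of_nonneg_left key hL0

end Pool.Agent.Lib.MP_6b2d39_agHz
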