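import Pool.Agent.Lib.MP_6b2d39_agHz.OneZ
import Pool.Agent.Lib.MP_6b2d39_agHz.CardB
import Pool.Agent.Lib.MP_6b2d39_agHz.DegDens
import Pool.Agent.Lib.MP_6b2d39_agHz.AHZ
import Pool.Agent.Lib.MP_6b2d39_agHyD.Near
import Pool.Agent.Lib.MP_6b2d39_agHyD.Irr

set_option autoImplicit false

namespace Pool.Agent.Lib.MP_6b2d39_agHz

open Pool.Agent.Lib.MP_6b2d39_agHl Pool.Agent.Lib.MP_6b2d39_ag Pool.Agent.Lib.MP_6b2d39_agCr
  Pool.Agent.Lib.MP_6b2d39_agHyD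

/-- HZ54. DENSITY. `L = log (n M) ^ 61`, `δ = 2 L / √n ≤ 1 / 12`. A bad `m` satisfies `m > n / 40`
(`ah_z`) and has a degree `d` with `|vd| < (m + 1) log (n (m + 1)) ^ 61 ≤ (m + 1) L` (`one_z`), so
`|vd| < δ d` (`deg_dens`), `√n ≤ 4 δ m`, and `near_crit` applies. `card_b` with `c = 3 √n`
(`sqrt_irr`): at most `24 δ M + 12 √n + 8 ≤ 25 δ M` (if there is a bad `m`, then `M > n / 40`),
`50 L ≤ log (n M) ^ 62`. -/
theorem dens_z : ∃ N0 : ℕ, ∀ n M : ℕ, N0 ≤ n → ¬ IsSquare n →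
    (M : ℝ) ≤ Real.exp ((n : ℝ) ^ (1 / 250 : ℝ)) →
    (({m : ℕ | m < M ∧ ∃ d : ℕ, ¬ General (fun P =>
      (Module.finrank ℂ (curves d (fun _ : Fin n => m) P) : ℤ) =
        max (vd d (fun _ : Fin n => m)) 0)}.ncard : ℕ) : ℝ) ≤
      Real.log (n * M) ^ 62 / √(n : ℝ) * M := by
  obtain ⟨N1, h1⟩ := one_z
  obtain ⟨N2, h2⟩ := ah_z
  have ev : ∀ᶠ x : ℝ in Filter.atTop, Real.log x ≤ x ^ (1 / 250 : ℝ) ∧
      1000 * 2 ^ 61 ≤ x ^ (64 / 250 : ℝ) ∧ 50 ≤ Real.log x ∧ 1 ≤ x := by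
    refine Filter.Eventually.and ?_ (Filter.Eventually.and ?_ (Filter.Eventually.and ?_ ?_))
    · have e1 := (isLittleO_log_rpow_atTop (r := 1 / 250) (by norm_num)).bound
        (c := 1) one_pos
      filter_upwards [e1, Filter.eventually_ge_atTop (1 : ℝ)] with x hx hx1
      rw [one_mul, Real.norm_eq_abs, Real.norm_eq_abs,
        abs_of_nonneg (Real.log_nonneg hx1),
        abs_of_nonneg (Real.rpow_nonneg (by linarith) _)] at hx
      exact hx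
    · exact (tendsto_rpow_atTop (y := 64 / 250) (by norm_num)).eventually_ge_atTop _
    · exact Real.tendsto_log_atTop.eventually_ge_atTop _
    · exact Filter.eventually_ge_atTop _
  obtain ⟨x0, hx0⟩ := Filter.eventually_atTop.1 ev
  refine ⟨max N1 (max N2 (max ⌈x0⌉₊ 1000000)), fun n M hn hsq hM => ?_⟩
  have hn1 : N1 ≤ n := (le_max_left _ _).trans hn
  have hn2 : N2 ≤ n := (le_max_left _ _).trans ((le_max_right _ _).trans hn)
  have hn3 : ⌈x0⌉₊ ≤ n :=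
    (le_max_left _ _).trans ((le_max_right _ _).trans ((le_max_right _ _).trans hn))
  have hn4 : 1000000 ≤ n :=
    (le_max_right _ _).trans ((le_max_right _ _).trans ((le_max_right _ _).trans hn))
  have hnx : x0 ≤ (n : ℝ) := (Nat.le_ceil x0).trans (by exact_mod_cast hn3)
  obtain ⟨hl1, hl2, hl3, hn5⟩ := hx0 n hnx
  have hn0 : (0 : ℝ) < n := lt_of_lt_of_le one_pos hn5
  have hnM4 : (1000000 : ℝ) ≤ n := by exact_mod_cast hn4
  obtain ⟨A, hA⟩ : ∃ A : Set ℕ, A = {m : ℕ | m < M ∧ ∃ d : ℕ, ¬ General (fun P =>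
      (Module.finrank ℂ (curves d (fun _ : Fin n => m) P) : ℤ) =
        max (vd d (fun _ : Fin n => m)) 0)} := ⟨_, rfl⟩
  rw [← hA]
  rcases A.eq_empty_or_nonempty with hAe | ⟨m0, hm0⟩
  · rw [hAe, Set.ncard_empty, Nat.cast_zero]
    refine mul_nonneg (div_nonneg ?_ (Real.sqrt_nonneg _)) (Nat.cast_nonneg _)
    refine pow_nonneg ?_ _
    rcases Nat.eq_zero_or_pos M with hM0 | hM0
    · rw [hM0, Nat.cast_zero, mul_zero, Real.log_zero]
    · refine Real.log_nonneg ?_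
      have : (1 : ℝ) ≤ M := by exact_mod_cast hM0
      nlinarith
  -- every bad `m` is large
  have hbig : ∀ m ∈ A, n < 40 * m := by
    intro m hm
    rw [hA] at hm
    obtain ⟨hmM, d, hd⟩ := hm
    by_contra hc
    exact hd (h2 n m hn2 (not_lt.1 hc) (fun _ => m) (fun _ => Or.inl rfl) d)
  have hm0M : m0 < M := by
    rw [hA] at hm0
    exact hm0.1
  have hMn : (n : ℝ) < 40 * M := by
    have e1 := hbig m0 hm0
    have e2 : n < 40 * M := by omega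
    exact_mod_cast e2
  have hM1 : (1 : ℝ) ≤ M := by
    have e1 : 1 ≤ M := by omega
    exact_mod_cast e1
  have hM0 : (0 : ℝ) < M := lt_of_lt_of_le one_pos hM1
  obtain ⟨l, hl⟩ : ∃ l : ℝ, l = Real.log (n * M) := ⟨_, rfl⟩
  have hl50 : 50 ≤ l := by
    rw [hl, Real.log_mul hn0.ne' hM0.ne']
    have := Real.log_nonneg hM1
    linarith
  have hl0 : 0 ≤ l := by linarith
  have hlu : l ≤ 2 * (n : ℝ) ^ (1 / 250 : ℝ) := by
    rw [hl, Real.log_mul hn0.ne' hM0.ne']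
    have e1 : Real.log M ≤ (n : ℝ) ^ (1 / 250 : ℝ) := by
      rw [Real.log_le_iff_le_exp hM0]
      exact hM
    linarith
  obtain ⟨L, hL⟩ : ∃ L : ℝ, L = l ^ 61 := ⟨_, rfl⟩
  have hL1 : 1000 ≤ L := by
    rw [hL]
    calc (1000 : ℝ) ≤ 50 ^ 61 := by norm_num
      _ ≤ l ^ 61 := pow_le_pow_left₀ (by norm_num) hl50 _
  have hL0 : 0 ≤ L := by linarith
  have hLs : 1000 * L ≤ √(n : ℝ) := by
    have e1 : L ≤ 2 ^ 61 * (n : ℝ) ^ (61 / 250 : ℝ) := by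
      rw [hL]
      calc l ^ 61 ≤ (2 * (n : ℝ) ^ (1 / 250 : ℝ)) ^ 61 := pow_le_pow_left₀ hl0 hlu _
        _ = 2 ^ 61 * (n : ℝ) ^ (61 / 250 : ℝ) := by
          rw [mul_pow, ← Real.rpow_natCast ((n : ℝ) ^ (1 / 250 : ℝ)) 61,
            ← Real.rpow_mul hn0.le]
          norm_num
    have e2 : (n : ℝ) ^ (61 / 250 : ℝ) * (n : ℝ) ^ (64 / 250 : ℝ) = √(n : ℝ) := by
      rw [← Real.rpow_add hn0, Real.sqrt_eq_rpow]
      norm_num
    have e3 : 0 ≤ (n : ℝ) ^ (61 / 250 : ℝ) := Real.rpow_nonneg hn0.le _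
    calc 1000 * L ≤ 1000 * (2 ^ 61 * (n : ℝ) ^ (61 / 250 : ℝ)) := by linarith
      _ = (n : ℝ) ^ (61 / 250 : ℝ) * (1000 * 2 ^ 61) := by ring
      _ ≤ (n : ℝ) ^ (61 / 250 : ℝ) * (n : ℝ) ^ (64 / 250 : ℝ) :=
        mul_le_mul_of_nonneg_left hl2 e3
      _ = √(n : ℝ) := e2
  have hs0 : 0 < √(n : ℝ) := Real.sqrt_pos.2 hn0
  have hss : √(n : ℝ) * √(n : ℝ) = n := Real.mul_self_sqrt hn0.le
  obtain ⟨δ, hδ⟩ : ∃ δ : ℝ, δ = 2 * L / √(n : ℝ) := ⟨_, rfl⟩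
  have hδ0 : 0 < δ := by
    rw [hδ]
    exact div_pos (by linarith) hs0
  have hδs : δ * √(n : ℝ) = 2 * L := by
    rw [hδ]
    field_simp
  -- the bad set is near the integers
  obtain ⟨C, hC⟩ : ∃ C : Set ℕ, C = {m : ℕ | m < M ∧ ∃ k : ℤ,
      |√(n : ℝ) * m + (√(n : ℝ) / 2 - 3 / 2) - k| ≤ 3 * δ} := ⟨_, rfl⟩
  have hsub : A ⊆ C := by
    intro m hm
    have hmb := hbig m hm
    rw [hA] at hm
    obtain ⟨hmM, d, hd⟩ := hm
    rw [hC]
    refine ⟨hmM, ?_⟩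
    have hmM' : (m : ℝ) + 1 ≤ M := by exact_mod_cast hmM
    have hm0' : (0 : ℝ) ≤ m := Nat.cast_nonneg m
    have hme : (m : ℝ) ≤ Real.exp ((n : ℝ) ^ (1 / 250 : ℝ)) := by linarith
    have hmb' : (n : ℝ) < 40 * m := by exact_mod_cast hmb
    obtain ⟨d0, hd0⟩ := h1 n m hn1 hme (fun _ => m) (fun _ => Or.inl rfl)
    have hv : |((vd d (fun _ : Fin n => m) : ℤ) : ℝ)| < (m + 1) * L := by
      by_contra hv
      rw [not_lt] at hv
      refine hd (hd0 d (Or.inr (le_trans ?_ hv)))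
      refine mul_le_mul_of_nonneg_left ?_ (by linarith)
      rw [hL, hl]
      refine pow_le_pow_left₀ (Real.log_nonneg (by nlinarith)) ?_ _
      exact Real.log_le_log (by positivity) (mul_le_mul_of_nonneg_left hmM' hn0.le)
    have hdd := deg_dens hn4 (by omega) hLs hL0 hv
    rw [← hδ] at hdd
    refine near_crit n m d δ hδ0 (by omega) ?_ (lt_of_lt_of_le hv hdd)
    -- `√n ≤ 4 δ m`
    have e1 : √(n : ℝ) * √(n : ℝ) ≤ 4 * δ * m * √(n : ℝ) := by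
      rw [hss]
      have : 4 * δ * m * √(n : ℝ) = 8 * L * m := by
        calc 4 * δ * m * √(n : ℝ) = 4 * m * (δ * √(n : ℝ)) := by ring
          _ = 8 * L * m := by rw [hδs]; ring
      rw [this]
      nlinarith
    exact le_of_mul_le_mul_right e1 hs0
  have hCfin : C.Finite := by
    refine (Set.finite_lt_nat M).subset ?_
    intro m hm
    rw [hC] at hm
    exact hm.1
  have hCc : ((C.ncard : ℕ) : ℝ) ≤ 24 * δ * M + 4 * (3 * √(n : ℝ)) + 4 := by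
    rw [hC]
    have e1 : 1 ≤ √(n : ℝ) := Real.one_le_sqrt.2 hn5
    exact card_b √(n : ℝ) (√(n : ℝ) / 2 - 3 / 2) δ (3 * √(n : ℝ)) M hδ0 (by linarith)
      (fun q hq p => sqrt_irr n hsq q hq p)
  have hAc : ((A.ncard : ℕ) : ℝ) ≤ (C.ncard : ℝ) := by
    exact_mod_cast Set.ncard_le_ncard hsub hCfin
  have hδM : 13 * √(n : ℝ) + 4 ≤ δ * M + √(n : ℝ) := by
    have e1 : √(n : ℝ) * (12 * √(n : ℝ) + 4) ≤ √(n : ℝ) * (δ * M) := by
      have e2 : √(n : ℝ) * (δ * M) = 2 * L * M := by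
        calc √(n : ℝ) * (δ * M) = (δ * √(n : ℝ)) * M := by ring
          _ = 2 * L * M := by rw [hδs]
      rw [e2]
      have e3 : √(n : ℝ) ≤ n := by
        have : 1 ≤ √(n : ℝ) := Real.one_le_sqrt.2 hn5
        nlinarith
      have e4 : 2 * 1000 * M ≤ 2 * L * M := by nlinarith
      nlinarith
    have e5 := le_of_mul_le_mul_left e1 hs0
    linarith
  rw [← hl]
  have hfin : 25 * δ * M ≤ l ^ 62 / √(n : ℝ) * M := by
    refine mul_le_mul_of_nonneg_right ?_ hM0.le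
    rw [le_div_iff₀ hs0]
    calc 25 * δ * √(n : ℝ) = 50 * L := by
          rw [mul_assoc, hδs]
          ring
      _ ≤ l * L := mul_le_mul_of_nonneg_right hl50 hL0
      _ = l ^ 62 := by rw [hL]; ring
  linarith

end Pool.Agent.Lib.MP_6b2d39_agHz
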