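import Pool.Agent.Lib.MP_ed661f_ag.H.PDefs

set_option autoImplicit false

namespace Pool.Agent.Lib.MP_6b2d39_agHz

open Pool.Agent.Lib.MP_ed661f_ag.H

/-- HZ19. induction: `x' = σ' / x ≥ x` -/
theorem rch_two {σ : ℕ} {x : ℝ} (h : RchD 1 σ x) : 2 ≤ x := by
  induction h with
  | start a ha =>
    rw [Nat.cast_one, Real.sqrt_one, mul_one]
    exact_mod_cast ha
  | step σ' _ _ hx ih =>
    rw [le_div_iff₀ (by linarith)]
    nlinarith

/-- HZ20. induction: `σ' ≤ (σ' / x) ^ 2` as `x ^ 2 ≤ σ'` -/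
theorem rch_sq {σ : ℕ} {x : ℝ} (h : RchD 1 σ x) : (σ : ℝ) ≤ x ^ 2 := by
  cases h with
  | start a ha =>
    have ha' : (2 : ℝ) ≤ a := by exact_mod_cast ha
    rw [Nat.cast_one, Real.sqrt_one, mul_one, mul_one]
    nlinarith
  | @step σ₀ x₀ σ' h0 hlt hx =>
    have h2 := rch_two h0
    have hx0 : 0 < x₀ ^ 2 := by positivity
    have hs : 0 < (σ : ℝ) := by linarith
    rw [div_pow, le_div_iff₀ hx0]
    nlinarith

end Pool.Agent.Lib.MP_6b2d39_agHz
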