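import Pool.Agent.Lib.MP_6b2d39_agHz.Defs
import Pool.Agent.Lib.MP_6b2d39_agHl.FF
import Pool.Agent.Lib.MP_6b2d39_agHl.Rows
import Pool.Agent.Lib.MP_6b2d39_agHl.RowsB
import Pool.Agent.Lib.MP_6b2d39_agHl.Count

set_option autoImplicit false

namespace Pool.Agent.Lib.MP_6b2d39_agHz

open Pool.Agent.Lib.MP_6b2d39_agHl

/-- HZ18. as `low_step`, `Hl/Low.lean` (private there) -/
theorem rws_step {s n : ℕ} {r : ℕ → ℕ} {x A : ℝ} (hx : 1 ≤ x) (hs : x ^ 2 ≤ s)
    (h : Rws x A n r) : Rws (s / x) A n (stp s n r) := by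
  have hx0 : 0 < x := by linarith
  have hP : 0 < x ^ 2 := by positivity
  refine ⟨fun b hb => stp_zero hb, fun b => ?_, fun b => ?_⟩
  · refine (row_up hP hs h.up b).trans ((ff_le hP hs).trans (le_of_eq ?_))
    rw [mul_max_of_nonneg _ _ (by positivity), mul_zero]
    congr 1
    field_simp
  · refine le_trans (le_of_eq ?_) ((le_ff hP hs).trans (row_lo hP hs h.z h.lo b))
    field_simp
    ring

end Pool.Agent.Lib.MP_6b2d39_agHz
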