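import Pool.Agent.Lib.MP_6b2d39_agHz.Defs

set_option autoImplicit false

namespace Pool.Agent.Lib.MP_6b2d39_agHz

/-- HZ13. With `u = x (N + 1 / 2)`, `p = s b`, `y = c x ^ 2 / s`, all multiplied by `2 x ^ 2`:
`u ^ 2 - max (u - p) 0 ^ 2 - 2 p y ≤ max (u - y) 0 ^ 2` for `p ≥ 0`, `y ≥ 0`
(`p ≤ u`: the left side is `(u - y) ^ 2 - (p - (u - y)) ^ 2 = 2 p (u - y) - p ^ 2`;
`p ≥ u`: it is `u ^ 2 - 2 p y ≤ u ^ 2 - 2 u y`) -/
theorem gg_up {x s N b c : ℝ} (hx : 0 < x) (hs : 0 < s) (hN : 0 ≤ N) (hb : 0 ≤ b) (hc : 0 ≤ c) :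
    (N + 1 / 2) ^ 2 / 2 - gg x N (s * b) - b * c ≤ gg (s / x) N c := by
  have key : ∀ u p y : ℝ, 0 ≤ u → 0 ≤ p → 0 ≤ y →
      u ^ 2 - (max (u - p) 0) ^ 2 - 2 * p * y ≤ (max (u - y) 0) ^ 2 := by
    intro u p y hu hp hy
    rcases le_total p u with h1 | h1
    · rw [max_eq_left (by linarith : (0 : ℝ) ≤ u - p)]
      rcases le_total y u with h2 | h2
      · rw [max_eq_left (by linarith : (0 : ℝ) ≤ u - y)]
        nlinarith [sq_nonneg (u - y - p)]
      · rw [max_eq_right (by linarith : u - y ≤ (0 : ℝ))]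
        nlinarith [mul_nonneg hp (by linarith : (0 : ℝ) ≤ y - u), sq_nonneg p]
    · rw [max_eq_right (by linarith : u - p ≤ (0 : ℝ))]
      rcases le_total y u with h2 | h2
      · rw [max_eq_left (by linarith : (0 : ℝ) ≤ u - y)]
        nlinarith [mul_nonneg hy (by linarith : (0 : ℝ) ≤ p - u), sq_nonneg y]
      · rw [max_eq_right (by linarith : u - y ≤ (0 : ℝ))]
        nlinarith [mul_nonneg (by linarith : (0 : ℝ) ≤ p - u) (by linarith : (0 : ℝ) ≤ y - u),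
          mul_nonneg hu (by linarith : (0 : ℝ) ≤ p - u), mul_nonneg hu (by linarith : (0 : ℝ) ≤ y - u),
          sq_nonneg u]
  have hk := key (x * (N + 1 / 2)) (s * b) (c * x ^ 2 / s) (by positivity) (by positivity)
    (by positivity)
  have hx2 : (0 : ℝ) < 2 * x ^ 2 := by positivity
  have e1 : s / x * (N + 1 / 2) - c = (s / x ^ 2) * (x * (N + 1 / 2) - c * x ^ 2 / s) := by
    field_simp
  have e2 : gg (s / x) N c = (max (x * (N + 1 / 2) - c * x ^ 2 / s) 0) ^ 2 / (2 * x ^ 2) := by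
    unfold gg
    have e3 : max (s / x * (N + 1 / 2) - c) 0 =
        (s / x ^ 2) * max (x * (N + 1 / 2) - c * x ^ 2 / s) 0 := by
      rw [e1, mul_max_of_nonneg _ _ (by positivity : (0 : ℝ) ≤ s / x ^ 2), mul_zero]
    rw [e3]
    generalize max (x * (N + 1 / 2) - c * x ^ 2 / s) 0 = w
    field_simp
  rw [e2]
  unfold gg
  rw [le_div_iff₀ hx2]
  have e4 : ((N + 1 / 2) ^ 2 / 2 - (max (x * (N + 1 / 2) - s * b) 0) ^ 2 / (2 * x ^ 2) - b * c) *
      (2 * x ^ 2) = (x * (N + 1 / 2)) ^ 2 - (max (x * (N + 1 / 2) - s * b) 0) ^ 2 -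
        2 * (s * b) * (c * x ^ 2 / s) := by
    generalize max (x * (N + 1 / 2) - s * b) 0 = w
    field_simp
  rw [e4]
  exact hk

end Pool.Agent.Lib.MP_6b2d39_agHz
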