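import Pool.Agent.Lib.MP_6b2d39_agHz.Defs

set_option autoImplicit false

namespace Pool.Agent.Lib.MP_6b2d39_agHz

/-- HZ14. `u`, `y` as above. If `u ≤ y` the left value is `0`. Otherwise take for `b` the integer
nearest to `(u - y) / s`: `|s b - (u - y)| ≤ s / 2`, and
`u ^ 2 - max (u - p) 0 ^ 2 - 2 p y ≥ (u - y) ^ 2 - (p - (u - y)) ^ 2`. -/
theorem gg_lo {x s N c : ℝ} (hx : 0 < x) (hs : 0 < s) (hN : 0 ≤ N) (hc : 0 ≤ c) :
    gg (s / x) N c = 0 ∨ ∃ b : ℕ,
      gg (s / x) N c - (s / x) ^ 2 / 8 ≤ (N + 1 / 2) ^ 2 / 2 - gg x N (s * b) - b * c := by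
  rcases le_or_gt (s / x * (N + 1 / 2) - c) 0 with hw | hw
  · left
    unfold gg
    rw [max_eq_right hw]
    simp
  · right
    obtain ⟨u, hu⟩ : ∃ u : ℝ, u = x * (N + 1 / 2) := ⟨_, rfl⟩
    obtain ⟨y, hy⟩ : ∃ y : ℝ, y = c * x ^ 2 / s := ⟨_, rfl⟩
    have hx2 : 0 < x ^ 2 := by positivity
    have e1 : s / x * (N + 1 / 2) - c = (u - y) * s / x ^ 2 := by
      rw [hu, hy]
      field_simp
    have hd : 0 < u - y := by
      rw [e1] at hw
      by_contra hcon
      push Not at hcon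
      have h1 : (u - y) * s / x ^ 2 ≤ 0 :=
        div_nonpos_of_nonpos_of_nonneg (mul_nonpos_of_nonpos_of_nonneg hcon hs.le) hx2.le
      linarith
    have hq0 : 0 ≤ (u - y) / s + 1 / 2 := by positivity
    refine ⟨⌊(u - y) / s + 1 / 2⌋₊, ?_⟩
    obtain ⟨b, hb⟩ : ∃ b : ℕ, b = ⌊(u - y) / s + 1 / 2⌋₊ := ⟨_, rfl⟩
    rw [← hb]
    have f1 : (b : ℝ) ≤ (u - y) / s + 1 / 2 := by
      rw [hb]
      exact Nat.floor_le hq0
    have f2 : (u - y) / s + 1 / 2 < b + 1 := by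
      rw [hb]
      exact Nat.lt_floor_add_one _
    obtain ⟨p, hp⟩ : ∃ p : ℝ, p = s * b := ⟨_, rfl⟩
    have es : s * ((u - y) / s) = u - y := by field_simp
    have g1 : p - (u - y) ≤ s / 2 := by
      have := mul_le_mul_of_nonneg_left f1 hs.le
      rw [hp]
      nlinarith
    have g2 : -(s / 2) ≤ p - (u - y) := by
      have := mul_le_mul_of_nonneg_left f2.le hs.le
      rw [hp]
      nlinarith
    have g3 : (p - (u - y)) ^ 2 ≤ s ^ 2 / 4 := by nlinarith
    have k1 : gg (s / x) N c = (u - y) ^ 2 / (2 * x ^ 2) := by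
      unfold gg
      rw [max_eq_left hw.le, e1]
      field_simp
    have k2 : gg x N (s * b) ≤ (u - p) ^ 2 / (2 * x ^ 2) := by
      unfold gg
      rw [← hu, ← hp]
      refine div_le_div_of_nonneg_right ?_ (by positivity)
      rcases le_total (u - p) 0 with h | h
      · rw [max_eq_right h]
        have : 0 ≤ (u - p) ^ 2 := sq_nonneg _
        linarith
      · rw [max_eq_left h]
    have k3 : (N + 1 / 2) ^ 2 / 2 = u ^ 2 / (2 * x ^ 2) := by
      rw [hu]
      field_simp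
    have k4 : (b : ℝ) * c = 2 * p * y / (2 * x ^ 2) := by
      rw [hp, hy]
      field_simp
    have k5 : (s / x) ^ 2 / 8 = s ^ 2 / 4 / (2 * x ^ 2) := by
      field_simp
      ring
    rw [k1, k3, k4, k5]
    have k6 : (u - y) ^ 2 / (2 * x ^ 2) - s ^ 2 / 4 / (2 * x ^ 2) ≤
        u ^ 2 / (2 * x ^ 2) - (u - p) ^ 2 / (2 * x ^ 2) - 2 * p * y / (2 * x ^ 2) := by
      rw [← sub_div, ← sub_div, ← sub_div]
      refine div_le_div_of_nonneg_right ?_ (by positivity)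
      nlinarith
    linarith

end Pool.Agent.Lib.MP_6b2d39_agHz
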