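import Pool.Agent.Lib.MP_6b2d39_agHz.SumLo
import Pool.Agent.Lib.MP_6b2d39_agHz.Leg
import Pool.Agent.Lib.MP_6b2d39_agHz.GG
import Pool.Agent.Lib.MP_6b2d39_agHz.GGLo

set_option autoImplicit false

namespace Pool.Agent.Lib.MP_6b2d39_agHz

open Pool.Agent.Lib.MP_6b2d39_agHl

/-- HZ15. ONE STEP. `r' = stp s n r`. Upper bound: `b` from `phi_attain` (`stp_antitone`),
`b c + Phi' c ≤ CC r' b ≤ CC r n + M - Phi (s b)` and `gg_up`.
Lower bound: if `gg (s / x) N c ≠ 0`, `b` from `gg_lo`, `cc_le_phi` (`stp_zero`), `cc_lo`. -/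
theorem pb_step {x B M N : ℝ} {s n : ℕ} {r : ℕ → ℕ} (hx : 0 < x) (hs : 1 ≤ s) (hB : 0 ≤ B)
    (hM : 0 ≤ M) (hN : 0 ≤ N) (hA : (CC r n : ℝ) = (N + 1 / 2) ^ 2 / 2 - 1 / 8)
    (hP : PB x B N n r)
    (hup : ∀ b : ℕ, (CC (stp s n r) b : ℝ) + Phi n r (s * b) ≤ CC r n + M) :
    PB (s / x) (max (B + M) (B + 1 / 8 + (s / x) ^ 2 / 8)) N n (stp s n r) := by
  intro c
  have hs0 : (0 : ℝ) < s := by exact_mod_cast hs
  have hc0 : (0 : ℝ) ≤ c := Nat.cast_nonneg c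
  have hcast : ∀ b : ℕ, |(Phi n r (s * b) : ℝ) - gg x N (s * b)| ≤ B := by
    intro b
    have h := hP (s * b)
    rw [Nat.cast_mul] at h
    exact h
  rw [abs_le]
  constructor
  · rcases gg_lo hx hs0 hN hc0 with h0 | ⟨b, hb⟩
    · rw [h0, sub_zero]
      have h1 : (0 : ℝ) ≤ (Phi n (stp s n r) c : ℝ) := Nat.cast_nonneg _
      have h2 := le_max_left (B + M) (B + 1 / 8 + ((s : ℝ) / x) ^ 2 / 8)
      linarith
    · have h1 : (CC (stp s n r) b : ℝ) ≤ b * c + Phi n (stp s n r) c := by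
        exact_mod_cast cc_le_phi (N := n) (fun i hi => stp_zero hi) b c
      have h2 : (CC r n : ℝ) ≤ CC (stp s n r) b + Phi n r (s * b) := by
        exact_mod_cast cc_lo hs r b
      have h3 := (abs_le.1 (hcast b)).2
      have h4 := le_max_right (B + M) (B + 1 / 8 + ((s : ℝ) / x) ^ 2 / 8)
      linarith
  · obtain ⟨b, -, hb⟩ := phi_attain (N := n) (stp_antitone s n r) c
    have h1 : (b : ℝ) * c + Phi n (stp s n r) c ≤ CC (stp s n r) b := by exact_mod_cast hb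
    have h2 := hup b
    have h3 := (abs_le.1 (hcast b)).1
    have h4 := gg_up hx hs0 hN (Nat.cast_nonneg b) hc0
    have h5 := le_max_left (B + M) (B + 1 / 8 + ((s : ℝ) / x) ^ 2 / 8)
    linarith

end Pool.Agent.Lib.MP_6b2d39_agHz
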