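import Pool.Agent.Lib.MP_6b2d39_agHz.Defs

set_option autoImplicit false

namespace Pool.Agent.Lib.MP_6b2d39_agHz

open Pool.Agent.Lib.MP_6b2d39_agHl

private theorem sum_tri_aux (n : ℕ) : ∀ K : ℕ, K ≤ n →
    2 * ∑ i ∈ Finset.range n, (K - i) = K * (K + 1) := by
  induction n with
  | zero =>
    intro K hK
    have hK0 : K = 0 := by omega
    subst hK0
    simp
  | succ n ih =>
    intro K hK
    rw [Finset.sum_range_succ']
    cases K with
    | zero => simp
    | succ k =>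
      have h := ih k (by omega)
      have h2 : ∑ i ∈ Finset.range n, (k + 1 - (i + 1)) = ∑ i ∈ Finset.range n, (k - i) :=
        Finset.sum_congr rfl (fun i _ => by omega)
      rw [h2, Nat.sub_zero, Nat.mul_add, h]
      ring

/-- HZ16. `Phi N (tri N) c = (N - c) (N - c + 1) / 2` for `c ≤ N`, `= 0` for `c ≥ N`; the ideal value
is `((N - c) (N - c + 1) + 1 / 4) / 2` for `c ≤ N` and `0` for `c ≥ N + 1` -/
theorem pb_tri (N : ℕ) : PB 1 (1 / 8) N N (tri N) := by
  intro c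
  have hPhi : 2 * Phi N (tri N) c = (N - c) * ((N - c) + 1) := by
    unfold Phi tri
    have h2 : ∑ i ∈ Finset.range N, (N - i - c) = ∑ i ∈ Finset.range N, (N - c - i) :=
      Finset.sum_congr rfl (fun i _ => by omega)
    rw [h2]
    exact sum_tri_aux N (N - c) (Nat.sub_le _ _)
  have hPhiR : 2 * (Phi N (tri N) c : ℝ) = ((N - c : ℕ) : ℝ) * (((N - c : ℕ) : ℝ) + 1) := by
    exact_mod_cast hPhi
  unfold gg
  rcases Nat.lt_or_ge N c with hc | hc
  · have h0 : N - c = 0 := by omega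
    have hcR : (N : ℝ) + 1 ≤ (c : ℝ) := by exact_mod_cast hc
    rw [h0] at hPhiR
    have h1 : (Phi N (tri N) c : ℝ) = 0 := by
      push_cast at hPhiR
      linarith
    have h2 : max (1 * ((N : ℝ) + 1 / 2) - (c : ℝ)) 0 = 0 := by
      rw [max_eq_right]
      linarith
    rw [h1, h2]
    norm_num
  · have hcR : (c : ℝ) ≤ (N : ℝ) := by exact_mod_cast hc
    rw [Nat.cast_sub hc] at hPhiR
    have h2 : max (1 * ((N : ℝ) + 1 / 2) - (c : ℝ)) 0 = (N : ℝ) - c + 1 / 2 := by
      rw [max_eq_left] <;> linarith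
    rw [h2]
    have h3 : (Phi N (tri N) c : ℝ) - ((N : ℝ) - c + 1 / 2) ^ 2 / (2 * 1 ^ 2) = -(1 / 8) := by
      have h4 : (Phi N (tri N) c : ℝ) = ((N : ℝ) - c) * ((N : ℝ) - c + 1) / 2 := by linarith
      rw [h4]
      ring
    rw [h3]
    norm_num

/-- HZ17. -/
theorem cc_tri (N : ℕ) : (CC (tri N) N : ℝ) = ((N : ℝ) + 1 / 2) ^ 2 / 2 - 1 / 8 := by
  have h : 2 * CC (tri N) N = N * (N + 1) := by
    unfold CC tri
    exact sum_tri_aux N N le_rfl
  have hR : 2 * (CC (tri N) N : ℝ) = (N : ℝ) * ((N : ℝ) + 1) := by exact_mod_cast h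
  linarith [hR, sq_nonneg ((N : ℝ) + 1 / 2), (by ring :
    ((N : ℝ) + 1 / 2) ^ 2 = (N : ℝ) * ((N : ℝ) + 1) + 1 / 4)]

theorem rws_tri (N : ℕ) : Rws 1 N N (tri N) := by
  refine ⟨fun b hb => ?_, fun b => ?_, fun b => ?_⟩
  · unfold tri
    omega
  · unfold tri
    rcases Nat.lt_or_ge N b with hb | hb
    · have h0 : N - b = 0 := by omega
      rw [h0, Nat.cast_zero]
      exact le_max_right _ _
    · rw [Nat.cast_sub hb]
      refine le_trans (le_of_eq ?_) (le_max_left _ _)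
      ring
  · unfold tri
    rcases Nat.lt_or_ge N b with hb | hb
    · have h0 : N - b = 0 := by omega
      have hbR : (N : ℝ) + 1 ≤ (b : ℝ) := by exact_mod_cast hb
      rw [h0, Nat.cast_zero]
      linarith
    · rw [Nat.cast_sub hb]
      linarith

end Pool.Agent.Lib.MP_6b2d39_agHz
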