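import Pool.Agent.Lib.MP_6b2d39_agHz.SumUp
import Pool.Agent.Lib.MP_6b2d39_agHz.MissCard
import Pool.Agent.Lib.MP_6b2d39_agHz.StepB
import Pool.Agent.Lib.MP_6b2d39_agHz.TriB
import Pool.Agent.Lib.MP_6b2d39_agHz.RwsStep
import Pool.Agent.Lib.MP_6b2d39_agHz.Rch

set_option autoImplicit false

namespace Pool.Agent.Lib.MP_6b2d39_agHz

open Pool.Agent.Lib.MP_6b2d39_agHl Pool.Agent.Lib.MP_ed661f_ag.H

private theorem chb_num1 {a : ℝ} (ha : 2 ≤ a) :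
    1 / 8 + 1 / 8 + a ^ 2 / 8 ≤ 102 * a * a ^ 4 := by
  have h1 : 1 ≤ a := by linarith
  have h2 : 1 ≤ a ^ 3 := one_le_pow₀ h1
  have h3 : 4 ≤ a ^ 2 := by nlinarith
  have h4 : a ^ 2 ≤ a * a ^ 4 := by
    have : a * a ^ 4 = a ^ 2 * a ^ 3 := by ring
    rw [this]
    nlinarith
  nlinarith

private theorem chb_num2 {σ σ' x y : ℝ} (hσ : 0 ≤ σ) (h1 : σ + 1 ≤ σ') (hx : 2 ≤ x)
    (hxy : x ≤ y) :
    max (102 * σ * x ^ 4 + 101 * x ^ 4) (102 * σ * x ^ 4 + 1 / 8 + y ^ 2 / 8) ≤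
      102 * σ' * y ^ 4 := by
  have hx0 : 0 ≤ x := by linarith
  have hy : 2 ≤ y := hx.trans hxy
  have h4 : x ^ 4 ≤ y ^ 4 := pow_le_pow_left₀ hx0 hxy 4
  have hx4 : 0 ≤ x ^ 4 := by positivity
  have hy4 : 0 ≤ y ^ 4 := by positivity
  have hm : 102 * (σ + 1) * y ^ 4 ≤ 102 * σ' * y ^ 4 :=
    mul_le_mul_of_nonneg_right (by linarith) hy4
  have hσx : σ * x ^ 4 ≤ σ * y ^ 4 := mul_le_mul_of_nonneg_left h4 hσ
  refine max_le ?_ ?_
  · nlinarith
  · have hy2 : 4 ≤ y ^ 2 := by nlinarith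
    have hy3 : y ^ 2 * 4 ≤ y ^ 4 := by nlinarith
    nlinarith

private theorem chb_cc {r : ℕ → ℕ} {N : ℕ} (h : Red N (tri N) r) :
    (CC r N : ℝ) = ((N : ℝ) + 1 / 2) ^ 2 / 2 - 1 / 8 := by
  rw [← cc_tri N]
  unfold CC
  rw [h.sum]

/-- HZ21. THE CHAIN. Start: `tri N`, `x = 1`, `no_miss` and `cc_up` with `E = ∅`, `pb_step` with
`M = 0`, `B = 1 / 8`: error `1 / 8 + 1 / 8 + a ^ 2 / 8 ≤ 102 a a ^ 4`. Step: `miss_card`, `cc_up`,
`pb_step` with `M = 101 x ^ 4`; `102 σ x ^ 4 + 101 x ^ 4` and `102 σ x ^ 4 + 1 / 8 + x' ^ 2 / 8` are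
at most `102 σ' x' ^ 4` as `σ + 1 ≤ σ'`, `2 ≤ x ≤ x'`. (`Red.sum`, `cc_tri` for `CC r N`.) -/
theorem chain_b {σ : ℕ} {x : ℝ} (h : RchD 1 σ x) (N : ℕ) : ∃ r, Red N (tri N) r ∧ Rws x N N r ∧
    PB x (102 * σ * x ^ 4) N N r := by
  induction h with
  | start a ha =>
    have ha' : (2 : ℝ) ≤ (a : ℝ) := by exact_mod_cast ha
    have ha1 : 1 ≤ a := by omega
    have hx : ((a : ℝ) * √((1 : ℕ) : ℝ)) = (a : ℝ) / 1 := by
      rw [Nat.cast_one, Real.sqrt_one, mul_one, div_one]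
    have hσ : ((a * 1 : ℕ) : ℝ) = (a : ℝ) := by rw [mul_one]
    rw [hx, hσ]
    refine ⟨stp a N (tri N), Relation.ReflTransGen.single ⟨a, ha1, rfl⟩, ?_, ?_⟩
    · exact rws_step le_rfl (by rw [one_pow]; linarith) (rws_tri N)
    · have hup : ∀ b : ℕ, (CC (stp a N (tri N)) b : ℝ) + Phi N (tri N) (a * b)
          ≤ CC (tri N) N + (0 : ℝ) := by
        intro b
        have h1 := cc_up ha1 (rws_tri N).z b ∅ (fun i c hm =>
          absurd hm (no_miss le_rfl (by rw [one_pow]; linarith) (rws_tri N)))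
        rw [Finset.card_empty, add_zero] at h1
        rw [add_zero]
        exact_mod_cast h1
      have h2 := pb_step one_pos ha1 (by norm_num : (0 : ℝ) ≤ 1 / 8) le_rfl (Nat.cast_nonneg N)
        (cc_tri N) (pb_tri N) hup
      intro c
      refine (h2 c).trans (max_le ?_ ?_)
      · have h3 := chb_num1 ha'
        rw [div_one]
        have h4 : 0 ≤ (a : ℝ) ^ 2 / 8 := by positivity
        linarith
      · rw [div_one]
        exact chb_num1 ha'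
  | @step σ x σ' h hσ hx ih =>
    obtain ⟨r, hr, hw, hp⟩ := ih
    have hx2 : 2 ≤ x := rch_two h
    have hx0 : 0 < x := by linarith
    have hs1 : 1 ≤ σ' := by omega
    have hσ' : (σ : ℝ) + 1 ≤ (σ' : ℝ) := by exact_mod_cast hσ
    have hxs : x ^ 2 ≤ (σ' : ℝ) := by linarith
    have hxy : x ≤ (σ' : ℝ) / x := by
      rw [le_div_iff₀ hx0]
      nlinarith
    refine ⟨stp σ' N r, hr.trans (Relation.ReflTransGen.single ⟨σ', hs1, rfl⟩), ?_, ?_⟩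
    · exact rws_step (by linarith) hxs hw
    · have hup : ∀ b : ℕ, (CC (stp σ' N r) b : ℝ) + Phi N r (σ' * b)
          ≤ CC r N + 101 * x ^ 4 := by
        intro b
        obtain ⟨E, hE, hEc⟩ := miss_card hx2 hx hw b
        have h1 := cc_up hs1 hw.z b E hE
        have h2 : (CC (stp σ' N r) b : ℝ) + Phi N r (σ' * b) ≤ CC r N + (E.card : ℝ) := by
          exact_mod_cast h1
        linarith
      have hB : (0 : ℝ) ≤ 102 * (σ : ℝ) * x ^ 4 := by positivity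
      have h2 := pb_step hx0 hs1 hB (by positivity : (0 : ℝ) ≤ 101 * x ^ 4) (Nat.cast_nonneg N)
        (chb_cc hr) hp hup
      intro c
      exact (h2 c).trans (chb_num2 (Nat.cast_nonneg σ) hσ' hx2 hxy)

end Pool.Agent.Lib.MP_6b2d39_agHz
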