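import Pool.Agent.Lib.MP_6b2d39_agHz.Defs
import Pool.Agent.Lib.MP_6b2d39_agHl.Count

set_option autoImplicit false

namespace Pool.Agent.Lib.MP_6b2d39_agHz

open Pool.Agent.Lib.MP_6b2d39_agHl

/-- HZ1. double counting: `stp b' = ∑ c, [b' < kk c]`, and `#{b' < b : b' < k} = min k b` -/
theorem cc_stp (s N : ℕ) (r : ℕ → ℕ) (b : ℕ) :
    CC (stp s N r) b =
      ∑ c ∈ Finset.range (s * N + ∑ i ∈ Finset.range N, r i), min (kk s N r c) b := by
  have h1 : ∀ k, stp s N r k =
      ∑ c ∈ Finset.range (s * N + ∑ i ∈ Finset.range N, r i), if k < kk s N r c then 1 else 0 := by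
    intro k
    unfold stp
    rw [Finset.card_filter]
  unfold CC
  rw [Finset.sum_congr rfl fun k _ => h1 k, Finset.sum_comm]
  refine Finset.sum_congr rfl fun c _ => ?_
  rw [← Finset.card_filter]
  have h4 : (Finset.range b).filter (fun k => k < kk s N r c) =
      Finset.range (min (kk s N r c) b) := by
    ext k
    rw [Finset.mem_filter, Finset.mem_range, Finset.mem_range]
    omega
  rw [h4, Finset.card_range]

/-- HZ2. `r i = min (r i) c + (r i - c)` -/
theorem cc_phi (N : ℕ) (r : ℕ → ℕ) (c : ℕ) :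
    (∑ i ∈ Finset.range N, min (r i) c) + Phi N r c = CC r N := by
  unfold Phi CC
  rw [← Finset.sum_add_distrib]
  refine Finset.sum_congr rfl fun i _ => ?_
  omega

/-- HZ3. number of the pairs (row `i`, column `c`) with `s i ≤ c < s i + min (r i) t`, counted by
columns and by rows (as in `stp_sum`, `Hl/Count.lean`) -/
theorem sum_cols (s N t : ℕ) (r : ℕ → ℕ) :
    ∑ c ∈ Finset.range (s * N + ∑ i ∈ Finset.range N, r i),
      ((Finset.range N).filter fun i => s * i ≤ c ∧ c < s * i + min (r i) t).card =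
    ∑ i ∈ Finset.range N, min (r i) t := by
  obtain ⟨M, hM⟩ : ∃ M, M = s * N + ∑ i ∈ Finset.range N, r i := ⟨_, rfl⟩
  rw [← hM]
  have h2 : ∀ c, ((Finset.range N).filter fun i => s * i ≤ c ∧ c < s * i + min (r i) t).card =
      ∑ i ∈ Finset.range N, if s * i ≤ c ∧ c < s * i + min (r i) t then 1 else 0 := by
    intro c
    rw [Finset.card_filter]
  rw [Finset.sum_congr rfl fun c _ => h2 c, Finset.sum_comm]
  refine Finset.sum_congr rfl fun i hi => ?_
  rw [Finset.mem_range] at hi
  rw [← Finset.card_filter]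
  have h5 : s * i ≤ s * N := Nat.mul_le_mul_left s hi.le
  have h6 : r i ≤ ∑ i ∈ Finset.range N, r i :=
    Finset.single_le_sum (f := r) (fun _ _ => Nat.zero_le _) (Finset.mem_range.2 hi)
  have h7 : (Finset.range M).filter (fun c => s * i ≤ c ∧ c < s * i + min (r i) t) =
      Finset.Ico (s * i) (s * i + min (r i) t) := by
    ext c
    rw [Finset.mem_filter, Finset.mem_range, Finset.mem_Ico]
    omega
  rw [h7, Nat.card_Ico]
  omega

end Pool.Agent.Lib.MP_6b2d39_agHz
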