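import Pool.Agent.Lib.MP_6b2d39_agCr.Defs

set_option autoImplicit false

namespace Pool.Agent.Lib.MP_6b2d39_agHz

open Pool.Agent.Lib.MP_6b2d39_agCr

/-- HZ45. raise `K` multiplicities by one, first the ones equal to `m`; each time `vd` decreases by
`m + 1` or `m + 2` -/
theorem raise {n m d K : ℕ} {μ : Fin n → ℕ} (hμ : ∀ i, μ i = m ∨ μ i = m + 1) (hK : K ≤ n) :
    ∃ (m' : ℕ) (ν : Fin n → ℕ), (m' = m ∨ m' = m + 1) ∧ (∀ i, ν i = m' ∨ ν i = m' + 1) ∧
      (∀ i, μ i ≤ ν i) ∧ (K : ℤ) * (m + 1) ≤ vd d μ - vd d ν ∧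
      vd d μ - vd d ν ≤ (K : ℤ) * (m + 2) := by
  classical
  obtain ⟨B, hBc, hB⟩ : ∃ B : Finset (Fin n), B.card = K ∧
      (B ⊆ Finset.univ.filter (fun i => μ i = m) ∨
        Finset.univ.filter (fun i => μ i = m) ⊆ B) := by
    rcases le_total K (Finset.univ.filter (fun i => μ i = m)).card with h | h
    · obtain ⟨B, hB, hc⟩ := Finset.exists_subset_card_eq h
      exact ⟨B, hc, Or.inl hB⟩
    · obtain ⟨B, hB, -, hc⟩ := Finset.exists_subsuperset_card_eq
        (Finset.subset_univ (Finset.univ.filter (fun i => μ i = m))) h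
        (by rw [Finset.card_univ, Fintype.card_fin]; exact hK)
      exact ⟨B, hc, Or.inr hB⟩
  have hdiff : vd d μ - vd d (fun i => μ i + if i ∈ B then 1 else 0) =
      ∑ i ∈ B, ((μ i : ℤ) + 1) := by
    have h1 : ∀ i, (((μ i + if i ∈ B then 1 else 0) + 1).choose 2 : ℤ) =
        ((μ i + 1).choose 2 : ℤ) + if i ∈ B then ((μ i : ℤ) + 1) else 0 := by
      intro i
      by_cases hi : i ∈ B
      · rw [if_pos hi, if_pos hi, Nat.choose_succ_succ' (μ i + 1) 1, Nat.choose_one_right]
        push_cast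
        ring
      · rw [if_neg hi, if_neg hi, add_zero, add_zero]
    simp only [vd]
    rw [Finset.sum_congr rfl fun i _ => h1 i, Finset.sum_add_distrib, Finset.sum_ite_mem,
      Finset.univ_inter]
    ring
  refine ⟨if B ⊆ Finset.univ.filter (fun i => μ i = m) then m else m + 1,
    fun i => μ i + if i ∈ B then 1 else 0, ?_, ?_, ?_, ?_, ?_⟩
  · split_ifs
    · exact Or.inl rfl
    · exact Or.inr rfl
  · intro i
    by_cases h : B ⊆ Finset.univ.filter (fun i => μ i = m)
    · rw [if_pos h]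
      by_cases hi : i ∈ B
      · have h2 := (Finset.mem_filter.1 (h hi)).2
        simp only [if_pos hi]
        omega
      · simp only [if_neg hi]
        exact hμ i
    · rw [if_neg h]
      have h3 := hB.resolve_left h
      by_cases hi : i ∈ B
      · simp only [if_pos hi]
        rcases hμ i with h4 | h4 <;> omega
      · have h5 : μ i ≠ m := fun h5 => hi (h3 (Finset.mem_filter.2 ⟨Finset.mem_univ _, h5⟩))
        simp only [if_neg hi]
        rcases hμ i with h4 | h4 <;> omega
  · intro i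
    exact Nat.le_add_right _ _
  · rw [hdiff, ← hBc, ← nsmul_eq_mul]
    refine Finset.card_nsmul_le_sum _ _ _ fun i _ => ?_
    rcases hμ i with h4 | h4 <;> rw [h4] <;> push_cast <;> omega
  · rw [hdiff, ← hBc, ← nsmul_eq_mul]
    refine Finset.sum_le_card_nsmul _ _ _ fun i _ => ?_
    rcases hμ i with h4 | h4 <;> rw [h4] <;> push_cast <;> omega

end Pool.Agent.Lib.MP_6b2d39_agHz
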