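import Pool.Agent.Lib.MP_6b2d39_agHz.OneZ
import Pool.Agent.Lib.MP_6b2d39_agHz.RelB
import Pool.Agent.Lib.MP_6b2d39_agHz.Raise

set_option autoImplicit false

namespace Pool.Agent.Lib.MP_6b2d39_agHz

open Pool.Agent.Lib.MP_6b2d39_agHl Pool.Agent.Lib.MP_6b2d39_ag Pool.Agent.Lib.MP_6b2d39_agCr

private theorem dmz_up {m : ℕ} {v w z Λ K : ℝ} (hm : 1 ≤ m) (hz : 1 ≤ z)
    (hw : w = 1000 * z ^ 3 * ((m : ℝ) + 2)) (hΛ : 10000 * z ^ 3 ≤ Λ)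
    (hv : v < w) (hK : K ≤ (v + w) / ((m : ℝ) + 1) + 1) :
    K ≤ 3 / 10 * Λ + 1 ∧ K * ((m : ℝ) + 2) ≤ v + 2 * ((m : ℝ) + 1) * Λ := by
  have hm' : (1 : ℝ) ≤ m := by exact_mod_cast hm
  have hm1 : (0 : ℝ) < (m : ℝ) + 1 := by linarith
  have hz3 : 1 ≤ z ^ 3 := one_le_pow₀ hz
  have h1 : (v + w) / ((m : ℝ) + 1) ≤ 3 / 10 * Λ := by
    rw [div_le_iff₀ hm1]
    have h2 : w ≤ Λ / 10 * ((m : ℝ) + 2) := by
      rw [hw]
      exact mul_le_mul_of_nonneg_right (by linarith) (by linarith)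
    have h3 : Λ / 10 * ((m : ℝ) + 2) ≤ Λ / 10 * (3 / 2 * ((m : ℝ) + 1)) :=
      mul_le_mul_of_nonneg_left (by linarith) (by linarith)
    linarith
  have h2 : K ≤ 3 / 10 * Λ + 1 := by linarith
  refine ⟨h2, ?_⟩
  have h3 : K * ((m : ℝ) + 1) ≤ v + w + ((m : ℝ) + 1) := by
    have h4 := mul_le_mul_of_nonneg_right hK hm1.le
    rwa [add_mul, div_mul_cancel₀ _ hm1.ne', one_mul] at h4
  have h4 : w ≤ Λ / 10 * (3 / 2 * ((m : ℝ) + 1)) := by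
    rw [hw]
    exact mul_le_mul (by linarith) (by linarith) (by linarith) (by linarith)
  have h5 : K * ((m : ℝ) + 2) = K * ((m : ℝ) + 1) + K := by ring
  have h6 : Λ ≤ Λ * ((m : ℝ) + 1) / 2 := by
    have : Λ * 2 ≤ Λ * ((m : ℝ) + 1) := mul_le_mul_of_nonneg_left (by linarith) (by linarith)
    linarith
  have h7 : (m : ℝ) + 1 ≤ Λ * ((m : ℝ) + 1) / 10000 := by
    have : 10000 * ((m : ℝ) + 1) ≤ Λ * ((m : ℝ) + 1) :=
      mul_le_mul_of_nonneg_right (by linarith) hm1.le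
    linarith
  rw [h5]
  linarith

/-- HZ46. THE OPEN DEGREE. `Λ = log (n (m + 1))`. If `(m + 1) Λ ^ 61 ≤ |vd d μ|` (or `m = 0`):
`window_z` (`emp_one`). Otherwise let `z` be as in `par_log`, `w = 1000 z ^ 3 (m + 2)`,
`K = ⌈(vd d μ + w) / (m + 1)⌉₊ ≤ n`, `ν` from `raise`: `vd d ν ≤ -w`, so `window_z` for `ν`
(`n ^ 2 (m + 2) ≤ n ^ 2 (m + 1) ^ 2`), and `dim_rel`: `finrank ≤ K (m + 2)`, where
`K (m + 1) ≤ max (vd) 0 + w + (m + 1)`. (`General.and`, `General.mono`, `general_coord_ne`,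
`vd_le_finrank`.) -/
theorem dim_z : ∃ N0 : ℕ, ∀ n m : ℕ, N0 ≤ n → (m : ℝ) ≤ Real.exp ((n : ℝ) ^ (1 / 250 : ℝ)) →
    ∀ μ : Fin n → ℕ, (∀ i, μ i = m ∨ μ i = m + 1) → ∀ d : ℕ,
      General (fun P => max (vd d μ) 0 ≤ (Module.finrank ℂ (curves d μ P) : ℤ) ∧
        (Module.finrank ℂ (curves d μ P) : ℝ) ≤
          max ((vd d μ : ℤ) : ℝ) 0 + 2 * (m + 1) * Real.log (n * (m + 1)) ^ 61) := by
  obtain ⟨N1, h1⟩ := window_z
  obtain ⟨N2, h2⟩ := par_log ((N1 : ℝ) + 1)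
  refine ⟨max N1 (max N2 2), fun n m hn hm μ hμ d => ?_⟩
  have hn1 : N1 ≤ n := (le_max_left _ _).trans hn
  have hn2 : N2 ≤ n := ((le_max_left _ _).trans (le_max_right _ _)).trans hn
  have hn3 : 2 ≤ n := ((le_max_right _ _).trans (le_max_right _ _)).trans hn
  obtain ⟨z, hz0, hz1, hz2, hz3, hz4⟩ := h2 n m hn2 hm
  have hzN : (N1 : ℝ) ≤ z := by linarith
  have hzone : 1 ≤ z := by linarith [(Nat.cast_nonneg N1 : (0 : ℝ) ≤ N1)]
  have hz3' : 1 ≤ z ^ 3 := one_le_pow₀ hzone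
  set Λ : ℝ := Real.log (n * (m + 1)) ^ 61 with hΛ
  have hΛ0 : 0 ≤ Λ := by linarith
  -- the exact case
  have hex : General (fun P => (Module.finrank ℂ (curves d μ P) : ℤ) = max (vd d μ) 0) →
      General (fun P => max (vd d μ) 0 ≤ (Module.finrank ℂ (curves d μ P) : ℤ) ∧
        (Module.finrank ℂ (curves d μ P) : ℝ) ≤ max ((vd d μ : ℤ) : ℝ) 0 + 2 * (m + 1) * Λ) := by
    intro h
    refine h.mono fun P hP => ⟨hP.ge, ?_⟩
    have h3 : (Module.finrank ℂ (curves d μ P) : ℝ) = max ((vd d μ : ℤ) : ℝ) 0 := by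
      have h4 : ((Module.finrank ℂ (curves d μ P) : ℤ) : ℝ) = ((max (vd d μ) 0 : ℤ) : ℝ) := by
        rw [hP]
      rwa [Int.cast_natCast, Int.cast_max, Int.cast_zero] at h4
    rw [h3]
    have h5 : 0 ≤ 2 * ((m : ℝ) + 1) * Λ := by positivity
    linarith
  rcases Nat.eq_zero_or_pos m with hm0 | hm0
  · refine hex (general_of_emp (emp_one fun i => ?_))
    rcases hμ i with h | h <;> omega
  have hm1 : (1 : ℝ) ≤ m := by exact_mod_cast hm0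
  set w : ℝ := 1000 * z ^ 3 * ((m : ℝ) + 2) with hw
  have hw0 : 0 < w := by positivity
  have hexp : (n : ℝ) ^ 2 * ((m : ℝ) + 2) ≤ Real.exp (z ^ (1 / 20 : ℝ)) := by
    refine le_trans (mul_le_mul_of_nonneg_left ?_ (sq_nonneg _)) hz2
    nlinarith
  by_cases hv : w ≤ |((vd d μ : ℤ) : ℝ)|
  · refine hex (h1 n z hn1 hzN hz1 d m μ hμ ?_ ?_)
    · refine le_trans (mul_le_mul_of_nonneg_left ?_ (sq_nonneg _)) hexp
      linarith
    · refine le_trans (mul_le_mul_of_nonneg_left ?_ (by positivity)) hv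
      linarith
  rw [not_le, abs_lt] at hv
  obtain ⟨hv1, hv2⟩ := hv
  have hpos : 0 ≤ (((vd d μ : ℤ) : ℝ) + w) / ((m : ℝ) + 1) :=
    div_nonneg (by linarith) (by linarith)
  set K : ℕ := ⌈(((vd d μ : ℤ) : ℝ) + w) / ((m : ℝ) + 1)⌉₊ with hK
  have hKup : (K : ℝ) ≤ (((vd d μ : ℤ) : ℝ) + w) / ((m : ℝ) + 1) + 1 :=
    (Nat.ceil_lt_add_one hpos).le
  have hKlo : (((vd d μ : ℤ) : ℝ) + w) ≤ (K : ℝ) * ((m : ℝ) + 1) := by
    have h3 := Nat.le_ceil ((((vd d μ : ℤ) : ℝ) + w) / ((m : ℝ) + 1))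
    rwa [← hK, div_le_iff₀ (by linarith)] at h3
  obtain ⟨hK1, hK2⟩ := dmz_up hm0 hzone hw hz3 hv2 hKup
  have hKn : K ≤ n := by
    have h3 : (2 : ℝ) ≤ n := by exact_mod_cast hn3
    have h4 : √(n : ℝ) ≤ n := by
      rw [Real.sqrt_le_left (by linarith)]
      nlinarith
    have h5 : (K : ℝ) ≤ n := by linarith
    exact_mod_cast h5
  obtain ⟨m', ν, hm', hν, hle, hlo, hup⟩ := raise (d := d) hμ hKn
  have hlo' : (K : ℝ) * ((m : ℝ) + 1) ≤ ((vd d μ : ℤ) : ℝ) - ((vd d ν : ℤ) : ℝ) := by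
    exact_mod_cast hlo
  have hup' : ((vd d μ : ℤ) : ℝ) - ((vd d ν : ℤ) : ℝ) ≤ (K : ℝ) * ((m : ℝ) + 2) := by
    exact_mod_cast hup
  have hνw : ((vd d ν : ℤ) : ℝ) ≤ -w := by linarith
  have hm'le : (m' : ℝ) + 1 ≤ (m : ℝ) + 2 := by
    rcases hm' with h | h
    · rw [h]
      linarith
    · rw [h]
      push_cast
      linarith
  have hgen := h1 n z hn1 hzN hz1 d m' ν hν
    (le_trans (mul_le_mul_of_nonneg_left hm'le (sq_nonneg _)) hexp) (by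
      rw [abs_of_neg (by linarith)]
      refine le_trans (mul_le_mul_of_nonneg_left hm'le (by positivity)) ?_
      linarith)
  have hν0 : vd d ν ≤ 0 := by
    have h3 : ((vd d ν : ℤ) : ℝ) ≤ ((0 : ℤ) : ℝ) := by
      rw [Int.cast_zero]
      linarith
    exact_mod_cast h3
  refine (hgen.and (general_coord_ne 2)).mono ?_
  rintro P ⟨hP, hP2⟩
  refine ⟨max_le (vd_le_finrank d μ hP2) (Int.natCast_nonneg _), ?_⟩
  rw [max_eq_right hν0] at hP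
  have h3 := dim_rel d μ ν hle hP2
  rw [hP, zero_add] at h3
  have h4 : (Module.finrank ℂ (curves d μ P) : ℝ) ≤
      ((vd d μ : ℤ) : ℝ) - ((vd d ν : ℤ) : ℝ) := by
    exact_mod_cast h3
  have h5 : ((vd d μ : ℤ) : ℝ) ≤ max ((vd d μ : ℤ) : ℝ) 0 := le_max_left _ _
  linarith

end Pool.Agent.Lib.MP_6b2d39_agHz
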