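import Pool.Agent.Lib.MP_6b2d39_agHz.SumLo
import Pool.Agent.Lib.MP_6b2d39_agHz.SumUp
import Pool.Agent.Lib.MP_6b2d39_agHz.MissBd

set_option autoImplicit false

namespace Pool.Agent.Lib.MP_6b2d39_agHz

open Pool.Agent.Lib.MP_6b2d39_agHl

private theorem last_s {x : ℝ} {s : ℕ} (hx : 1 ≤ x) (hs : 2 * x ^ 2 ≤ s) : 1 ≤ s := by
  have h1 : (1 : ℝ) ≤ x ^ 2 := one_le_pow₀ hx
  have h2 : (1 : ℝ) ≤ s := by linarith
  exact_mod_cast h2

private theorem last_f {x f : ℝ} {s : ℕ} (hx : 1 ≤ x) (hs : 2 * x ^ 2 ≤ s) (hf : f = s / x) :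
    2 ≤ f := by
  rw [hf, le_div_iff₀ (by linarith)]
  have h1 : x ≤ x ^ 2 := by nlinarith
  linarith

private theorem last_gg {x N f : ℝ} {s : ℕ} (hx : 1 ≤ x) (hf : f = s / x) (b : ℕ) :
    gg x N ((s * b : ℕ) : ℝ) = (max (N + 1 / 2 - f * b) 0) ^ 2 / 2 := by
  have hx0 : 0 < x := by linarith
  have hs : (s : ℝ) = f * x := by
    rw [hf]
    field_simp
  have h1 : x * (N + 1 / 2) - ((s * b : ℕ) : ℝ) = x * (N + 1 / 2 - f * b) := by
    push_cast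
    rw [hs]
    ring
  have h2 : max (x * (N + 1 / 2 - f * b)) 0 = x * max (N + 1 / 2 - f * b) 0 := by
    rw [mul_max_of_nonneg _ _ hx0.le, mul_zero]
  unfold gg
  rw [h1, h2]
  field_simp

/-- HZ22. `cc_lo`, `cc_up` (`no_miss`, `E = ∅`) at `b` and `b + 1` -/
theorem last_eq {x A : ℝ} {s n : ℕ} {r : ℕ → ℕ} (hx : 1 ≤ x) (hs : 2 * x ^ 2 ≤ s)
    (h : Rws x A n r) (b : ℕ) :
    stp s n r b + Phi n r (s * (b + 1)) = Phi n r (s * b) := by
  have hs1 := last_s hx hs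
  have key : ∀ b, CC (stp s n r) b + Phi n r (s * b) = CC r n := by
    intro b
    refine le_antisymm ?_ (cc_lo hs1 r b)
    have h1 := cc_up hs1 h.z b ∅ fun i a hm => (no_miss hx hs h hm).elim
    rwa [Finset.card_empty, add_zero] at h1
  have h1 := key b
  have h2 := key (b + 1)
  have h3 : CC (stp s n r) (b + 1) = CC (stp s n r) b + stp s n r b := by
    unfold CC
    rw [Finset.sum_range_succ]
  omega

private theorem last_real {x A : ℝ} {s n : ℕ} {r : ℕ → ℕ} (hx : 1 ≤ x) (hs : 2 * x ^ 2 ≤ s)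
    (h : Rws x A n r) (b : ℕ) :
    (stp s n r b : ℝ) = Phi n r (s * b) - Phi n r (s * (b + 1)) := by
  have h1 := last_eq hx hs h b
  have h2 : ((stp s n r b + Phi n r (s * (b + 1)) : ℕ) : ℝ) = (Phi n r (s * b) : ℕ) := by
    rw [h1]
  push_cast at h2
  linarith

/-- HZ23. `f = s / x`, `s b ≤ x (N + 1 / 2)` iff `f b ≤ N + 1 / 2`;
`gg x N (s b) = max (N + 1 / 2 - f b) 0 ^ 2 / 2`, and
`max t 0 ^ 2 - max (t - f) 0 ^ 2 ≥ 2 t f - f ^ 2`, with equality for `t ≥ f` -/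
theorem last_lo {x A B N f : ℝ} {s n : ℕ} {r : ℕ → ℕ} (hx : 1 ≤ x) (hs : 2 * x ^ 2 ≤ s)
    (hf : f = s / x) (h : Rws x A n r) (hP : PB x B N n r) (b : ℕ) :
    f * (N + 1 / 2) - f ^ 2 / 2 - 2 * B - f ^ 2 * b ≤ (stp s n r b : ℝ) := by
  have h1 := last_real hx hs h b
  have h2 := (abs_le.1 (hP (s * b))).1
  have h3 := (abs_le.1 (hP (s * (b + 1)))).2
  rw [last_gg hx hf b] at h2
  rw [last_gg hx hf (b + 1)] at h3
  have hf2 := last_f hx hs hf
  obtain ⟨u, hu⟩ : ∃ u, u = N + 1 / 2 - f * b := ⟨_, rfl⟩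
  have hu' : N + 1 / 2 - f * ((b + 1 : ℕ) : ℝ) = u - f := by
    rw [hu]
    push_cast
    ring
  rw [hu'] at h3
  rw [← hu] at h2
  have h4 : 2 * u * f - f ^ 2 ≤ (max u 0) ^ 2 - (max (u - f) 0) ^ 2 := by
    rcases le_total f u with h5 | h5
    · rw [max_eq_left (by linarith), max_eq_left (by linarith)]
      nlinarith
    · rw [max_eq_right (by linarith : u - f ≤ 0)]
      rcases le_total 0 u with h6 | h6
      · rw [max_eq_left h6]
        nlinarith [sq_nonneg (u - f)]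
      · rw [max_eq_right h6]
        nlinarith
  have h5 : f * (N + 1 / 2) - f ^ 2 / 2 - f ^ 2 * b = (2 * u * f - f ^ 2) / 2 := by
    rw [hu]
    ring
  linarith

/-- HZ24. -/
theorem last_up {x A B N f : ℝ} {s n : ℕ} {r : ℕ → ℕ} (hx : 1 ≤ x) (hs : 2 * x ^ 2 ≤ s)
    (hf : f = s / x) (h : Rws x A n r) (hP : PB x B N n r) {b : ℕ} (hb : f * (b + 1) ≤ N + 1 / 2) :
    (stp s n r b : ℝ) ≤ f * (N + 1 / 2) - f ^ 2 / 2 + 2 * B - f ^ 2 * b := by
  have h1 := last_real hx hs h b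
  have h2 := (abs_le.1 (hP (s * b))).2
  have h3 := (abs_le.1 (hP (s * (b + 1)))).1
  rw [last_gg hx hf b] at h2
  rw [last_gg hx hf (b + 1)] at h3
  have hf2 := last_f hx hs hf
  obtain ⟨u, hu⟩ : ∃ u, u = N + 1 / 2 - f * b := ⟨_, rfl⟩
  have hu' : N + 1 / 2 - f * ((b + 1 : ℕ) : ℝ) = u - f := by
    rw [hu]
    push_cast
    ring
  have hb' : f ≤ u := by
    rw [hu]
    linarith
  rw [hu', max_eq_left (by linarith)] at h3
  rw [← hu, max_eq_left (by linarith)] at h2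
  have h5 : f * (N + 1 / 2) - f ^ 2 / 2 - f ^ 2 * b = u ^ 2 / 2 - (u - f) ^ 2 / 2 := by
    rw [hu]
    ring
  linarith

/-- HZ25. `N + 1 / 2 - f b ≤ f + 1 / 2`, `(f + 1 / 2) ^ 2 / 2 ≤ f ^ 2` as `f = s / x ≥ 2` -/
theorem last_top {x A B N f : ℝ} {s n : ℕ} {r : ℕ → ℕ} (hx : 1 ≤ x) (hs : 2 * x ^ 2 ≤ s)
    (hf : f = s / x) (h : Rws x A n r) (hP : PB x B N n r) {b : ℕ} (hb : N ≤ f * (b + 1)) :
    (stp s n r b : ℝ) ≤ f ^ 2 + B := by
  have h1 := last_real hx hs h b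
  have h2 := (abs_le.1 (hP (s * b))).2
  rw [last_gg hx hf b] at h2
  have hf2 := last_f hx hs hf
  have h3 : (0 : ℝ) ≤ Phi n r (s * (b + 1)) := Nat.cast_nonneg _
  have h4 : max (N + 1 / 2 - f * b) 0 ≤ f + 1 / 2 :=
    max_le (by linarith) (by linarith)
  have h5 : (max (N + 1 / 2 - f * b) 0) ^ 2 ≤ (f + 1 / 2) ^ 2 :=
    pow_le_pow_left₀ (le_max_right _ _) h4 2
  nlinarith

/-- HZ26. `r i ≤ x A ≤ s b`, so `Phi n r (s b) = 0` -/
theorem last_zero {x A f : ℝ} {s n : ℕ} {r : ℕ → ℕ} (hx : 1 ≤ x) (hs : 2 * x ^ 2 ≤ s)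
    (hf : f = s / x) (h : Rws x A n r) {b : ℕ} (hb : A ≤ f * b) : stp s n r b = 0 := by
  have h1 := last_eq hx hs h b
  have hx0 : 0 < x := by linarith
  have hA : x * A ≤ ((s * b : ℕ) : ℝ) := by
    have h2 : (s : ℝ) = f * x := by
      rw [hf]
      field_simp
    push_cast
    rw [h2]
    nlinarith
  have h2 : Phi n r (s * b) = 0 := by
    unfold Phi
    refine Finset.sum_eq_zero fun i _ => ?_
    have h3 := h.up i
    have h4 : max (x * A - x ^ 2 * i) 0 ≤ ((s * b : ℕ) : ℝ) := by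
      refine max_le ?_ (Nat.cast_nonneg _)
      have h5 : 0 ≤ x ^ 2 * (i : ℝ) := by positivity
      linarith
    have h5 : r i ≤ s * b := by exact_mod_cast h3.trans h4
    omega
  omega

end Pool.Agent.Lib.MP_6b2d39_agHz
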