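import Pool.Agent.Lib.MP_6b2d39_agHz.ChainB
import Pool.Agent.Lib.MP_6b2d39_agHz.LastB

set_option autoImplicit false

namespace Pool.Agent.Lib.MP_6b2d39_agHz

open Pool.Agent.Lib.MP_6b2d39_agHl Pool.Agent.Lib.MP_ed661f_ag.H

/-- HZ27. ALL THE STEPS. `chain_b` with `N = d + 1`, `102 σ x ^ 4 ≤ 102 x ^ 6` (`rch_sq`), then the
step `s`; `T = ⌈(d + 1) / f⌉₊ - 1`. Rows `b > T`: `f b ≥ f (T + 1) ≥ d + 1`, `last_zero`; rows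
`b < T`: `f (b + 1) ≤ f T < d + 1`, `last_up`; `last_lo`, `last_top`. -/
theorem fin_b {σ s d : ℕ} {x f : ℝ} (h : RchD 1 σ x) (hs : 2 * x ^ 2 ≤ s) (hf : f = s / x) :
    ∃ (r : ℕ → ℕ) (T : ℕ), Red (d + 1) (tri (d + 1)) r ∧ (∀ b, T < b → r b = 0) ∧
      (∀ b < T, (r b : ℝ) ≤ f * (d + 3 / 2) - f ^ 2 / 2 + 2 * (102 * x ^ 6) - f ^ 2 * b) ∧
      (∀ b, f * (d + 3 / 2) - f ^ 2 / 2 - 2 * (102 * x ^ 6) - f ^ 2 * b ≤ (r b : ℝ)) ∧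
      (r T : ℝ) ≤ f ^ 2 + 102 * x ^ 6 ∧
      f * T < d + 1 ∧ (d : ℝ) + 1 ≤ f * (T + 1) := by
  have hx2 : 2 ≤ x := rch_two h
  have hsq : (σ : ℝ) ≤ x ^ 2 := rch_sq h
  have hx1 : 1 ≤ x := by linarith
  have hx0 : 0 < x := by linarith
  obtain ⟨r, hR, hW, hP⟩ := chain_b h (d + 1)
  have hB : 102 * (σ : ℝ) * x ^ 4 ≤ 102 * x ^ 6 := by
    have h1 : (σ : ℝ) * x ^ 4 ≤ x ^ 2 * x ^ 4 := mul_le_mul_of_nonneg_right hsq (by positivity)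
    nlinarith [h1]
  have hP' : PB x (102 * x ^ 6) ((d + 1 : ℕ) : ℝ) (d + 1) r := fun c => (hP c).trans hB
  have hs1 : 1 ≤ s := by
    by_contra hcon
    have h0 : s = 0 := by omega
    rw [h0] at hs
    norm_num at hs
    nlinarith [hs, hx2]
  have hf0 : 0 < f := by
    rw [hf]
    have : (1 : ℝ) ≤ s := by exact_mod_cast hs1
    positivity
  have hN : ((d + 1 : ℕ) : ℝ) = (d : ℝ) + 1 := by push_cast; ring
  have hd0 : (0 : ℝ) ≤ (d : ℝ) := Nat.cast_nonneg d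
  have hq : 0 < ((d : ℝ) + 1) / f := by positivity
  have hc1 : 1 ≤ ⌈((d : ℝ) + 1) / f⌉₊ := Nat.one_le_iff_ne_zero.mpr (Nat.ceil_pos.mpr hq).ne'
  have hT1 : ((⌈((d : ℝ) + 1) / f⌉₊ - 1 : ℕ) : ℝ) = (⌈((d : ℝ) + 1) / f⌉₊ : ℝ) - 1 := by
    rw [Nat.cast_sub hc1, Nat.cast_one]
  have hup : (d : ℝ) + 1 ≤ f * (((⌈((d : ℝ) + 1) / f⌉₊ - 1 : ℕ) : ℝ) + 1) := by
    have h1 := Nat.le_ceil (((d : ℝ) + 1) / f)
    rw [div_le_iff₀ hf0] at h1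
    rw [hT1]
    nlinarith
  have hlo : f * ((⌈((d : ℝ) + 1) / f⌉₊ - 1 : ℕ) : ℝ) < (d : ℝ) + 1 := by
    have h1 := Nat.ceil_lt_add_one hq.le
    have h2 : ((⌈((d : ℝ) + 1) / f⌉₊ - 1 : ℕ) : ℝ) < ((d : ℝ) + 1) / f := by
      rw [hT1]
      linarith
    rw [lt_div_iff₀ hf0] at h2
    linarith
  refine ⟨stp s (d + 1) r, ⌈((d : ℝ) + 1) / f⌉₊ - 1, Relation.ReflTransGen.tail hR ⟨s, hs1, rfl⟩,
    fun b hb => ?_, fun b hb => ?_, fun b => ?_, ?_, hlo, hup⟩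
  · refine last_zero hx1 hs hf hW ?_
    rw [hN]
    refine hup.trans (mul_le_mul_of_nonneg_left ?_ hf0.le)
    have : (⌈((d : ℝ) + 1) / f⌉₊ - 1) + 1 ≤ b := hb
    exact_mod_cast this
  · have h1 := last_up hx1 hs hf hW hP' (b := b) ?_
    · rw [hN] at h1
      have h2 : f * ((d : ℝ) + 1 + 1 / 2) = f * ((d : ℝ) + 3 / 2) := by ring
      rw [h2] at h1
      exact h1
    · rw [hN]
      have h3 : ((b : ℝ) + 1) ≤ ((⌈((d : ℝ) + 1) / f⌉₊ - 1 : ℕ) : ℝ) := by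
        have : b + 1 ≤ ⌈((d : ℝ) + 1) / f⌉₊ - 1 := hb
        exact_mod_cast this
      have h4 := mul_le_mul_of_nonneg_left h3 hf0.le
      linarith
  · have h1 := last_lo hx1 hs hf hW hP' b
    rw [hN] at h1
    have h2 : f * ((d : ℝ) + 1 + 1 / 2) = f * ((d : ℝ) + 3 / 2) := by ring
    rw [h2] at h1
    exact h1
  · have h1 := last_top hx1 hs hf hW hP' (b := ⌈((d : ℝ) + 1) / f⌉₊ - 1) (by rw [hN]; exact hup)
    exact h1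

end Pool.Agent.Lib.MP_6b2d39_agHz
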