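import Pool.Agent.Lib.MP_6b2d39_agHl.Mass

set_option autoImplicit false

namespace Pool.Agent.Lib.MP_6b2d39_agHz

open Pool.Agent.Lib.MP_6b2d39_agHl Pool.Agent.Lib.MP_6b2d39_ag Pool.Agent.Lib.MP_6b2d39_agCr

/-- HZ33. as `max_deg`, `Hy/MaxDeg.lean` (`vd` tends to infinity) -/
theorem max_z {n d : ℕ} (μ : Fin n → ℕ) {w : ℝ} (h : ((vd d μ : ℤ) : ℝ) ≤ -w) :
    ∃ d', d ≤ d' ∧ ((vd d' μ : ℤ) : ℝ) ≤ -w ∧ -w < ((vd (d' + 1) μ : ℤ) : ℝ) := by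
  by_contra hcon
  push Not at hcon
  have key : ∀ k : ℕ, ((vd (d + k) μ : ℤ) : ℝ) ≤ -w := by
    intro k
    induction k with
    | zero => exact h
    | succ k ih =>
      have h1 := hcon (d + k) (by omega) ih
      rw [← add_assoc]
      exact h1
  obtain ⟨M, hM⟩ : ∃ M : ℕ, M = ∑ i, (μ i + 1).choose 2 := ⟨_, rfl⟩
  obtain ⟨k, hk⟩ := exists_nat_gt (-w + M)
  obtain ⟨K, hK⟩ : ∃ K : ℕ, K = k + M := ⟨_, rfl⟩
  have h1 := key K
  rw [vd_real, ← hM] at h1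
  have h3 : (0 : ℝ) ≤ M := Nat.cast_nonneg M
  have h4 : (0 : ℝ) ≤ d := Nat.cast_nonneg d
  have h5 : (0 : ℝ) ≤ k := Nat.cast_nonneg k
  have h6 : (K : ℝ) = k + M := by rw [hK]; push_cast; ring
  have h7 := key (K + 2)
  rw [vd_real, ← hM] at h7
  push_cast at h1 h7
  rw [h6] at h1 h7
  nlinarith

/-- HZ34. `∑ (μ i + 1).choose 2 ≥ n m (m + 1) / 2` -/
theorem mass_low {n m : ℕ} {μ : Fin n → ℕ} (hμ : ∀ i, μ i = m ∨ μ i = m + 1) :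
    (n : ℝ) * (m * (m + 1)) / 2 ≤ ((∑ i, (μ i + 1).choose 2 : ℕ) : ℝ) := by
  rw [Nat.cast_sum]
  have h1 : ∀ i ∈ (Finset.univ : Finset (Fin n)), ((m : ℝ) * (m + 1)) / 2 ≤
      (((μ i + 1).choose 2 : ℕ) : ℝ) := by
    intro i _
    rw [Nat.cast_choose_two]
    have h2 : (m : ℝ) ≤ μ i := by
      rcases hμ i with h | h <;> rw [h]
      push_cast
      linarith
    have h3 : (0 : ℝ) ≤ m := Nat.cast_nonneg m
    push_cast
    nlinarith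
  have h2 := Finset.card_nsmul_le_sum _ _ _ h1
  rw [Finset.card_univ, Fintype.card_fin, nsmul_eq_mul] at h2
  refine le_trans (le_of_eq ?_) h2
  ring

end Pool.Agent.Lib.MP_6b2d39_agHz
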