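import Pool.Agent.Lib.MP_6b2d39_agHz.FinB
import Pool.Agent.Lib.MP_6b2d39_agHz.NumZA
import Pool.Agent.Lib.MP_6b2d39_agHz.NumZB
import Pool.Agent.Lib.MP_6b2d39_agHz.NumZC
import Pool.Agent.Lib.MP_6b2d39_agHz.MaxZ
import Pool.Agent.Lib.MP_6b2d39_agHy.NumA
import Pool.Agent.Lib.MP_6b2d39_agHy.NumC
import Pool.Agent.Lib.MP_6b2d39_agHy.Dem
import Pool.Agent.Lib.MP_6b2d39_agHy.EndNeg

set_option autoImplicit false

namespace Pool.Agent.Lib.MP_6b2d39_agHz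

open Pool.Agent.Lib.MP_6b2d39_agHl Pool.Agent.Lib.MP_6b2d39_agHy Pool.Agent.Lib.MP_6b2d39_ag
  Pool.Agent.Lib.MP_6b2d39_agCr Pool.Agent.Lib.MP_6b2d39_agNw Pool.Agent.Lib.MP_ed661f_ag.H

/-- the last step uses at most `n / 4` special points -/
private theorem negz_count {R m xf B d rT v T : ℝ} (h : Fz R m xf B) (hm : 100 ≤ m)
    (hd : d ≤ R * (m + 2)) (hT : m ≤ T) (hr : rT ≤ xf ^ 2 + B)
    (hv : -(2 * d + 3) ≤ v) : 4 * (rT - v) ≤ R ^ 2 * T := by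
  have h2 := h.r0
  have h3 := h.b1
  have h5 : xf ^ 2 ≤ R ^ 2 := pow_le_pow_left₀ h.xf0.le h.xf1 2
  have h7 : R ^ 2 * m ≤ R ^ 2 * T := mul_le_mul_of_nonneg_left hT (by positivity)
  have h8 : 4 * (R ^ 2 + R / 2 + 1 + 2 * (R * (m + 2)) + 3) ≤ R ^ 2 * m := by
    have hRm : 0 ≤ R * m := mul_nonneg (by linarith) (by linarith)
    have h9 : 1000000 * (R * m) ≤ R ^ 2 * m := by
      have h12 : R * (R * m) = R ^ 2 * m := by ring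
      rw [← h12]
      exact mul_le_mul_of_nonneg_right h2 hRm
    have h10 : 100 * R ^ 2 ≤ R ^ 2 * m := by nlinarith [sq_nonneg R]
    have h11 : 100 * R ≤ R * m := by nlinarith
    nlinarith
  linarith

/-- HZ35. as `main_neg`, `Hy/MainNeg.lean`: `w_le_z` (`mass_low`), `d_near`, `size`, `fin_b`,
`top_z`, `card_top`, `dem_bounds` (`loss_z`), `vd_rows`, `end_neg` with `σ = 408 x ^ 6 + 1`;
`(T + 1) σ ≤ (m + 2) σ ≤ w`; `4 (r T - v) ≤ 4 (n + R / 500 + 2 d + 3) ≤ n T` -/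
theorem neg_z {n σ s d m u : ℕ} {x f w : ℝ} {μ : Fin n → ℕ}
    (hμ : ∀ i, μ i = m ∨ μ i = m + 1) (hm : 100 ≤ m) (hR : RchD 1 σ x) (hs : 2 * x ^ 2 ≤ s)
    (hf : f = s / x) (hF : Fz (√n) m f (102 * x ^ 6)) (hfn : f ^ 2 ≤ n)
    (hw : ((m : ℝ) + 2) * (408 * x ^ 6 + 1) ≤ w) (hw' : w ≤ √n * m / 10)
    (hv : ((vd d μ : ℤ) : ℝ) ≤ -w) (hv' : -w < ((vd (d + 1) μ : ℤ) : ℝ)) :
    EmpQ (dgm (tri (d + 1)) (d + 1)) (Sum.elim μ (fun _ => 1) : Fin n ⊕ Fin u → ℕ)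
      Finset.univ := by
  have hx6 : 0 ≤ x ^ 6 := by positivity
  have hm' : (100 : ℝ) ≤ m := by exact_mod_cast hm
  obtain ⟨R, hRd⟩ : ∃ R : ℝ, R = √(n : ℝ) := ⟨_, rfl⟩
  rw [← hRd] at hF hw'
  have hR0 := hF.r0
  have hRn : R ^ 2 = (n : ℝ) := by
    rw [hRd]
    exact Real.sq_sqrt (Nat.cast_nonneg n)
  have hn : 1 ≤ n := by
    rcases Nat.eq_zero_or_pos n with h | h
    · rw [h] at hRd
      simp only [Nat.cast_zero, Real.sqrt_zero] at hRd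
      linarith
    · exact h
  have hw0 : 0 ≤ w := le_trans (by positivity) hw
  obtain ⟨S, hS⟩ : ∃ S : ℝ, S = ((∑ i, μ i : ℕ) : ℝ) := ⟨_, rfl⟩
  have hM := ms_of hn hμ
  rw [← hRd, ← hS] at hM
  have hd0 : (0 : ℝ) ≤ d := Nat.cast_nonneg d
  -- the degree
  have e1 := vd_real (d := d) μ
  have e2 := vd_real (d := d + 1) μ
  push_cast at e1 e2
  have e2' : ((vd (d + 1) μ : ℤ) : ℝ) = ((d : ℝ) + 2) * (d + 3) / 2 -
      ((∑ i, (μ i + 1).choose 2 : ℕ) : ℝ) := by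
    push_cast
    have h1 : ((d : ℝ) + 1 + 1) * (d + 1 + 2) / 2 = ((d : ℝ) + 2) * (d + 3) / 2 := by ring
    linarith
  have e1' : ((vd d μ : ℤ) : ℝ) = ((d : ℝ) + 1) * (d + 2) / 2 -
      ((∑ i, (μ i + 1).choose 2 : ℕ) : ℝ) := by
    push_cast
    linarith
  have hml := mass_low hμ
  rw [← hRn] at hml
  have hwd : w ≤ d + 1 := w_le_z hR0 hm' hml hd0 hw' (by rw [← e2']; exact hv')
  have hn1 : ((d : ℝ) + 1) * (d + 2) / 2 - ((∑ i, (μ i + 1).choose 2 : ℕ) : ℝ) ≤ 0 := by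
    rw [← e1']
    linarith
  have hn2 : -((d : ℝ) + 1) ≤
      ((d : ℝ) + 2) * (d + 3) / 2 - ((∑ i, (μ i + 1).choose 2 : ℕ) : ℝ) := by
    rw [← e2']
    linarith
  have hD := d_near hR0 hm' hM hd0 hn1 hn2
  obtain ⟨z1, z2⟩ := size hR0 hF.m0 hM.s0 hM.s1 hD
  -- the rows
  obtain ⟨r, T, hred, r0, rU, rW, rT, t1, t2⟩ := fin_b (d := d) hR hs hf
  have hS0 : 0 ≤ S := by
    rw [hS]
    exact Nat.cast_nonneg _
  obtain ⟨T1, T2⟩ := top_z hF hS0 hM.s1 hD (T := (T : ℝ)) (by linarith) (by linarith)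
  rw [hRn, hS] at T1 T2
  obtain ⟨hTm, hcard⟩ := card_top hn hμ T1 T2
  have hloss : ((n : ℝ) - f ^ 2) * m ≤ 1 := by
    rw [← hRn]
    exact loss_z hF
  obtain ⟨U, hU⟩ : ∃ U : ℝ, U = f * ((d : ℝ) + 3 / 2) - f ^ 2 / 2 + 2 * (102 * x ^ 6) := ⟨_, rfl⟩
  obtain ⟨W, hW⟩ : ∃ W : ℝ, W = f * ((d : ℝ) + 3 / 2) - f ^ 2 / 2 - 2 * (102 * x ^ 6) := ⟨_, rfl⟩
  obtain ⟨b1, b2, b3⟩ := dem_bounds (U := U) (W := W) hμ hfn hloss hTm
    (fun b hb => by rw [hU]; exact rU b hb) (fun b => by rw [hW]; exact rW b)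
  have hmT : (m : ℝ) ≤ T := by
    rcases hTm with h | h
    · rw [h]
    · rw [h]
      push_cast
      linarith
  have hTm' : (T : ℝ) ≤ m + 1 := by
    rcases hTm with h | h
    · rw [h]
      linarith
    · rw [h]
      push_cast
      exact le_rfl
  have hmd : m + 1 ≤ d := by
    have h1 : ((m : ℝ) + 1) ≤ d := by nlinarith
    exact_mod_cast h1
  have hvr := vd_rows hμ hTm hmd hred r0
  obtain ⟨G, hG⟩ : ∃ G : ℝ, G = S - U - 1 := ⟨_, rfl⟩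
  obtain ⟨τ, hτ⟩ : ∃ τ : ℝ, τ = 408 * x ^ 6 + 1 := ⟨_, rfl⟩
  have hGσ : G + τ = S - W := by
    rw [hG, hτ, hU, hW]
    ring
  have hτ0 : 0 ≤ τ := by
    rw [hτ]
    positivity
  rw [← hS] at b1 b2 b3
  rw [← hG] at b1
  rw [← hGσ] at b2 b3
  rw [← hτ] at hw
  refine hred.emp (end_neg (v := ((vd d μ : ℤ) : ℝ)) (G := G) (σ := τ) ?_ r0 hvr hcard b1 b2 b3
    hτ0 ?_ ?_)
  · have h1 : (1 : ℝ) ≤ T := by linarith
    exact_mod_cast h1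
  · have h1 : ((T : ℝ) + 1) * τ ≤ ((m : ℝ) + 2) * τ :=
      mul_le_mul_of_nonneg_right (by linarith) hτ0
    linarith
  · rw [← hRn]
    refine negz_count hF hm' z2 hmT rT ?_
    rw [e1']
    have h1 : ((d : ℝ) + 2) * (d + 3) / 2 = ((d : ℝ) + 1) * (d + 2) / 2 + (d + 2) := by ring
    linarith

end Pool.Agent.Lib.MP_6b2d39_agHz
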