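import Mathlib

set_option autoImplicit false

namespace Pool.Agent.Lib.MP_6b2d39_agHz

private theorem par_log_ev (Z0 : ℝ) : ∀ᶠ n : ℕ in Filter.atTop,
    1 ≤ n ∧ Z0 ≤ Real.log n ∧ 10000 * 2 ^ 60 ≤ Real.log n ∧
      Real.log n + (n : ℝ) ^ (1 / 250 : ℝ) + 1 ≤ 1 / 2 * (n : ℝ) ^ (1 / 200 : ℝ) := by
  have hc := tendsto_natCast_atTop_atTop (R := ℝ)
  have hl := Real.tendsto_log_atTop.comp hc
  have h1 := hl.eventually_ge_atTop Z0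
  have h2 := hl.eventually_ge_atTop (10000 * 2 ^ 60)
  have h3 := ((tendsto_rpow_atTop (show (0 : ℝ) < 1 / 1000 by norm_num)).comp
    hc).eventually_ge_atTop 8
  have h4 := ((tendsto_rpow_atTop (show (0 : ℝ) < 1 / 200 by norm_num)).comp
    hc).eventually_ge_atTop 8
  have h5 := hc.eventually ((isLittleO_log_rpow_atTop
    (show (0 : ℝ) < 1 / 200 by norm_num)).def (show (0 : ℝ) < 1 / 8 by norm_num))
  filter_upwards [h1, h2, h3, h4, h5, Filter.eventually_ge_atTop 1] with n g1 g2 g3 g4 g5 g6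
  refine ⟨g6, g1, g2, ?_⟩
  have hn : (0 : ℝ) < n := by exact_mod_cast g6
  simp only [Function.comp_apply] at g3 g4
  have e1 : (n : ℝ) ^ (1 / 200 : ℝ) = (n : ℝ) ^ (1 / 250 : ℝ) * (n : ℝ) ^ (1 / 1000 : ℝ) := by
    rw [← Real.rpow_add hn]
    norm_num
  have e2 : 8 * (n : ℝ) ^ (1 / 250 : ℝ) ≤ (n : ℝ) ^ (1 / 200 : ℝ) := by
    rw [e1, mul_comm]
    exact mul_le_mul_of_nonneg_left g3 (Real.rpow_nonneg hn.le _)
  have e3 : Real.log n ≤ 1 / 8 * (n : ℝ) ^ (1 / 200 : ℝ) := by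
    refine (le_abs_self _).trans ?_
    have g7 := g5
    rw [Real.norm_eq_abs, Real.norm_eq_abs, abs_of_nonneg (Real.rpow_nonneg hn.le _)] at g7
    exact g7
  linarith

/-- HZ40. `Λ = log (n (m + 1)) ≤ log n + n ^ (1 / 250) + 1 ≤ 2 n ^ (1 / 250)`, `z = (2 Λ) ^ 20`:
`exp (z ^ (1 / 20)) = (n (m + 1)) ^ 2`, `1000 z ^ 3 = 1000 2 ^ 60 Λ ^ 60`,
`Λ ^ 61 ≤ 2 ^ 61 n ^ (61 / 250)` -/
theorem par_log (Z0 : ℝ) : ∃ N0 : ℕ, ∀ n m : ℕ, N0 ≤ n →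
    (m : ℝ) ≤ Real.exp ((n : ℝ) ^ (1 / 250 : ℝ)) → ∃ z : ℝ, Z0 ≤ z ∧ z ≤ (n : ℝ) ^ (1 / 10 : ℝ) ∧
      (n : ℝ) ^ 2 * (m + 1) ^ 2 ≤ Real.exp (z ^ (1 / 20 : ℝ)) ∧
      10000 * z ^ 3 ≤ Real.log (n * (m + 1)) ^ 61 ∧
      1000 * Real.log (n * (m + 1)) ^ 61 ≤ √(n : ℝ) := by
  obtain ⟨N0, hN0⟩ := Filter.eventually_atTop.1 (par_log_ev Z0)
  refine ⟨N0, fun n m hn hm => ?_⟩
  obtain ⟨g1, g2, g3, g4⟩ := hN0 n hn
  have hnr : (1 : ℝ) ≤ n := by exact_mod_cast g1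
  have hn0 : (0 : ℝ) < n := by linarith
  have hm0 : (0 : ℝ) ≤ m := Nat.cast_nonneg m
  set L := Real.log (n * (m + 1)) with hL
  have hL1 : L = Real.log n + Real.log (m + 1) := by
    rw [hL, Real.log_mul hn0.ne' (by positivity)]
  have hlm : 0 ≤ Real.log ((m : ℝ) + 1) := Real.log_nonneg (by linarith)
  have hlm2 : Real.log ((m : ℝ) + 1) ≤ 1 + (n : ℝ) ^ (1 / 250 : ℝ) := by
    have hx : (0 : ℝ) ≤ (n : ℝ) ^ (1 / 250 : ℝ) := Real.rpow_nonneg hn0.le _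
    rw [Real.log_le_iff_le_exp (by positivity), Real.exp_add]
    have h1 : (1 : ℝ) ≤ Real.exp ((n : ℝ) ^ (1 / 250 : ℝ)) := Real.one_le_exp hx
    have h2 : (2 : ℝ) ≤ Real.exp 1 := by
      have := Real.add_one_le_exp (1 : ℝ)
      linarith
    nlinarith
  have hLlo : 10000 * 2 ^ 60 ≤ L := by linarith
  have hLhi : 2 * L ≤ (n : ℝ) ^ (1 / 200 : ℝ) := by linarith
  have hL0 : 0 < L := lt_of_lt_of_le (by norm_num) hLlo
  have hp : ∀ k : ℕ, ((n : ℝ) ^ (1 / 200 : ℝ)) ^ k = (n : ℝ) ^ ((k : ℝ) / 200) := by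
    intro k
    rw [← Real.rpow_natCast, ← Real.rpow_mul hn0.le]
    congr 1
    ring
  refine ⟨(2 * L) ^ 20, ?_, ?_, ?_, ?_, ?_⟩
  · have h1 : 2 * L ≤ (2 * L) ^ 20 := by
      have h2 : (1 : ℝ) ≤ 2 * L := by
        have : (10000 * 2 ^ 60 : ℝ) ≤ 2 * L := by linarith
        exact le_trans (by norm_num) this
      exact le_self_pow₀ h2 (by norm_num)
    linarith
  · calc (2 * L) ^ 20 ≤ ((n : ℝ) ^ (1 / 200 : ℝ)) ^ 20 :=
          pow_le_pow_left₀ (by linarith) hLhi 20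
      _ = (n : ℝ) ^ (1 / 10 : ℝ) := by
        rw [hp]
        norm_num
  · have h1 : ((2 * L) ^ 20) ^ (1 / 20 : ℝ) = 2 * L := by
      rw [← Real.rpow_natCast, ← Real.rpow_mul (by linarith)]
      norm_num
    rw [h1, two_mul, Real.exp_add, hL, Real.exp_log (by positivity)]
    apply le_of_eq
    ring
  · have h1 : 10000 * ((2 * L) ^ 20) ^ 3 = (10000 * 2 ^ 60) * L ^ 60 := by ring
    rw [h1, show L ^ 61 = L * L ^ 60 by ring]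
    exact mul_le_mul_of_nonneg_right hLlo (by positivity)
  · have h1 : (2 * L) ^ 61 ≤ ((n : ℝ) ^ (1 / 200 : ℝ)) ^ 61 :=
      pow_le_pow_left₀ (by linarith) hLhi 61
    rw [hp] at h1
    have h2 : (n : ℝ) ^ (((61 : ℕ) : ℝ) / 200) ≤ (n : ℝ) ^ (1 / 2 : ℝ) :=
      Real.rpow_le_rpow_of_exponent_le hnr (by norm_num)
    rw [Real.sqrt_eq_rpow]
    have h3 : 1000 * L ^ 61 ≤ (2 * L) ^ 61 := by
      rw [mul_pow]
      exact mul_le_mul_of_nonneg_right (by norm_num) (by positivity)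
    linarith

end Pool.Agent.Lib.MP_6b2d39_agHz
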