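import Pool.Agent.Lib.MP_6b2d39_agHz.MaxZ
import Pool.Agent.Lib.MP_6b2d39_agHx.Main

set_option autoImplicit false

namespace Pool.Agent.Lib.MP_6b2d39_agHz

open Pool.Agent.Lib.MP_6b2d39_agHl Pool.Agent.Lib.MP_6b2d39_ag Pool.Agent.Lib.MP_6b2d39_agCr

/-- HZ41. `unique_degree`; if `d ≥ √n m / 10`, then `d / 2 ≥ √n m / 20`; otherwise
`-vd d μ ≥ n m (m + 1) / 2 - (d + 2) ^ 2 / 2 ≥ n m (m + 1) / 4` (`mass_low`, `vd_real`) -/
theorem uniq_z {n m : ℕ} (hn : 1000000 ≤ n) (hm : 1 ≤ m) {μ : Fin n → ℕ}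
    (hμ : ∀ i, μ i = m ∨ μ i = m + 1) : ∃ d0 : ℕ, ∀ d : ℕ, d ≠ d0 →
    √(n : ℝ) * (m + 1) / 40 ≤ |((vd d μ : ℤ) : ℝ)| := by
  obtain ⟨d0, hd0⟩ := Pool.Agent.Lib.MP_6b2d39_agHx.unique_degree μ
  refine ⟨d0, fun d hd => ?_⟩
  have h1 := hd0 d hd
  have hn' : (1000000 : ℝ) ≤ n := by exact_mod_cast hn
  have hm' : (1 : ℝ) ≤ m := by exact_mod_cast hm
  have hs : (1000 : ℝ) ≤ √(n : ℝ) := by
    rw [show (1000 : ℝ) = √(1000000 : ℝ) from by
      rw [show (1000000 : ℝ) = 1000 ^ 2 from by norm_num]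
      exact (Real.sqrt_sq (by norm_num)).symm]
    exact Real.sqrt_le_sqrt hn'
  have hsq : √(n : ℝ) * √(n : ℝ) = n := Real.mul_self_sqrt (by linarith)
  have hs0 : 0 < √(n : ℝ) := by linarith
  by_cases h : √(n : ℝ) * m / 10 ≤ d
  · refine le_trans ?_ h1
    nlinarith
  · have h := not_le.1 h
    have h2 := mass_low hμ
    have h3 := vd_real (d := d) μ
    have hd0' : (0 : ℝ) ≤ d := Nat.cast_nonneg d
    have h4 : -((vd d μ : ℤ) : ℝ) ≤ |((vd d μ : ℤ) : ℝ)| := neg_le_abs _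
    refine le_trans ?_ h4
    have hsm : (1000 : ℝ) ≤ √(n : ℝ) * m := by nlinarith
    have h5 : (d : ℝ) + 2 ≤ √(n : ℝ) * m * (102 / 1000) := by linarith
    have h6 : ((d : ℝ) + 2) * (d + 2) ≤ (√(n : ℝ) * m * (102 / 1000)) *
        (√(n : ℝ) * m * (102 / 1000)) :=
      mul_le_mul h5 h5 (by linarith) (by positivity)
    have h7 : (√(n : ℝ) * m * (102 / 1000)) * (√(n : ℝ) * m * (102 / 1000)) =
        n * (m * m) * (102 / 1000 * (102 / 1000)) := by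
      have e : (√(n : ℝ) * m * (102 / 1000)) * (√(n : ℝ) * m * (102 / 1000)) =
          √(n : ℝ) * √(n : ℝ) * (m * m) * (102 / 1000 * (102 / 1000)) := by ring
      rw [e, hsq]
    have h8 : ((d : ℝ) + 1) * (d + 2) ≤ (d + 2) * (d + 2) := by nlinarith
    have h9 : (n : ℝ) * (m * m) ≤ n * (m * (m + 1)) := by
      have : (0 : ℝ) ≤ n := by linarith
      nlinarith [mul_nonneg this (by linarith : (0 : ℝ) ≤ m)]
    have h10 : √(n : ℝ) * (m + 1) ≤ n * (m * (m + 1)) := by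
      have e1 : √(n : ℝ) * (m + 1) * 1 ≤ √(n : ℝ) * (m + 1) * (√(n : ℝ) * m) :=
        mul_le_mul_of_nonneg_left (by linarith) (by positivity)
      calc √(n : ℝ) * (m + 1) = √(n : ℝ) * (m + 1) * 1 := (mul_one _).symm
        _ ≤ √(n : ℝ) * (m + 1) * (√(n : ℝ) * m) := e1
        _ = √(n : ℝ) * √(n : ℝ) * (m * (m + 1)) := by ring
        _ = n * (m * (m + 1)) := by rw [hsq]
    have h11 : (0 : ℝ) ≤ √(n : ℝ) * (m + 1) := by positivity
    rw [h3]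
    rw [h7] at h6
    linarith

end Pool.Agent.Lib.MP_6b2d39_agHz
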