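import Pool.Agent.Lib.MP_6b2d39_agHz.MainZ
import Pool.Agent.Lib.MP_6b2d39_agHz.ParLog
import Pool.Agent.Lib.MP_6b2d39_agHz.UniqZ

set_option autoImplicit false

namespace Pool.Agent.Lib.MP_6b2d39_agHz

open Pool.Agent.Lib.MP_6b2d39_agHl Pool.Agent.Lib.MP_6b2d39_ag Pool.Agent.Lib.MP_6b2d39_agCr

/-- HZ42. ALL THE DEGREES BUT ONE. (`par_log` with `Z0 = N0` of `window_z`; `m = 0`: `emp_one`,
`general_of_emp`; `uniq_z`) -/
theorem one_z : ∃ N0 : ℕ, ∀ n m : ℕ, N0 ≤ n → (m : ℝ) ≤ Real.exp ((n : ℝ) ^ (1 / 250 : ℝ)) →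
    ∀ μ : Fin n → ℕ, (∀ i, μ i = m ∨ μ i = m + 1) → ∃ d0 : ℕ, ∀ d : ℕ,
      d ≠ d0 ∨ (m + 1) * Real.log (n * (m + 1)) ^ 61 ≤ |((vd d μ : ℤ) : ℝ)| →
      General (fun P => (Module.finrank ℂ (curves d μ P) : ℤ) = max (vd d μ) 0) := by
  obtain ⟨N1, h1⟩ := window_z
  obtain ⟨N2, h2⟩ := par_log (N1 : ℝ)
  refine ⟨max N1 (max N2 1000000), fun n m hn hm μ hμ => ?_⟩
  have hn1 : N1 ≤ n := (le_max_left _ _).trans hn
  have hn2 : N2 ≤ n := ((le_max_left _ _).trans (le_max_right _ _)).trans hn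
  have hn3 : 1000000 ≤ n := ((le_max_right _ _).trans (le_max_right _ _)).trans hn
  rcases Nat.eq_zero_or_pos m with hm0 | hm1
  · subst hm0
    exact ⟨0, fun d _ => general_of_emp (emp_one fun i => by rcases hμ i with h | h <;> omega)⟩
  obtain ⟨z, z1, z2, z3, z4, z5⟩ := h2 n m hn2 hm
  obtain ⟨d0, hd0⟩ := uniq_z hn3 hm1 hμ
  have hz0 : 0 ≤ z := (Nat.cast_nonneg N1).trans z1
  have hz3 : 0 ≤ z ^ 3 := by positivity
  have hm0 : (0 : ℝ) ≤ m := Nat.cast_nonneg m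
  refine ⟨d0, fun d hd => h1 n z hn1 z1 z2 d m μ hμ ?_ ?_⟩
  · refine le_trans ?_ z3
    refine mul_le_mul_of_nonneg_left ?_ (by positivity)
    nlinarith
  · rcases hd with hd | hd
    · refine le_trans ?_ (hd0 d hd)
      have h3 : 1000 * z ^ 3 ≤ √(n : ℝ) / 40 := by linarith
      have h4 := mul_le_mul_of_nonneg_right h3 (by linarith : (0 : ℝ) ≤ (m : ℝ) + 1)
      linarith
    · refine le_trans ?_ hd
      rw [mul_comm ((m : ℝ) + 1)]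
      refine mul_le_mul_of_nonneg_right ?_ (by linarith)
      linarith

end Pool.Agent.Lib.MP_6b2d39_agHz
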