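import Mathlib

set_option autoImplicit false

namespace Pool.Agent.Lib.MP_6b2d39_agHz

/-- HZ48. `p` and `q` are coprime (otherwise `|α (q / g) - p / g| ≤ 6 δ`), so for `0 < t < q` and all
`k` `|α t - k| ≥ |p t / q - k| - |θ| t / q ≥ 1 / q - 6 δ ≥ 1 / (2 q)` -/
theorem sep_q {α δ : ℝ} {q : ℕ} {p : ℤ} (hδ : 0 < δ) (hq : 1 ≤ q) (hqδ : 12 * δ * q ≤ 1)
    (hp : |α * q - p| ≤ 6 * δ)
    (h : ∀ t : ℕ, 1 ≤ t → t < q → ∀ p : ℤ, 6 * δ < |α * t - p|) {t : ℕ} (ht : 1 ≤ t) (htq : t < q)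
    (k : ℤ) : 1 / (2 * (q : ℝ)) ≤ |α * t - k| := by
  have hq0 : (0 : ℝ) < q := by exact_mod_cast hq
  have ht0 : (0 : ℝ) < t := by exact_mod_cast ht
  have htq' : (t : ℝ) < q := by exact_mod_cast htq
  by_contra hlt
  push Not at hlt
  have h1 : (q : ℝ) * |α * t - k| < 1 / 2 := by
    calc (q : ℝ) * |α * t - k| < q * (1 / (2 * (q : ℝ))) := mul_lt_mul_of_pos_left hlt hq0
      _ = 1 / 2 := by field_simp
  have h2 : (t : ℝ) * |α * q - p| < 1 / 2 := by
    calc (t : ℝ) * |α * q - p| ≤ t * (6 * δ) := mul_le_mul_of_nonneg_left hp ht0.le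
      _ < q * (6 * δ) := mul_lt_mul_of_pos_right htq' (by linarith)
      _ ≤ 1 / 2 := by linarith
  have h3 : |((p * t - k * q : ℤ) : ℝ)| < 1 := by
    have e : ((p * t - k * q : ℤ) : ℝ) = q * (α * t - k) - t * (α * q - p) := by
      push_cast; ring
    rw [e]
    calc |(q : ℝ) * (α * t - k) - t * (α * q - p)|
        ≤ |(q : ℝ) * (α * t - k)| + |(t : ℝ) * (α * q - p)| := abs_sub _ _
      _ = q * |α * t - k| + t * |α * q - p| := by
          rw [abs_mul, abs_mul, abs_of_pos hq0, abs_of_pos ht0]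
      _ < 1 := by linarith
  have h4 : p * t - k * q = 0 := by
    have : |p * t - k * q| < 1 := by exact_mod_cast h3
    exact Int.abs_lt_one_iff.1 this
  have h5 : (p : ℝ) * t = k * q := by
    have : ((p * t - k * q : ℤ) : ℝ) = 0 := by rw [h4]; simp
    push_cast at this
    linarith
  have h6 : (q : ℝ) * |α * t - k| = t * |α * q - p| := by
    have e : (q : ℝ) * (α * t - k) = t * (α * q - p) := by
      linear_combination h5
    calc (q : ℝ) * |α * t - k| = |(q : ℝ) * (α * t - k)| := by rw [abs_mul, abs_of_pos hq0]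
      _ = |(t : ℝ) * (α * q - p)| := by rw [e]
      _ = t * |α * q - p| := by rw [abs_mul, abs_of_pos ht0]
  have h7 := h t ht htq k
  have h8 : (q : ℝ) * (6 * δ) < q * |α * t - k| := mul_lt_mul_of_pos_left h7 hq0
  have h9 : (t : ℝ) * |α * q - p| < q * (6 * δ) :=
    lt_of_le_of_lt (mul_le_mul_of_nonneg_left hp ht0.le)
      (mul_lt_mul_of_pos_right htq' (by linarith))
  linarith

end Pool.Agent.Lib.MP_6b2d39_agHz
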