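import Mathlib

set_option autoImplicit false

namespace Pool.Agent.Lib.MP_6b2d39_agHz

/-- HZ47. if any two elements of the set differ by at least `q` (two elements at distance `t < q`
give `|α t - p| ≤ 6 δ`), it has at most `M / q + 1` elements -/
theorem spread_q (α β δ : ℝ) (M q : ℕ) (hq : 1 ≤ q)
    (h : ∀ t : ℕ, 1 ≤ t → t < q → ∀ p : ℤ, 6 * δ < |α * t - p|) :
    (({m : ℕ | m < M ∧ ∃ k : ℤ, |α * m + β - k| ≤ 3 * δ}.ncard : ℕ) : ℝ) ≤ M / q + 1 := by
  classical
  set S : Set ℕ := {m : ℕ | m < M ∧ ∃ k : ℤ, |α * m + β - k| ≤ 3 * δ} with hS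
  have key : ∀ m m' : ℕ, m ∈ S → m' ∈ S → m < m' → m / q = m' / q → False := by
    rintro m m' ⟨_, k, hk⟩ ⟨_, k', hk'⟩ hlt heq
    have hqp : 0 < q := hq
    have h1 : q * (m / q) + m % q = m := Nat.div_add_mod m q
    have h2 : q * (m' / q) + m' % q = m' := Nat.div_add_mod m' q
    have h3 : m' % q < q := Nat.mod_lt _ hqp
    rw [← heq] at h2
    have h4 : m' - m < q := by omega
    have h5 : 1 ≤ m' - m := by omega
    have h6 := h (m' - m) h5 h4 (k' - k)
    have h7 : ((m' - m : ℕ) : ℝ) = (m' : ℝ) - m := by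
      rw [Nat.cast_sub hlt.le]
    rw [h7] at h6
    push_cast at h6
    have h8 : α * ((m' : ℝ) - m) - ((k' : ℝ) - k)
        = (α * m' + β - k') - (α * m + β - k) := by ring
    rw [h8] at h6
    have h9 := abs_sub (α * m' + β - (k' : ℝ)) (α * m + β - (k : ℝ))
    linarith
  have hinj : Set.InjOn (fun m : ℕ => m / q) S := by
    intro m hm m' hm' heq
    rcases lt_trichotomy m m' with hlt | heq' | hgt
    · exact (key m m' hm hm' hlt heq).elim
    · exact heq'
    · exact (key m' m hm' hm hgt heq.symm).elim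
  have hsub : (fun m : ℕ => m / q) '' S ⊆ (↑(Finset.range (M / q + 1)) : Set ℕ) := by
    rintro _ ⟨m, hm, rfl⟩
    simp only [Finset.coe_range, Set.mem_Iio]
    have : m / q ≤ M / q := Nat.div_le_div_right hm.1.le
    omega
  have hcard : S.ncard ≤ M / q + 1 := by
    rw [← Set.InjOn.ncard_image hinj]
    refine (Set.ncard_le_ncard hsub (Finset.finite_toSet _)).trans ?_
    rw [Set.ncard_coe_finset, Finset.card_range]
  calc ((S.ncard : ℕ) : ℝ) ≤ ((M / q + 1 : ℕ) : ℝ) := by exact_mod_cast hcard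
    _ = ((M / q : ℕ) : ℝ) + 1 := by push_cast; ring
    _ ≤ M / q + 1 := by
        have := @Nat.cast_div_le ℝ _ _ _ M q
        linarith

end Pool.Agent.Lib.MP_6b2d39_agHz
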